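import Pool.Agent.U133.SE.Gen

set_option autoImplicit false

/-!
# The hyperelliptic case
-/

namespace Pool.Agent.U133.SE

open Polynomial

lemma powerClass_two {f : ℤ[X]} {x y : ℤ} (h : GP.SameClass f x y) : PowerClass 2 f x y := by
  obtain ⟨b, hb, B, hB⟩ := h
  refine ⟨b, hb, B, ?_⟩
  rw [show 2 - 1 = 1 by norm_num, pow_one]
  exact hB

/-- both bounds for `m = 2` -/
theorem hyp (d : ℕ) (hd : 3 ≤ d) : ∃ M : ℕ,
    ∀ (H : ℕ) (f : ℤ[X]), f.natDegree = d → (f.map (Int.castRingHom ℚ)).Separable →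
    (∀ i, |f.coeff i| ≤ H) → ∀ S : Finset ℤ,
      (∀ x ∈ S, (2 * (H : ℝ)) ^ M ≤ |(x : ℝ)|) →
      (∀ x ∈ S, ∀ y ∈ S, GP.SameClass f x y) →
        S.card ≤ 2 ^ (d + 1) ∧ (5 ≤ d → S.card ≤ 2 ^ d) := by
  obtain ⟨M₁, h₁⟩ := main3 2 d le_rfl hd
  have h2 : ∃ M : ℕ, 5 ≤ d → ∀ (H : ℕ) (f : ℤ[X]), f.natDegree = d →
      (f.map (Int.castRingHom ℚ)).Separable →
      (∀ i, |f.coeff i| ≤ H) → ∀ S : Finset ℤ,
      (∀ x ∈ S, (2 * (H : ℝ)) ^ M ≤ |(x : ℝ)|) →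
      (∀ x ∈ S, ∀ y ∈ S, PowerClass 2 f x y) → S.card ≤ 2 * 2 ^ (d - 1) := by
    by_cases h5 : 5 ≤ d
    · obtain ⟨M, hM⟩ := main 2 d le_rfl (by omega)
      exact ⟨M, fun _ => hM⟩
    · exact ⟨0, fun h => absurd h h5⟩
  obtain ⟨M₂, h₂⟩ := h2
  refine ⟨M₁ + M₂, fun H f hfd hs hfH S hS hcl => ?_⟩
  have hf : f ≠ 0 := by rintro rfl; simp at hfd; omega
  have hH : 1 ≤ H := by
    have h1 := hfH f.natDegree
    have h2 := Int.one_le_abs (leadingCoeff_ne_zero.mpr hf)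
    have h3 : (1 : ℤ) ≤ H := h2.trans h1
    exact_mod_cast h3
  have h2H : (1 : ℝ) ≤ 2 * H := by
    have hH1 : (1 : ℝ) ≤ H := by exact_mod_cast hH
    linarith
  have hcl' : ∀ x ∈ S, ∀ y ∈ S, PowerClass 2 f x y := fun x hx y hy =>
    powerClass_two (hcl x hx y hy)
  constructor
  · have := h₁ H f hfd hs hfH S (fun x hx =>
      (pow_le_pow_right₀ h2H (by omega)).trans (hS x hx)) hcl'
    calc S.card ≤ 4 * 2 ^ (d - 1) := this
      _ = 2 ^ (d + 1) := by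
          obtain ⟨e, rfl⟩ : ∃ e, d = e + 1 := ⟨d - 1, by omega⟩
          rw [show e + 1 - 1 = e by omega, pow_succ, pow_succ]; ring
  · intro h5
    have := h₂ h5 H f hfd hs hfH S (fun x hx =>
      (pow_le_pow_right₀ h2H (by omega)).trans (hS x hx)) hcl'
    calc S.card ≤ 2 * 2 ^ (d - 1) := this
      _ = 2 ^ d := by
          rw [← pow_succ']; congr 1; omega

end Pool.Agent.U133.SE
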