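import Pool.Agent.U133.SE.Zero

set_option autoImplicit false

/-!
# The approximation property
-/

namespace Pool.Agent.U133.SE

open Pool.Agent.U133.HP

open Finset

variable (m : ℕ)


lemma hasSum_binom (a : ℂ) {z : ℂ} (hz : ‖z‖ < 1) :
    HasSum (fun k : ℕ => Ring.choose a k * z ^ k) ((1 + z) ^ a) := by
  have h := (Complex.one_add_cpow_hasFPowerSeriesOnBall_zero (a := a)).hasSum (y := z) (by
    rw [← ENNReal.ofReal_one, Metric.eball_ofReal]; simpa using hz)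
  simp only [binomialSeries_apply, List.ofFn_const, List.prod_replicate, smul_eq_mul,
    zero_add] at h
  exact h

/-- the branch of `√(1 - θ / x)` near `1` -/
noncomputable def vv (x θ : ℂ) : ℂ := (1 - θ / x) ^ (al m : ℂ)

lemma one_sub_ne {x θ : ℂ} (h : ‖θ‖ < ‖x‖) : 1 - θ / x ≠ 0 := by
  intro h0
  have h1 : θ / x = 1 := (sub_eq_zero.mp h0).symm
  have h2 := congrArg norm h1
  have hx : 0 < ‖x‖ := (norm_nonneg _).trans_lt h
  rw [norm_div, norm_one, div_eq_one_iff_eq hx.ne'] at h2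
  exact h.ne h2

lemma vv_pow {m : ℕ} (hm : 2 ≤ m) {x θ : ℂ} : vv m x θ ^ m = (1 - θ / x) ^ (m - 1) := by
  have h1 : (m : ℂ) * (al m : ℂ) = ((m - 1 : ℕ) : ℂ) := by
    have h2 := al_mul hm
    have h3 := congrArg (fun q : ℚ => (q : ℂ)) h2
    push_cast at h3
    rw [h3, Nat.cast_sub (by omega)]
    push_cast; ring
  rw [vv, ← Complex.cpow_nat_mul, h1, Complex.cpow_natCast]

lemma choose_shift (n j μ : ℕ) : ((cc m n (μ + j) : ℚ) : ℂ) * ((μ + j).choose j : ℂ) =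
    (cc m n j : ℂ) * Ring.choose ((n : ℂ) + (al m : ℂ) - j) μ := by
  have h := Ring.choose_smul_choose ((n : ℂ) + (al m : ℂ)) (n := μ + j) (k := j) (by omega)
  rw [show μ + j - j = μ by omega, nsmul_eq_mul] at h
  rw [cc_C, cc_C, ← h]
  ring

/-- the local expansion -/
lemma loc_sum (n : ℕ) {x θ : ℂ} (h : ‖θ‖ < ‖x‖) (j : ℕ) :
    HasSum (fun k : ℕ => x ^ n * (cc m n k : ℂ) * (-x⁻¹) ^ k * PowerSeries.coeff j (tay θ ((Polynomial.X : Polynomial ℂ) ^ k)))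
      (vv m x θ * PowerSeries.coeff j (Ps m n (x - θ))) := by
  have hx0 : 0 < ‖x‖ := (norm_nonneg _).trans_lt h
  have hx : x ≠ 0 := norm_pos_iff.mp hx0
  have h1 := one_sub_ne h
  have hz : ‖-(θ / x)‖ < 1 := by
    rw [norm_neg, norm_div, div_lt_one hx0]; exact h
  have hb := (hasSum_binom ((n : ℂ) + (al m : ℂ) - j) hz).mul_left (x ^ n * (-x⁻¹) ^ j * (cc m n j : ℂ))
  have h0 : ∑ i ∈ range j, x ^ n * (cc m n i : ℂ) * (-x⁻¹) ^ i *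
      PowerSeries.coeff j (tay θ ((Polynomial.X : Polynomial ℂ) ^ i)) = 0 := by
    refine sum_eq_zero fun i hi => ?_
    rw [coeff_tay_pow, Nat.choose_eq_zero_of_lt (mem_range.mp hi)]
    simp
  set F : ℕ → ℂ := fun k => x ^ n * (cc m n k : ℂ) * (-x⁻¹) ^ k *
    PowerSeries.coeff j (tay θ ((Polynomial.X : Polynomial ℂ) ^ k)) with hF
  have hval : vv m x θ * PowerSeries.coeff j (Ps m n (x - θ)) =
      x ^ n * (-x⁻¹) ^ j * (cc m n j : ℂ) * (1 + -(θ / x)) ^ ((n : ℂ) + (al m : ℂ) - j) := by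
    rw [coeff_Ps, vv]
    have h4 : (1 + -(θ / x)) ^ ((n : ℂ) + (al m : ℂ) - j) =
        (1 - θ / x) ^ (al m : ℂ) * (1 - θ / x) ^ n * ((1 - θ / x) ^ j)⁻¹ := by
      rw [← sub_eq_add_neg, Complex.cpow_sub _ _ h1, Complex.cpow_add _ _ h1,
        Complex.cpow_natCast, Complex.cpow_natCast, div_eq_mul_inv]
      ring
    rw [h4]
    have h5 : x - θ = x * (1 - θ / x) := by field_simp
    rw [h5, mul_pow, inv_pow, mul_pow, mul_inv, neg_pow x⁻¹, inv_pow]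
    ring
  have hs : HasSum (fun μ => F (μ + j)) (vv m x θ * PowerSeries.coeff j (Ps m n (x - θ))) := by
    rw [hval]
    refine hb.congr_fun ?_
    intro μ
    simp only [hF]
    rw [coeff_tay_pow, Nat.add_sub_cancel]
    have h2 := choose_shift m n j μ
    have h3 : (-x⁻¹) ^ (μ + j) * θ ^ μ = (-x⁻¹) ^ j * (-(θ / x)) ^ μ := by
      rw [pow_add, mul_comm ((-x⁻¹) ^ μ), mul_assoc, ← mul_pow]
      congr 2
      rw [div_eq_mul_inv]; ring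
    calc x ^ n * (cc m n (μ + j) : ℂ) * (-x⁻¹) ^ (μ + j) * (((μ + j).choose j : ℂ) * θ ^ μ)
        = x ^ n * ((cc m n (μ + j) : ℂ) * ((μ + j).choose j : ℂ)) * ((-x⁻¹) ^ (μ + j) * θ ^ μ) := by
          ring
      _ = _ := by rw [h2, h3]; ring
  exact (hasSum_nat_add_iff' j).mp (by rw [h0, sub_zero]; exact hs)

/-- the coefficients of the linear form -/
noncomputable def Ph (R : Finset ℂ) (n : ℕ) (x : ℂ) (i : ℕ) (θ : ℂ) : ℂ :=
  PowerSeries.coeff n (tay θ ((Polynomial.X : Polynomial ℂ) ^ i) * Ps m n (x - θ) * (qs R θ)⁻¹ ^ (n + 1))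

lemma La_pow_eq (R : Finset ℂ) (n : ℕ) (x : ℂ) (γ : ℂ → ℂ) (i : ℕ) :
    La m R n x γ ((Polynomial.X : Polynomial ℂ) ^ i) = ∑ θ ∈ R, γ θ * Ph m R n x i θ := rfl

/-- the remainder as a series -/
lemma rem_sum (R : Finset ℂ) (n : ℕ) (x : ℂ) (h : ∀ θ ∈ R, ‖θ‖ < ‖x‖) (i : ℕ) :
    HasSum (fun k : ℕ => x ^ n * (cc m n k : ℂ) * (-x⁻¹) ^ k * Lf R n ((Polynomial.X : Polynomial ℂ) ^ (k + i)))
      (∑ θ ∈ R, vv m x θ * Ph m R n x i θ) := by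
  have h1 : ∀ θ ∈ R, HasSum (fun k : ℕ => x ^ n * (cc m n k : ℂ) * (-x⁻¹) ^ k *
      PowerSeries.coeff n (tay θ ((Polynomial.X : Polynomial ℂ) ^ (k + i)) * (qs R θ)⁻¹ ^ (n + 1)))
      (vv m x θ * Ph m R n x i θ) := by
    intro θ hθ
    set G := tay θ ((Polynomial.X : Polynomial ℂ) ^ i) * (qs R θ)⁻¹ ^ (n + 1) with hG
    have e1 : Ph m R n x i θ = PowerSeries.coeff n (Ps m n (x - θ) * G) := by
      rw [Ph, hG]; congr 1; ring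
    rw [e1, PowerSeries.coeff_mul, mul_sum]
    have e2 : (fun k : ℕ => x ^ n * (cc m n k : ℂ) * (-x⁻¹) ^ k *
        PowerSeries.coeff n (tay θ ((Polynomial.X : Polynomial ℂ) ^ (k + i)) * (qs R θ)⁻¹ ^ (n + 1))) =
        fun k => ∑ ab ∈ antidiagonal n, x ^ n * (cc m n k : ℂ) * (-x⁻¹) ^ k *
          PowerSeries.coeff ab.1 (tay θ ((Polynomial.X : Polynomial ℂ) ^ k)) * PowerSeries.coeff ab.2 G := by
      funext k
      rw [pow_add (Polynomial.X : Polynomial ℂ), map_mul (tay θ), mul_assoc (tay θ ((Polynomial.X : Polynomial ℂ) ^ k)), ← hG, PowerSeries.coeff_mul,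
        mul_sum]
      refine sum_congr rfl fun ab _ => ?_
      ring
    rw [e2]
    refine hasSum_sum fun ab _ => ?_
    rw [← mul_assoc]
    exact (loc_sum m n (h θ hθ) ab.1).mul_right _
  have h2 := hasSum_sum h1
  refine h2.congr_fun ?_
  intro k
  rw [Lf, mul_sum]

/-- **The size of the remainder.** -/
theorem rem_bound {m : ℕ} (hm : 2 ≤ m) (R : Finset ℂ) (hR : 1 ≤ R.card) (n : ℕ) (x : ℂ) {ρ : ℝ} (hρ : 1 / 2 ≤ ρ)
    (h : ∀ θ ∈ R, ‖θ‖ ≤ ρ) (hx : 4 * ρ ≤ ‖x‖) (i : ℕ) (hi : i < R.card) :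
    ‖∑ θ ∈ R, vv m x θ * Ph m R n x i θ‖ * ‖x‖ ^ (R.card * n) ≤
      2 ^ (n + R.card * (n + 1) + 1) * ‖x‖ ^ n := by
  have hx0 : 0 < ‖x‖ := by linarith
  have hx1 : 1 ≤ ‖x‖ := by linarith
  have hB : 0 < 2 * ρ := by linarith
  have hlt : ∀ θ ∈ R, ‖θ‖ < ‖x‖ := fun θ hθ => (h θ hθ).trans_lt (by linarith)
  set N := R.card * (n + 1) with hN
  have hNd : R.card * n + R.card = N := by rw [hN]; ring
  obtain ⟨k₀, hk₀⟩ : ∃ k₀, k₀ + i + 1 = N := ⟨N - 1 - i, by omega⟩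
  set f : ℕ → ℂ := fun k => x ^ n * (cc m n k : ℂ) * (-x⁻¹) ^ k * Lf R n ((Polynomial.X : Polynomial ℂ) ^ (k + i)) with hf
  have hs := rem_sum m R n x hlt i
  have h0 : ∑ k ∈ range k₀, f k = 0 := by
    refine sum_eq_zero fun k hk => ?_
    have := mem_range.mp hk
    simp only [hf]
    rw [Lf_small R hR n (k + i) (by omega), mul_zero]
  rw [← sub_zero (∑ θ ∈ R, vv m x θ * Ph m R n x i θ), ← h0]
  have hs2 := (hasSum_nat_add_iff' k₀).mpr hs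
  rw [← hf] at hs2
  have hb : ∀ μ, ‖f (μ + k₀)‖ ≤ ‖x‖ ^ n * 2 ^ n * (‖x‖⁻¹) ^ k₀ * 2 ^ N * (2⁻¹) ^ μ := by
    intro μ
    simp only [hf]
    have h1 := Lf_bound R hR n hρ h (μ + k₀ + i)
    have h2 : ‖Lf R n ((Polynomial.X : Polynomial ℂ) ^ (μ + k₀ + i))‖ ≤ 2 ^ N * (2 * ρ) ^ μ := by
      have e : (2 * ρ) ^ (μ + k₀ + i + 1) = (2 * ρ) ^ μ * (2 * ρ) ^ N := by
        rw [← pow_add]; congr 1; omega
      rw [e, ← mul_assoc] at h1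
      exact le_of_mul_le_mul_right h1 (by positivity)
    have h3 : ‖((cc m n (μ + k₀) : ℚ) : ℂ)‖ ≤ 2 ^ n := by
      have h4 := cc_le hm n (μ + k₀)
      have h5 : ‖((cc m n (μ + k₀) : ℚ) : ℂ)‖ = ((|cc m n (μ + k₀)| : ℚ) : ℝ) := by
        rw [← Complex.ofReal_ratCast, Complex.norm_real, Real.norm_eq_abs]
        push_cast; rfl
      rw [h5]
      exact_mod_cast h4
    rw [norm_mul, norm_mul, norm_mul, norm_pow, norm_pow, norm_neg, norm_inv]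
    calc ‖x‖ ^ n * ‖((cc m n (μ + k₀) : ℚ) : ℂ)‖ * ‖x‖⁻¹ ^ (μ + k₀) *
          ‖Lf R n ((Polynomial.X : Polynomial ℂ) ^ (μ + k₀ + i))‖
        ≤ ‖x‖ ^ n * 2 ^ n * ‖x‖⁻¹ ^ (μ + k₀) * (2 ^ N * (2 * ρ) ^ μ) := by
          gcongr
      _ = ‖x‖ ^ n * 2 ^ n * ‖x‖⁻¹ ^ k₀ * 2 ^ N * (‖x‖⁻¹ * (2 * ρ)) ^ μ := by
          rw [pow_add, mul_pow]; ring
      _ ≤ _ := by
          have h6 : ‖x‖⁻¹ * (2 * ρ) ≤ 2⁻¹ := by
            rw [inv_mul_le_iff₀ hx0]; linarith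
          gcongr
  have hg : HasSum (fun μ : ℕ => ‖x‖ ^ n * 2 ^ n * (‖x‖⁻¹) ^ k₀ * 2 ^ N * ((2 : ℝ)⁻¹) ^ μ)
      (‖x‖ ^ n * 2 ^ n * (‖x‖⁻¹) ^ k₀ * 2 ^ N * 2) := by
    have := hasSum_geometric_two
    have h7 : HasSum (fun μ : ℕ => ((2 : ℝ)⁻¹) ^ μ) 2 := by simpa [one_div] using this
    exact h7.mul_left _
  have hfin : ‖(∑ θ ∈ R, vv m x θ * Ph m R n x i θ) - ∑ k ∈ range k₀, f k‖ ≤
      ‖x‖ ^ n * 2 ^ n * (‖x‖⁻¹) ^ k₀ * 2 ^ N * 2 := by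
    rw [← hs2.tsum_eq]
    exact tsum_of_norm_bounded hg hb
  have h8 : ‖x‖⁻¹ ^ k₀ * ‖x‖ ^ (R.card * n) ≤ 1 := by
    rw [inv_pow, inv_mul_le_iff₀ (by positivity), mul_one]
    exact pow_le_pow_right₀ hx1 (by omega)
  calc ‖(∑ θ ∈ R, vv m x θ * Ph m R n x i θ) - ∑ k ∈ range k₀, f k‖ * ‖x‖ ^ (R.card * n)
      ≤ (‖x‖ ^ n * 2 ^ n * (‖x‖⁻¹) ^ k₀ * 2 ^ N * 2) * ‖x‖ ^ (R.card * n) :=
        mul_le_mul_of_nonneg_right hfin (by positivity)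
    _ = (‖x‖ ^ n * 2 ^ n * 2 ^ N * 2) * (‖x‖⁻¹ ^ k₀ * ‖x‖ ^ (R.card * n)) := by ring
    _ ≤ (‖x‖ ^ n * 2 ^ n * 2 ^ N * 2) * 1 := mul_le_mul_of_nonneg_left h8 (by positivity)
    _ = _ := by rw [pow_succ, pow_add]; ring

end Pool.Agent.U133.SE
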