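import Mathlib

set_option autoImplicit false

/-!
# The binomial coefficients of `n + 1 - 1 / m`
-/

namespace Pool.Agent.U133.SE

open Finset PowerSeries

lemma choose_rec {K : Type*} [Field K] [CharZero K] (a : K) (k : ℕ) :
    ((k : K) + 1) * Ring.choose a (k + 1) = (a - k) * Ring.choose a k := by
  have h := Ring.choose_smul_choose a (n := k + 1) (k := k) (by omega)
  rw [show k + 1 - k = 1 by omega, Ring.choose_one_right, Nat.choose_succ_self_right,
    nsmul_eq_mul] at h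
  push_cast at h
  rw [h, mul_comm]

/-- the exponent `1 - 1 / m` -/
noncomputable def al (m : ℕ) : ℚ := 1 - 1 / (m : ℚ)

lemma al_pos {m : ℕ} (hm : 2 ≤ m) : 0 < al m := by
  have h : (2 : ℚ) ≤ m := by exact_mod_cast hm
  have h2 : 1 / (m : ℚ) ≤ 1 / 2 := one_div_le_one_div_of_le (by norm_num) h
  rw [al]; linarith

lemma al_lt {m : ℕ} (hm : 2 ≤ m) : al m < 1 := by
  have h : (0 : ℚ) < m := by exact_mod_cast (by omega : 0 < m)
  have h2 : 0 < 1 / (m : ℚ) := by positivity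
  rw [al]; linarith

lemma al_mul {m : ℕ} (hm : 2 ≤ m) : (m : ℚ) * al m = m - 1 := by
  have h : (m : ℚ) ≠ 0 := by exact_mod_cast (by omega : m ≠ 0)
  rw [al]; field_simp

/-- `n + al m` is not an integer -/
lemma al_ne {m : ℕ} (hm : 2 ≤ m) (a b : ℕ) : (a : ℚ) + al m ≠ b := by
  intro h
  have h1 := al_mul hm
  have h2 : (m : ℚ) * (a : ℚ) + (m - 1) = m * b := by
    rw [← h1, ← mul_add, h]
  have h3 : m * a + m = m * b + 1 := by
    have : ((m * a + m : ℕ) : ℚ) = ((m * b + 1 : ℕ) : ℚ) := by push_cast; linarith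
    exact_mod_cast this
  have h4 : m ∣ m * b + 1 := ⟨a + 1, by rw [← h3]; ring⟩
  have h5 : m ∣ 1 := (Nat.dvd_add_right (Dvd.intro b rfl)).mp h4
  have := Nat.dvd_one.mp h5
  omega

/-- the coefficients -/
noncomputable def cc (m n k : ℕ) : ℚ := Ring.choose ((n : ℚ) + al m) k

lemma cc_zero (m n : ℕ) : cc m n 0 = 1 := by rw [cc, Ring.choose_zero_right]

lemma cc_succ (m n k : ℕ) :
    ((k : ℚ) + 1) * cc m n (k + 1) = ((n : ℚ) + al m - k) * cc m n k := by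
  rw [cc, cc, choose_rec]

lemma cc_C (m n k : ℕ) : ((cc m n k : ℚ) : ℂ) = Ring.choose ((n : ℂ) + (al m : ℂ)) k := by
  rw [cc]
  have h := Ring.map_choose (algebraMap ℚ ℂ) ((n : ℚ) + al m) k
  simp only [eq_ratCast] at h
  rw [h]
  push_cast
  rfl

/-! ### integrality -/

lemma factorial_dvd (m j : ℕ) (hm : 1 ≤ m) :
    j.factorial ∣ m ^ j * ∏ i ∈ range j, (1 + i * m) := by
  rw [Nat.dvd_iff_prime_pow_dvd_dvd]
  intro p k hp hk
  haveI : Fact p.Prime := ⟨hp⟩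
  by_cases hpm : p ∣ m
  · have h1 : k ≤ j := by
      have h2 : k ≤ padicValNat p j.factorial :=
        (padicValNat_dvd_iff_le (Nat.factorial_ne_zero j)).mp hk
      exact h2.trans (padicValNat_factorial_le p j)
    exact Dvd.dvd.mul_right ((pow_dvd_pow p h1).trans (pow_dvd_pow_of_dvd hpm j)) _
  · have hcop : Nat.Coprime m (p ^ k) :=
      Nat.Coprime.pow_right k ((Nat.Prime.coprime_iff_not_dvd hp).mpr hpm).symm
    apply Dvd.dvd.mul_left
    rw [← (ZMod.natCast_eq_zero_iff _ _)]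
    haveI : NeZero (p ^ k) := ⟨pow_ne_zero _ hp.ne_zero⟩
    have hu : (m : ZMod (p ^ k)) * (m : ZMod (p ^ k))⁻¹ = 1 := ZMod.coe_mul_inv_eq_one m hcop
    set r : ℕ := ((m : ZMod (p ^ k))⁻¹).val with hr
    have hrz : (r : ZMod (p ^ k)) = (m : ZMod (p ^ k))⁻¹ := by
      rw [hr, ZMod.natCast_zmod_val]
    have h3 : ((∏ i ∈ range j, (r + i) : ℕ) : ZMod (p ^ k)) = 0 := by
      rw [ZMod.natCast_eq_zero_iff, ← Nat.ascFactorial_eq_prod_range]
      exact hk.trans (Nat.factorial_dvd_ascFactorial r j)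
    have h4 : ((∏ i ∈ range j, (r + i) : ℕ) : ZMod (p ^ k)) =
        (r : ZMod (p ^ k)) ^ j * ((∏ i ∈ range j, (1 + i * m) : ℕ) : ZMod (p ^ k)) := by
      have h5 : (r : ZMod (p ^ k)) ^ j = ∏ _i ∈ range j, (r : ZMod (p ^ k)) := by
        rw [prod_const, card_range]
      push_cast
      rw [h5, ← prod_mul_distrib]
      refine prod_congr rfl fun i _ => ?_
      rw [hrz]
      linear_combination (-(i : ZMod (p ^ k))) * hu
    rw [h4, hrz] at h3
    have h6 : ((m : ZMod (p ^ k)) ^ j) * ((m : ZMod (p ^ k))⁻¹ ^ j *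
        ((∏ i ∈ range j, (1 + i * m) : ℕ) : ZMod (p ^ k))) = 0 := by rw [h3, mul_zero]
    rwa [← mul_assoc, ← mul_pow, hu, one_pow, one_mul] at h6

lemma neg_choose {m : ℕ} (hm : 1 ≤ m) (j : ℕ) : (m : ℚ) ^ j * (j.factorial : ℚ) *
    Ring.choose (-(1 / (m : ℚ))) j = (-1) ^ j * ((∏ i ∈ range j, (1 + i * m) : ℕ) : ℚ) := by
  have h0 : (m : ℚ) ≠ 0 := by exact_mod_cast (by omega : m ≠ 0)
  induction j with
  | zero => simp [Ring.choose_zero_right]
  | succ j ih =>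
    have h1 := choose_rec (-(1 / (m : ℚ))) j
    rw [prod_range_succ, Nat.factorial_succ]
    push_cast at ih ⊢
    calc (m : ℚ) ^ (j + 1) * (((j : ℚ) + 1) * (j.factorial : ℚ)) *
          Ring.choose (-(1 / (m : ℚ))) (j + 1)
        = (m : ℚ) ^ (j + 1) * (j.factorial : ℚ) * (((j : ℚ) + 1) *
          Ring.choose (-(1 / (m : ℚ))) (j + 1)) := by ring
      _ = (m * (-(1 / (m : ℚ)) - j)) * ((m : ℚ) ^ j * (j.factorial : ℚ) *
          Ring.choose (-(1 / (m : ℚ))) j) := by rw [h1]; ring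
      _ = _ := by
          rw [ih]
          field_simp
          ring

lemma int_neg {m : ℕ} (hm : 1 ≤ m) (j : ℕ) :
    ∃ z : ℤ, (z : ℚ) = ((m : ℚ) ^ 2) ^ j * Ring.choose (-(1 / (m : ℚ))) j := by
  obtain ⟨t, ht⟩ := factorial_dvd m j hm
  refine ⟨(-1) ^ j * t, ?_⟩
  have h1 := neg_choose hm j
  have hf : (j.factorial : ℚ) ≠ 0 := by exact_mod_cast Nat.factorial_ne_zero j
  have h2 : (m : ℚ) ^ j * ((∏ i ∈ range j, (1 + i * m) : ℕ) : ℚ) = (j.factorial : ℚ) * t := by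
    exact_mod_cast ht
  apply mul_left_cancel₀ hf
  push_cast
  calc (j.factorial : ℚ) * ((-1) ^ j * (t : ℚ)) = (-1) ^ j * ((j.factorial : ℚ) * t) := by ring
    _ = (m : ℚ) ^ j * ((-1) ^ j * ((∏ i ∈ range j, (1 + i * m) : ℕ) : ℚ)) := by rw [← h2]; ring
    _ = (m : ℚ) ^ j * ((m : ℚ) ^ j * (j.factorial : ℚ) * Ring.choose (-(1 / (m : ℚ))) j) := by
        rw [h1]
    _ = _ := by rw [← pow_mul, two_mul, pow_add]; ring

lemma cc_eq' (m n k : ℕ) : cc m n k = ∑ ij ∈ antidiagonal k, ((n + 1).choose ij.1 : ℚ) *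
    Ring.choose (-(1 / (m : ℚ))) ij.2 := by
  have e : (n : ℚ) + al m = ((n + 1 : ℕ) : ℚ) + -(1 / (m : ℚ)) := by rw [al]; push_cast; ring
  rw [cc, e, Ring.add_choose_eq k (Commute.all _ _)]
  refine sum_congr rfl fun ij _ => ?_
  rw [Ring.choose_natCast]

/-- integrality -/
lemma cc_int {m : ℕ} (hm : 1 ≤ m) (n k : ℕ) :
    ∃ z : ℤ, (z : ℚ) = ((m : ℚ) ^ 2) ^ k * cc m n k := by
  choose w hw using int_neg hm
  refine ⟨∑ ij ∈ antidiagonal k, ((m : ℤ) ^ 2) ^ ij.1 * ((n + 1).choose ij.1 : ℤ) * w ij.2, ?_⟩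
  rw [cc_eq', mul_sum]
  push_cast
  refine sum_congr rfl fun ij hij => ?_
  rw [hw, ← mem_antidiagonal.mp hij, pow_add]
  ring

/-! ### sizes -/

lemma frac_le {a : ℚ} (ha0 : 0 ≤ a) (ha1 : a ≤ 1) (k : ℕ) : |Ring.choose a k| ≤ 1 := by
  induction k with
  | zero => simp [Ring.choose_zero_right]
  | succ k ih =>
    have h := choose_rec a k
    have hk : (0 : ℚ) < (k : ℚ) + 1 := by positivity
    have h2 : ((k : ℚ) + 1) * |Ring.choose a (k + 1)| =
        |a - (k : ℚ)| * |Ring.choose a k| := by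
      rw [← abs_mul, ← h, abs_mul, abs_of_pos hk]
    have h3 : |a - (k : ℚ)| ≤ (k : ℚ) + 1 := by
      rw [abs_le]
      have : (0 : ℚ) ≤ k := Nat.cast_nonneg k
      constructor <;> linarith
    have h4 : |a - (k : ℚ)| * |Ring.choose a k| ≤ ((k : ℚ) + 1) * 1 :=
      mul_le_mul h3 ih (abs_nonneg _) hk.le
    rw [← h2] at h4
    exact le_of_mul_le_mul_left h4 hk

lemma cc_eq (m n k : ℕ) : cc m n k = ∑ ij ∈ antidiagonal k, (n.choose ij.1 : ℚ) *
    Ring.choose (al m) ij.2 := by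
  rw [cc, Ring.add_choose_eq k (Commute.all _ _)]
  refine sum_congr rfl fun ij _ => ?_
  rw [Ring.choose_natCast]

lemma cc_le {m : ℕ} (hm : 2 ≤ m) (n k : ℕ) : |cc m n k| ≤ 2 ^ n := by
  rw [cc_eq]
  refine (abs_sum_le_sum_abs _ _).trans ?_
  calc ∑ ij ∈ antidiagonal k, |(n.choose ij.1 : ℚ) * Ring.choose (al m) ij.2|
      ≤ ∑ ij ∈ antidiagonal k, (n.choose ij.1 : ℚ) := by
        refine sum_le_sum fun ij _ => ?_
        rw [abs_mul, abs_of_nonneg (Nat.cast_nonneg _)]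
        exact mul_le_of_le_one_right (Nat.cast_nonneg _) (frac_le (al_pos hm).le (al_lt hm).le _)
    _ = ∑ i ∈ range (k + 1), (n.choose i : ℚ) := by
        rw [Nat.antidiagonal_eq_map, sum_map]
        rfl
    _ ≤ ∑ i ∈ range (max (k + 1) (n + 1)), (n.choose i : ℚ) :=
        sum_le_sum_of_subset_of_nonneg (range_subset_range.mpr (le_max_left _ _))
          fun _ _ _ => Nat.cast_nonneg _
    _ = ∑ i ∈ range (n + 1), (n.choose i : ℚ) := by
        symm
        refine sum_subset (range_subset_range.mpr (le_max_right _ _)) fun i _ hi => ?_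
        rw [mem_range, not_lt] at hi
        rw [Nat.choose_eq_zero_of_lt (by omega)]
        simp
    _ = 2 ^ n := by
        have := Nat.sum_range_choose n
        exact_mod_cast this

/-- the series `w ^ n (1 - X / w) ^ (n + 1 - 1 / m)` -/
noncomputable def Ps (m n : ℕ) (w : ℂ) : ℂ⟦X⟧ :=
  PowerSeries.mk fun j => (cc m n j : ℂ) * (-1) ^ j * w ^ n * w⁻¹ ^ j

lemma coeff_Ps (m n : ℕ) (w : ℂ) (j : ℕ) :
    coeff j (Ps m n w) = (cc m n j : ℂ) * (-1) ^ j * w ^ n * w⁻¹ ^ j := by rw [Ps, coeff_mk]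

lemma Ps_ode (m n : ℕ) {w : ℂ} (hw : w ≠ 0) :
    (C w - X) * d⁄dX ℂ (Ps m n w) = -C ((n : ℂ) + (al m : ℂ)) * Ps m n w := by
  have hc : ∀ j : ℕ, (((j : ℂ) + 1) * (cc m n (j + 1) : ℂ)) =
      ((n : ℂ) + (al m : ℂ) - j) * cc m n j := by
    intro j
    have := congrArg (fun q : ℚ => (q : ℂ)) (cc_succ m n j)
    push_cast at this
    exact this
  ext j
  rw [sub_mul, map_sub, coeff_C_mul, neg_mul, map_neg, coeff_C_mul]
  rcases j with _ | j
  · rw [coeff_zero_X_mul, coeff_derivative, coeff_Ps, coeff_Ps]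
    have h := hc 0
    push_cast at h ⊢
    have hw1 : w * w⁻¹ = 1 := mul_inv_cancel₀ hw
    linear_combination (-(w ^ n)) * h - (((cc m n (0 + 1) : ℚ) : ℂ)) * w ^ n * hw1
  · rw [coeff_succ_X_mul, coeff_derivative, coeff_derivative, coeff_Ps, coeff_Ps]
    have h := hc (j + 1)
    push_cast at h ⊢
    have e1 : w * (((cc m n (j + 1 + 1) : ℚ) : ℂ) * (-1) ^ (j + 1 + 1) * w ^ n *
        w⁻¹ ^ (j + 1 + 1) * ((j : ℂ) + 1 + 1)) =
        (((j : ℂ) + 1 + 1) * ((cc m n (j + 1 + 1) : ℚ) : ℂ)) *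
          ((-1) ^ (j + 1 + 1) * w ^ n * w⁻¹ ^ (j + 1)) := by
      rw [pow_succ w⁻¹ (j + 1)]
      field_simp
    rw [e1, h]
    ring

end Pool.Agent.U133.SE
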