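import Pool.Agent.U133.SE.Main

set_option autoImplicit false

/-!
# Explicit constants
-/

namespace Pool.Agent.U133.SE

open Finset Pool.Agent.U133.HP

open Pool.Agent.U133.GP (Rt mem_Rt card_Rt prod_Rt deriv_Rt sgr sgr_sq sgr_mul)

lemma two_mul_le_pow {d : ℕ} (hd : 3 ≤ d) : 2 * d ≤ 2 ^ d := by
  induction d, hd using Nat.le_induction with
  | base => norm_num
  | succ n hn ih => rw [pow_succ]; omega

lemma expK {d : ℕ} (hd : 3 ≤ d) : 2 * d + d * (d * d) ≤ 2 * d ^ 3 ∧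
    d * (2 * d) + d * (2 * d) + d ≤ 2 * d ^ 3 ∧ (d + 1) * d ≤ 2 * d ^ 3 ∧ d ≤ 2 * d ^ 3 := by
  obtain ⟨k, rfl⟩ : ∃ k, d = k + 3 := ⟨d - 3, by omega⟩
  refine ⟨?_, ?_, ?_, ?_⟩ <;> ring_nf <;> nlinarith [sq_nonneg k, pow_pos (show 0 < 3 by norm_num) 1, Nat.zero_le (k ^ 3), Nat.zero_le (k ^ 2), Nat.zero_le k]

/-- **The constants**, with an explicit exponent. -/
theorem constantsE {d : ℕ} (hd : 3 ≤ d) (H : ℕ) (f : Polynomial ℤ) (hH : 1 ≤ H)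
    (hfd : f.natDegree = d) (hs : (Polynomial.map (Int.castRingHom ℚ) f).Separable) (hf : f ≠ 0)
    (hfH : ∀ i, |f.coeff i| ≤ H) :
    4 ≤ (2 * (H : ℝ)) ^ (2 * d ^ 3) ∧ (d : ℝ) ≤ (2 * (H : ℝ)) ^ (2 * d ^ 3) ∧
    (1 + 2 * ((d : ℝ) * H)) ^ d ≤ (2 * (H : ℝ)) ^ (2 * d ^ 3) ∧
    |(f.leadingCoeff : ℝ)| ≤ (2 * (H : ℝ)) ^ (2 * d ^ 3) ∧
    (∀ θ ∈ Rt f, ‖θ‖ ≤ (d : ℝ) * H) ∧
    (∀ θ ∈ Rt f, ‖(GP.Wt (Rt f) θ)⁻¹‖ ≤ (2 * (H : ℝ)) ^ (2 * d ^ 3)) ∧
    |((Polynomial.resultant f (Polynomial.derivative f) f.natDegree (f.natDegree - 1) : ℤ) : ℝ)| *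
      |(f.leadingCoeff : ℝ)| ^ d ≤ (2 * (H : ℝ)) ^ (2 * d ^ 3) := by
  obtain ⟨hk1, hk2, hk3, hk4⟩ := expK hd
  have hH1 : (1 : ℝ) ≤ H := by exact_mod_cast hH
  have h2H : (1 : ℝ) ≤ 2 * H := by linarith
  have h2H2 : (2 : ℝ) ≤ 2 * H := by linarith
  have hmono : ∀ k, k ≤ 2 * d ^ 3 → (2 * (H : ℝ)) ^ k ≤ (2 * (H : ℝ)) ^ (2 * d ^ 3) :=
    fun k hk => pow_le_pow_right₀ h2H hk
  have hl : |(f.leadingCoeff : ℝ)| ≤ H := by
    have h' : ((|f.leadingCoeff| : ℤ) : ℝ) ≤ ((H : ℤ) : ℝ) := by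
      exact_mod_cast hfH f.natDegree
    rwa [Int.cast_abs, Int.cast_natCast] at h'
  have hroot : ∀ θ ∈ Rt f, ‖θ‖ ≤ (d : ℝ) * H := by
    intro θ hθ
    have := GP.root_bound hH1 (GP.eqn_Rt hs hf H hfH) hθ
    rwa [card_Rt hs, hfd] at this
  have hdR : (1 : ℝ) ≤ d := by exact_mod_cast (by omega : 1 ≤ d)
  have h2d : (2 : ℝ) * d ≤ 2 ^ d := by exact_mod_cast two_mul_le_pow hd
  -- `2 d H ≤ (2 H) ^ d`
  have hdH : 2 * ((d : ℝ) * H) ≤ (2 * (H : ℝ)) ^ d := by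
    rw [mul_pow]
    calc 2 * ((d : ℝ) * H) = (2 * d) * H := by ring
      _ ≤ 2 ^ d * (H : ℝ) ^ d := by
        refine mul_le_mul h2d ?_ (by linarith) (by positivity)
        calc (H : ℝ) = (H : ℝ) ^ 1 := (pow_one _).symm
          _ ≤ (H : ℝ) ^ d := pow_le_pow_right₀ hH1 (by omega)
  have hdH1 : 1 + 2 * ((d : ℝ) * H) ≤ (2 * (H : ℝ)) ^ (d + 1) := by
    have h1 : (1 : ℝ) ≤ (2 * (H : ℝ)) ^ d := one_le_pow₀ h2H
    rw [pow_succ]
    have h0 : 0 ≤ (2 * (H : ℝ)) ^ d := by positivity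
    nlinarith
  have hHle : (H : ℝ) ≤ (2 * (H : ℝ)) ^ 1 := by rw [pow_one]; linarith
  refine ⟨?_, ?_, ?_, ?_, hroot, ?_, ?_⟩
  · calc (4 : ℝ) = 2 ^ 2 := by norm_num
      _ ≤ (2 * (H : ℝ)) ^ 2 := pow_le_pow_left₀ (by norm_num) h2H2 2
      _ ≤ _ := hmono 2 (by omega)
  · refine le_trans ?_ (hmono d hk4)
    have : (d : ℝ) ≤ 2 * ((d : ℝ) * H) := by nlinarith
    exact this.trans hdH
  · calc (1 + 2 * ((d : ℝ) * H)) ^ d ≤ ((2 * (H : ℝ)) ^ (d + 1)) ^ d :=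
          pow_le_pow_left₀ (by positivity) hdH1 d
      _ = (2 * (H : ℝ)) ^ ((d + 1) * d) := (pow_mul _ _ _).symm
      _ ≤ _ := hmono _ hk3
  · exact hl.trans (hHle.trans (hmono _ (by omega)))
  · intro θ hθ
    have h7 := Wt_inv_bound hs hf (by omega) (ρ := (d : ℝ) * H) (h := H) (by nlinarith) hroot hH1
      hl hθ
    rw [hfd] at h7
    refine h7.trans (le_trans ?_ (hmono _ hk1))
    calc (H : ℝ) ^ (2 * d) * (2 * ((d : ℝ) * H)) ^ (d * d)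
        ≤ (2 * (H : ℝ)) ^ (2 * d) * ((2 * (H : ℝ)) ^ d) ^ (d * d) :=
          mul_le_mul (pow_le_pow_left₀ (by linarith) (by linarith) _)
            (pow_le_pow_left₀ (by positivity) hdH _) (by positivity) (by positivity)
      _ = _ := by rw [← pow_mul, ← pow_add]
  · have h8 := GP.res_bound f H hfH (by omega)
    have h9 : |((Polynomial.resultant f (Polynomial.derivative f) f.natDegree
        (f.natDegree - 1) : ℤ) : ℝ)| ≤ ((2 * d).factorial : ℝ) * ((d : ℝ) * (H + 1)) ^ (2 * d) := by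
      have h2 : ((|Polynomial.resultant f (Polynomial.derivative f) f.natDegree
          (f.natDegree - 1)| : ℤ) : ℝ) ≤
          ((((2 * f.natDegree).factorial : ℤ) *
            ((f.natDegree : ℤ) * (H + 1)) ^ (2 * f.natDegree) : ℤ) : ℝ) := by exact_mod_cast h8
      rw [Int.cast_abs] at h2
      push_cast at h2
      rw [hfd] at h2 ⊢
      push_cast
      exact h2
    have hfac : ((2 * d).factorial : ℝ) ≤ ((2 * (H : ℝ)) ^ d) ^ (2 * d) := by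
      have h1 : ((2 * d).factorial : ℝ) ≤ ((2 * d : ℕ) : ℝ) ^ (2 * d) := by
        exact_mod_cast Nat.factorial_le_pow (2 * d)
      refine h1.trans (pow_le_pow_left₀ (by positivity) ?_ _)
      push_cast
      refine le_trans ?_ hdH
      nlinarith
    have hdH' : (d : ℝ) * (H + 1) ≤ (2 * (H : ℝ)) ^ d := by
      refine le_trans ?_ hdH
      nlinarith
    calc |((Polynomial.resultant f (Polynomial.derivative f) f.natDegree
          (f.natDegree - 1) : ℤ) : ℝ)| * |(f.leadingCoeff : ℝ)| ^ d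
        ≤ (((2 * (H : ℝ)) ^ d) ^ (2 * d) * ((2 * (H : ℝ)) ^ d) ^ (2 * d)) *
          ((2 * (H : ℝ)) ^ 1) ^ d := by
          refine mul_le_mul (h9.trans (mul_le_mul hfac (pow_le_pow_left₀ (by positivity) hdH' _)
            (by positivity) (by positivity))) ?_ (by positivity) (by positivity)
          exact pow_le_pow_left₀ (abs_nonneg _) (hl.trans hHle) d
      _ = (2 * (H : ℝ)) ^ (d * (2 * d) + d * (2 * d) + d) := by
          rw [← pow_mul, ← pow_mul, ← pow_add, ← pow_add, one_mul]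
      _ ≤ _ := hmono _ hk2

/-- **The main theorem, with an explicit exponent.** -/
theorem mainE (m d : ℕ) (hm : 2 ≤ m) (hmd : 3 ≤ (m - 1) * (d - 2))
    (H : ℕ) (f : Polynomial ℤ) (hfd : f.natDegree = d)
    (hs : (Polynomial.map (Int.castRingHom ℚ) f).Separable)
    (hfH : ∀ i, |f.coeff i| ≤ H) (S : Finset ℤ)
    (hS : ∀ x ∈ S, (2 * (H : ℝ)) ^ (64 * m * d * (d ^ 3 + m)) ≤ |(x : ℝ)|)
    (hcl : ∀ x ∈ S, ∀ y ∈ S, PowerClass m f x y) : S.card ≤ 2 * m ^ (d - 1) := by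
  have hd3 : 3 ≤ d := by
    by_contra hcon
    push Not at hcon
    rw [show d - 2 = 0 by omega, mul_zero] at hmd
    omega
  have hf : f ≠ 0 := by rintro rfl; simp at hfd; omega
  have hH : 1 ≤ H := by
    have h1 := hfH f.natDegree
    have h2 := Int.one_le_abs (Polynomial.leadingCoeff_ne_zero.mpr hf)
    have h3 : (1 : ℤ) ≤ H := h2.trans h1
    exact_mod_cast h3
  have hH1 : (1 : ℝ) ≤ H := by exact_mod_cast hH
  have h2H : (1 : ℝ) ≤ 2 * H := by linarith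
  have h2H2 : (2 : ℝ) ≤ 2 * H := by linarith
  refine main_of m d hm hmd (2 * d ^ 3 + 2 * m) H f hfd hs hfH (fun hH hf => ?_) S
    (fun x hx => le_trans (pow_le_pow_right₀ h2H ?_) (hS x hx)) hcl
  · obtain ⟨hG4', hdG', hρG', hlG', hroot, hW', hE'⟩ := constantsE hd3 H f hH hfd hs hf hfH
    have hmono : (2 * (H : ℝ)) ^ (2 * d ^ 3) ≤ (2 * (H : ℝ)) ^ (2 * d ^ 3 + 2 * m) :=
      pow_le_pow_right₀ h2H (by omega)
    refine ⟨?_, hG4'.trans hmono, hdG'.trans hmono, hρG'.trans hmono, hlG'.trans hmono, hroot,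
      fun θ hθ => (hW' θ hθ).trans hmono, hE'.trans hmono⟩
    have h1 : (m : ℝ) ≤ 2 ^ m := by exact_mod_cast (Nat.lt_two_pow_self (n := m)).le
    calc (m : ℝ) ^ 2 ≤ (2 ^ m) ^ 2 := pow_le_pow_left₀ (by positivity) h1 2
      _ = 2 ^ (2 * m) := by rw [← pow_mul]; congr 1; ring
      _ ≤ (2 * (H : ℝ)) ^ (2 * m) := pow_le_pow_left₀ (by norm_num) h2H2 _
      _ ≤ _ := pow_le_pow_right₀ h2H (by omega)
  · have hP : m * 3 ≤ m * d := Nat.mul_le_mul_left m hd3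
    have hA : 1 ≤ d ^ 3 + m := by omega
    have e1 : (2 * d ^ 3 + 2 * m) * (2 * (m * (4 * d + 33) + 1)) + (2 * d ^ 3 + 2 * m) + 5 =
        (d ^ 3 + m) * (16 * (m * d) + 132 * m + 6) + 5 := by ring
    have e2 : 64 * m * d * (d ^ 3 + m) = (d ^ 3 + m) * (64 * (m * d)) := by ring
    rw [e1, e2]
    generalize d ^ 3 + m = A at *
    have h1 : 16 * (m * d) + 132 * m + 6 + 5 ≤ 64 * (m * d) := by omega
    calc A * (16 * (m * d) + 132 * m + 6) + 5 ≤ A * (16 * (m * d) + 132 * m + 6) + A * 5 := by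
          omega
      _ = A * (16 * (m * d) + 132 * m + 6 + 5) := by ring
      _ ≤ _ := Nat.mul_le_mul_left A h1

end Pool.Agent.U133.SE
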