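import Pool.Agent.U133.SE.Main

set_option autoImplicit false

/-!
# Genus one: at most two integers with the same code
-/

namespace Pool.Agent.U133.SE

open Finset Pool.Agent.U133.HP

open Pool.Agent.U133.GP (Rt mem_Rt card_Rt prod_Rt deriv_Rt sgr sgr_sq sgr_mul Wt)

/-- **Two integers at a small distance.** -/
theorem contra1' {m : ℕ} (hm : 2 ≤ m) {f : Polynomial ℤ} (hf : f ≠ 0)
    (hs : (Polynomial.map (Int.castRingHom ℚ) f).Separable) (hd : 3 ≤ f.natDegree)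
    (H : ℕ) (hH : 1 ≤ H)
    (hfH : ∀ i, |f.coeff i| ≤ H)
    {G : ℝ} (hG4 : 4 ≤ G) (hmG : (m : ℝ) ^ 2 ≤ G)
    (hlG : |(f.leadingCoeff : ℝ)| ≤ G)
    (hE : |((Polynomial.resultant f (Polynomial.derivative f) f.natDegree
      (f.natDegree - 1) : ℤ) : ℝ)| * |(f.leadingCoeff : ℝ)| ^ f.natDegree ≤ G)
    (x y : ℤ) (σ a b : ℝ) (hσ : σ ^ 2 = 1) (hx : (x : ℝ) = σ * a) (hy : (y : ℝ) = σ * b)
    (ha1 : 1 ≤ a) (hab : a < b) (hb4 : b ^ 4 ≤ a ^ 11) (h6 : 6 * f.natDegree * H * (1 / a) ≤ 1)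
    (ha : G ^ (8 * (m * (4 * f.natDegree + 33) + 1)) ≤ a)
    (hrat : ∀ P : Polynomial ℚ, ∃ q : ℚ,
      (∑ θ ∈ Rt f, vv m x θ * ww m y θ * Polynomial.aeval θ P) ^ m = (q : ℂ)) : False := by
  set d := f.natDegree with hdd
  have hcard : (Rt f).card = d := card_Rt hs
  have hG1 : 1 ≤ G := by linarith
  have hG0 : 0 < G := by linarith
  have ha0 : 0 < a := by linarith
  have hb0 : 0 < b := by linarith
  have hH1 : (1 : ℝ) ≤ H := by exact_mod_cast hH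
  have hER := GP.eqn_Rt hs hf H hfH
  have hσa : |σ| = 1 := (pow_eq_one_iff_of_nonneg (abs_nonneg σ) two_ne_zero).mp
    (by rw [sq_abs, hσ])
  have hσn : ‖(σ : ℂ)‖ = 1 := by rw [Complex.norm_real, Real.norm_eq_abs, hσa]
  have hxa : |(x : ℝ)| = a := by rw [hx, abs_mul, hσa, one_mul, abs_of_pos ha0]
  have hyb : |(y : ℝ)| = b := by rw [hy, abs_mul, hσa, one_mul, abs_of_pos hb0]
  have hxn : ‖(x : ℂ)‖ = a := by rw [Complex.norm_intCast]; exact hxa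
  have hyn : ‖(y : ℂ)‖ = b := by rw [Complex.norm_intCast]; exact hyb
  have hx0 : (x : ℂ) ≠ 0 := by
    rw [← norm_pos_iff, hxn]; exact ha0
  have hy0 : (y : ℂ) ≠ 0 := by
    rw [← norm_pos_iff, hyn]; exact hb0
  have hdR : (3 : ℝ) ≤ d := by exact_mod_cast hd
  have hxne : ∀ θ ∈ Rt f, (x : ℂ) ≠ θ := by
    intro θ hθ e
    have h1 := GP.root_bound hH1 hER hθ
    rw [← e, hxn, hcard] at h1
    rw [mul_one_div, div_le_one ha0] at h6
    have : 0 < (d : ℝ) * H := by positivity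
    linarith
  have hσC : (σ : ℂ) ^ 2 = 1 := by exact_mod_cast hσ
  have haC : (a : ℂ) ≠ 0 := by exact_mod_cast ha0.ne'
  have hbC : (b : ℂ) ≠ 0 := by exact_mod_cast hb0.ne'
  have hσ0 : (σ : ℂ) ≠ 0 := by
    intro h; rw [h] at hσC; norm_num at hσC
  have hxC : (x : ℂ) = σ * a := by exact_mod_cast hx
  have hyC : (y : ℂ) = σ * b := by exact_mod_cast hy
  have e1 : ∀ θ : ℂ, θ / x = ((1 / a : ℝ) : ℂ) * (σ * θ) := by
    intro θ
    rw [hxC]
    push_cast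
    field_simp
    rw [hσC, mul_one]
  have e2 : ∀ θ : ℂ, θ / y = ((1 / b : ℝ) : ℂ) * (σ * θ) := by
    intro θ
    rw [hyC]
    push_cast
    field_simp
    rw [hσC, mul_one]
  have hv : 0 < 1 / b := by positivity
  have huv : 1 / b < 1 / a := one_div_lt_one_div_of_lt ha0 hab
  obtain ⟨hT0, hTle⟩ := first hm (Rt f) (by rw [hcard]; exact hd) hH1 hER (σ : ℂ) hσn (1 / a)
    (1 / b) hv huv (by rw [hcard]; exact h6)
  have hTeq : ∑ θ ∈ Rt f, vv m x θ * ww m y θ * Ph m (Rt f) 0 x 0 θ =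
      ∑ θ ∈ Rt f, (1 - ((1 / a : ℝ) : ℂ) * (σ * θ)) ^ (al m : ℂ) *
        (1 - ((1 / b : ℝ) : ℂ) * (σ * θ)) ^ ((m : ℂ)⁻¹) / Wt (Rt f) θ := by
    refine sum_congr rfl fun θ _ => ?_
    have hPh : Ph m (Rt f) 0 x 0 θ = (Wt (Rt f) θ)⁻¹ := by
      rw [Ph, pow_zero, map_one (tay θ), one_mul, zero_add, pow_one,
        PowerSeries.coeff_zero_eq_constantCoeff_apply, map_mul, PowerSeries.constantCoeff_inv,
        qs_zero, ← PowerSeries.coeff_zero_eq_constantCoeff_apply, coeff_Ps, cc_zero]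
      simp
    rw [hPh, vv, ww, e1, e2]
    exact (div_eq_mul_inv _ _).symm
  rw [← hTeq] at hT0 hTle
  rw [hcard] at hTle
  apply hT0
  refine form_zero hm hf hs (by omega) hG1 hmG hlG hE x y hx0 hy0 0 0 (by omega) hxne hrat ?_
  rw [hxa, hyb]
  set T := ∑ θ ∈ Rt f, vv m x θ * ww m y θ * Ph m (Rt f) 0 x 0 θ with hT
  have hmd4 : 4 * m + 8 ≤ 4 * (m * (d - 1)) := by
    obtain ⟨e, he⟩ : ∃ e, d = e + 3 := ⟨d - 3, by omega⟩
    rw [he, show e + 3 - 1 = e + 2 by omega]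
    nlinarith
  have ht : ‖T‖ * a ^ (d - 1) ≤ 2 ^ d := by
    calc ‖T‖ * a ^ (d - 1) ≤ (2 ^ d * (1 / a) ^ (d - 1)) * a ^ (d - 1) :=
          mul_le_mul_of_nonneg_right hTle (by positivity)
      _ = 2 ^ d * ((1 / a) * a) ^ (d - 1) := by rw [mul_pow (1 / a) a]; ring
      _ = _ := by rw [one_div, inv_mul_cancel₀ ha0.ne', one_pow, mul_one]
  set Y := (G ^ ((d + 6) * (0 + 1))) ^ m * (a ^ (m - 1) * b) * ‖T‖ ^ m with hY
  have hY0 : 0 ≤ Y := by positivity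
  have h1 : Y * a ^ (m * (d - 1)) ≤ G ^ (m * (2 * d + 6)) * (a ^ (m - 1) * b) := by
    calc Y * a ^ (m * (d - 1)) = (G ^ ((d + 6) * (0 + 1))) ^ m * (a ^ (m - 1) * b) *
          (‖T‖ * a ^ (d - 1)) ^ m := by
          rw [hY, mul_pow ‖T‖, ← pow_mul a (d - 1) m, mul_comm (d - 1) m]; ring
      _ ≤ (G ^ ((d + 6) * (0 + 1))) ^ m * (a ^ (m - 1) * b) * (2 ^ d) ^ m := by gcongr
      _ ≤ (G ^ ((d + 6) * (0 + 1))) ^ m * (a ^ (m - 1) * b) * (G ^ d) ^ m := by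
          have : (2 : ℝ) ≤ G := by linarith
          gcongr
      _ = G ^ (m * (2 * d + 6)) * (a ^ (m - 1) * b) := by
          rw [← pow_mul, ← pow_mul]
          rw [show m * (2 * d + 6) = (d + 6) * (0 + 1) * m + d * m by ring, pow_add]
          ring
  have h1' : Y ^ 4 * a ^ (4 * (m * (d - 1))) ≤ G ^ (4 * (m * (2 * d + 6))) * a ^ (4 * m + 7) := by
    calc Y ^ 4 * a ^ (4 * (m * (d - 1))) = (Y * a ^ (m * (d - 1))) ^ 4 := by
          rw [mul_pow Y, ← pow_mul a, mul_comm (m * (d - 1)) 4]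
      _ ≤ (G ^ (m * (2 * d + 6)) * (a ^ (m - 1) * b)) ^ 4 :=
          pow_le_pow_left₀ (by positivity) h1 4
      _ = G ^ (4 * (m * (2 * d + 6))) * (a ^ (4 * (m - 1)) * b ^ 4) := by
          rw [mul_pow, mul_pow, ← pow_mul, ← pow_mul, mul_comm (m * (2 * d + 6)) 4,
            mul_comm (m - 1) 4]
      _ ≤ G ^ (4 * (m * (2 * d + 6))) * (a ^ (4 * (m - 1)) * a ^ 11) := by gcongr
      _ = _ := by
          rw [← pow_add]; congr 2; omega
  have h2 : Y ^ 4 * a ≤ G ^ (4 * (m * (2 * d + 6))) := by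
    have h3 : a * a ^ (4 * m + 7) ≤ a ^ (4 * (m * (d - 1))) := by
      rw [← pow_succ']
      exact pow_le_pow_right₀ ha1 (by omega)
    have h4 : Y ^ 4 * a * a ^ (4 * m + 7) ≤ G ^ (4 * (m * (2 * d + 6))) * a ^ (4 * m + 7) := by
      refine le_trans ?_ h1'
      rw [mul_assoc]
      exact mul_le_mul_of_nonneg_left h3 (by positivity)
    exact le_of_mul_le_mul_right h4 (by positivity)
  have h5 : G ^ (4 * (m * (2 * d + 6))) < a := by
    refine lt_of_lt_of_le ?_ ha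
    refine pow_lt_pow_right₀ (by linarith) ?_
    nlinarith
  by_contra hcon
  push Not at hcon
  have h6' : a ≤ Y ^ 4 * a := le_mul_of_one_le_left ha0.le (one_le_pow₀ hcon)
  linarith

lemma t_small' {G a t : ℝ} {n K p : ℕ} (hp : 1 ≤ p) (hG : 1 ≤ G) (ht0 : 0 ≤ t)
    (ht : t ^ p * a ^ n ≤ 1) (ha : G ^ (p * K) ≤ a) : t * G ^ (K * n) ≤ 1 := by
  have hG0 : 0 < G := by linarith
  have h1 : (t * G ^ (K * n)) ^ p ≤ 1 := by
    calc (t * G ^ (K * n)) ^ p = t ^ p * (G ^ (p * K)) ^ n := by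
          rw [mul_pow, ← pow_mul, ← pow_mul]; congr 2; ring
      _ ≤ t ^ p * a ^ n :=
          mul_le_mul_of_nonneg_left (pow_le_pow_left₀ (by positivity) ha n) (by positivity)
      _ ≤ 1 := ht
  have h0 : 0 ≤ t * G ^ (K * n) := by positivity
  by_contra hcon
  push Not at hcon
  have := one_lt_pow₀ hcon (by omega : p ≠ 0)
  linarith

lemma order_arith' (m d μ : ℕ) (hm : 2 ≤ m) (hd : 3 ≤ d) (hμ : 60 ≤ μ) :
    ∃ n : ℕ, 1 ≤ n ∧ 8 * (m - 1) + (μ + 1) + 8 * (m * n) + n ≤ 8 * (m * (d * n)) ∧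
      8 * (m - 1) + 8 * (m * n) + n ≤ (m - 1) * μ := by
  obtain ⟨k, rfl⟩ : ∃ k, m = k + 2 := ⟨m - 2, by omega⟩
  set n := (μ - 8) / 17 with hn
  have hn3 : 3 ≤ n := by omega
  have hkn : k * 3 ≤ k * n := Nat.mul_le_mul_left k hn3
  refine ⟨n, by omega, ?_, ?_⟩
  · have h3 : (k + 2) * (3 * n) ≤ (k + 2) * (d * n) :=
      Nat.mul_le_mul_left _ (Nat.mul_le_mul_right _ hd)
    have h4 : (k + 2) * (3 * n) = 3 * (k * n) + 6 * n := by ring
    have h5 : (k + 2) * n = k * n + 2 * n := by ring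
    rw [h5]
    rw [h4] at h3
    omega
  · have h3 : (k + 2 - 1) * (17 * n + 8) ≤ (k + 2 - 1) * μ := Nat.mul_le_mul_left _ (by omega)
    have h4 : (k + 2 - 1) * (17 * n + 8) = 17 * (k * n) + 8 * k + 17 * n + 8 := by
      rw [show k + 2 - 1 = k + 1 by omega]; ring
    have h5 : (k + 2) * n = k * n + 2 * n := by ring
    rw [h5]
    rw [h4] at h3
    omega

/-- the choice of the order -/
lemma order' {m d : ℕ} (hm : 2 ≤ m) (hd : 3 ≤ d) {a b : ℝ} (ha : 2 ≤ a) (hb1 : 1 ≤ b)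
    (hb : a ^ 121 ≤ b ^ 16) : ∃ n : ℕ, 1 ≤ n ∧
    (a ^ (m - 1) * b * (a ^ n / a ^ (d * n)) ^ m) ^ 8 * a ^ n ≤ 1 ∧
    (a ^ (m - 1) * b * (a ^ n / b) ^ m) ^ 8 * a ^ n ≤ 1 := by
  have ha1 : 1 < a := by linarith
  have ha0 : 0 < a := by linarith
  have hb0 : 0 < b := by linarith
  have hb8 : 1 ≤ b ^ 8 := one_le_pow₀ hb1
  obtain ⟨μ, hm1, hm2⟩ := exists_nat_pow_near hb8 ha1
  have hm4 : 60 ≤ μ := by
    by_contra hcon
    push Not at hcon
    have h1 : a ^ (μ + 1) ≤ a ^ 60 := pow_le_pow_right₀ ha1.le (by omega)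
    have h2 : b ^ 8 < a ^ 60 := lt_of_lt_of_le hm2 h1
    have h3 : b ^ 16 < a ^ 120 := by
      calc b ^ 16 = (b ^ 8) ^ 2 := by rw [← pow_mul]
        _ < (a ^ 60) ^ 2 := pow_lt_pow_left₀ h2 (by positivity) (by norm_num)
        _ = a ^ 120 := by rw [← pow_mul]
    have h4 : a ^ 120 ≤ a ^ 121 := pow_le_pow_right₀ ha1.le (by norm_num)
    linarith
  obtain ⟨n, hn, h1, h2⟩ := order_arith' m d μ hm hd hm4
  refine ⟨n, hn, ?_, ?_⟩
  · have e : a ^ (m - 1) * b * (a ^ n / a ^ (d * n)) ^ m =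
        (a ^ (m - 1) * b * a ^ (m * n)) / a ^ (m * (d * n)) := by
      rw [div_pow, ← pow_mul, ← pow_mul, mul_comm n m, mul_comm (d * n) m]; ring
    rw [e, div_pow, div_mul_eq_mul_div, div_le_one (by positivity)]
    calc (a ^ (m - 1) * b * a ^ (m * n)) ^ 8 * a ^ n
        = a ^ (8 * (m - 1)) * b ^ 8 * a ^ (8 * (m * n)) * a ^ n := by
          rw [mul_pow, mul_pow, ← pow_mul, ← pow_mul, mul_comm (m - 1) 8, mul_comm (m * n) 8]
      _ ≤ a ^ (8 * (m - 1)) * a ^ (μ + 1) * a ^ (8 * (m * n)) * a ^ n := by gcongr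
      _ = a ^ (8 * (m - 1) + (μ + 1) + 8 * (m * n) + n) := by
          rw [← pow_add, ← pow_add, ← pow_add]
      _ ≤ a ^ (8 * (m * (d * n))) := pow_le_pow_right₀ ha1.le h1
      _ = _ := by rw [← pow_mul, mul_comm 8]
  · have e : a ^ (m - 1) * b * (a ^ n / b) ^ m = (a ^ (m - 1) * a ^ (m * n)) / b ^ (m - 1) := by
      have e1 : b ^ m = b ^ (m - 1) * b := by rw [← pow_succ]; congr 1; omega
      rw [div_pow, ← pow_mul, mul_comm n m, e1]
      field_simp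
    rw [e, div_pow, div_mul_eq_mul_div, div_le_one (by positivity)]
    calc (a ^ (m - 1) * a ^ (m * n)) ^ 8 * a ^ n = a ^ (8 * (m - 1) + 8 * (m * n) + n) := by
          rw [← pow_add, ← pow_mul, ← pow_add]; congr 1; ring
      _ ≤ a ^ ((m - 1) * μ) := pow_le_pow_right₀ ha1.le h2
      _ = (a ^ μ) ^ (m - 1) := by rw [← pow_mul, mul_comm μ]
      _ ≤ (b ^ 8) ^ (m - 1) := by gcongr
      _ = (b ^ (m - 1)) ^ 8 := by rw [← pow_mul, ← pow_mul, mul_comm 8]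

/-- the argument for three integers with the same code -/
theorem triple {m d : ℕ} (hm : 2 ≤ m) (hd3 : 3 ≤ d) (H : ℕ) (hH : 1 ≤ H)
    {f : Polynomial ℤ} (hf : f ≠ 0) (hfd : f.natDegree = d)
    (hs : (Polynomial.map (Int.castRingHom ℚ) f).Separable) (hfH : ∀ i, |f.coeff i| ≤ H)
    {G : ℝ} (hG4 : 4 ≤ G) (hmG : (m : ℝ) ^ 2 ≤ G) (hdG : (d : ℝ) ≤ G)
    (hρG : (1 + 2 * ((d : ℝ) * H)) ^ d ≤ G) (hlG : |(f.leadingCoeff : ℝ)| ≤ G)
    (hroot : ∀ θ ∈ Rt f, ‖θ‖ ≤ (d : ℝ) * H)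
    (hW : ∀ θ ∈ Rt f, ‖(GP.Wt (Rt f) θ)⁻¹‖ ≤ G)
    (hE : |((Polynomial.resultant f (Polynomial.derivative f) f.natDegree
      (f.natDegree - 1) : ℤ) : ℝ)| * |(f.leadingCoeff : ℝ)| ^ d ≤ G)
    (x y z : ℤ) (hxy : |(x : ℝ)| < |(y : ℝ)|) (hyz : |(y : ℝ)| < |(z : ℝ)|)
    (hsgr : sgr y = sgr x) (hsgr' : sgr z = sgr y)
    (haρ : 6 * ((d : ℝ) * H) ≤ |(x : ℝ)|)
    (ha : G ^ (8 * (m * (4 * d + 33) + 1)) ≤ |(x : ℝ)|)
    (h12 : ∀ P : Polynomial ℚ, ∃ q : ℚ,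
      (∑ θ ∈ Rt f, vv m x θ * ww m y θ * Polynomial.aeval θ P) ^ m = (q : ℂ))
    (h23 : ∀ P : Polynomial ℚ, ∃ q : ℚ,
      (∑ θ ∈ Rt f, vv m y θ * ww m z θ * Polynomial.aeval θ P) ^ m = (q : ℂ))
    (h13 : ∀ P : Polynomial ℚ, ∃ q : ℚ,
      (∑ θ ∈ Rt f, vv m x θ * ww m z θ * Polynomial.aeval θ P) ^ m = (q : ℂ)) : False := by
  have hH1 : (1 : ℝ) ≤ H := by exact_mod_cast hH
  have hdR : (3 : ℝ) ≤ d := by exact_mod_cast hd3
  have hG1 : 1 ≤ G := by linarith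
  have hdH : 1 ≤ (d : ℝ) * H := by
    calc (1 : ℝ) = 1 * 1 := by ring
      _ ≤ (d : ℝ) * H := mul_le_mul (by linarith) hH1 (by norm_num) (by linarith)
  have ha6 : 6 ≤ |(x : ℝ)| := by linarith
  have hxz := hxy.trans hyz
  have c1 : ∀ u v : ℤ, |(x : ℝ)| ≤ |(u : ℝ)| → |(u : ℝ)| < |(v : ℝ)| → sgr v = sgr u →
      (∀ P : Polynomial ℚ, ∃ q : ℚ,
        (∑ θ ∈ Rt f, vv m u θ * ww m v θ * Polynomial.aeval θ P) ^ m = (q : ℂ)) →
      |(u : ℝ)| ^ 11 < |(v : ℝ)| ^ 4 := by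
    intro u v hu huv hsg hr
    by_contra hcon
    push Not at hcon
    refine contra1' hm hf hs (by omega) H hH hfH hG4 hmG hlG
      (by rw [hfd] at hE ⊢; exact hE) u v (sgr u) |(u : ℝ)| |(v : ℝ)| (sgr_sq u)
      (sgr_mul u) (by rw [← hsg]; exact sgr_mul v) (by linarith) huv hcon ?_
      (by rw [hfd]; linarith) hr
    rw [hfd, mul_one_div, div_le_one (by linarith)]
    linarith
  have e12 := c1 x y le_rfl hxy hsgr h12
  have e23 := c1 y z hxy.le hyz hsgr' h23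
  have e13 : |(x : ℝ)| ^ 121 ≤ |(z : ℝ)| ^ 16 := by
    have hx0 : 0 ≤ |(x : ℝ)| := abs_nonneg _
    have hy0 : 0 ≤ |(y : ℝ)| := abs_nonneg _
    calc |(x : ℝ)| ^ 121 = (|(x : ℝ)| ^ 11) ^ 11 := by rw [← pow_mul]
      _ ≤ (|(y : ℝ)| ^ 4) ^ 11 := pow_le_pow_left₀ (by positivity) e12.le 11
      _ = (|(y : ℝ)| ^ 11) ^ 4 := by rw [← pow_mul, ← pow_mul]
      _ ≤ (|(z : ℝ)| ^ 4) ^ 4 := pow_le_pow_left₀ (by positivity) e23.le 4
      _ = |(z : ℝ)| ^ 16 := by rw [← pow_mul]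
  obtain ⟨n, hn, ht1, ht2⟩ := order' hm hd3 (by linarith : (2 : ℝ) ≤ |(x : ℝ)|)
    (by linarith : (1 : ℝ) ≤ |(z : ℝ)|) e13
  refine contra_core hm hf hs (by omega) hG4 hmG (by rw [hfd]; exact hdG)
    (by linarith : 1 / 2 ≤ (d : ℝ) * H) (by rw [hfd]; exact hρG)
    hlG hroot hW (by rw [hfd] at hE ⊢; exact hE) x z rfl rfl n hn (by linarith)
    hxz.le ?_ ?_ h13
  · rw [hfd]
    exact t_small' (by norm_num : 1 ≤ 8) hG1 (by positivity) ht1 ha
  · rw [hfd]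
    exact t_small' (by norm_num : 1 ≤ 8) hG1 (by positivity) ht2 ha

/-- **The theorem for genus one and more.** -/
theorem main3 (m d : ℕ) (hm : 2 ≤ m) (hd3 : 3 ≤ d) : ∃ M : ℕ,
    ∀ (H : ℕ) (f : Polynomial ℤ), f.natDegree = d →
    (Polynomial.map (Int.castRingHom ℚ) f).Separable →
    (∀ i, |f.coeff i| ≤ H) → ∀ S : Finset ℤ,
      (∀ x ∈ S, (2 * (H : ℝ)) ^ M ≤ |(x : ℝ)|) →
      (∀ x ∈ S, ∀ y ∈ S, PowerClass m f x y) → S.card ≤ 4 * m ^ (d - 1) := by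
  obtain ⟨K₀, hK₀⟩ := constants d (by omega)
  obtain ⟨K₁, hK₁⟩ := PB.const (m ^ 2)
  set K := K₀ + K₁ with hK
  refine ⟨K * (8 * (m * (4 * d + 33) + 1)) + K + 5, fun H f hfd hs hfH S hS hcl => ?_⟩
  classical
  have hf : f ≠ 0 := by rintro rfl; simp at hfd; omega
  have hH : 1 ≤ H := by
    have h1 := hfH f.natDegree
    have h2 := Int.one_le_abs (Polynomial.leadingCoeff_ne_zero.mpr hf)
    have h3 : (1 : ℤ) ≤ H := h2.trans h1
    exact_mod_cast h3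
  have hH1 : (1 : ℝ) ≤ H := by exact_mod_cast hH
  have h2H : (1 : ℝ) ≤ 2 * H := by linarith
  have h2H2 : (2 : ℝ) ≤ 2 * H := by linarith
  set X₀ : ℝ := (2 * (H : ℝ)) ^ (K * (8 * (m * (4 * d + 33) + 1)) + K + 5) with hX₀
  obtain ⟨hG4', hdG', hρG', hlG', hroot, hW', hE'⟩ := hK₀ H f hH hfd hs hf hfH
  have hmono : (2 * (H : ℝ)) ^ K₀ ≤ (2 * (H : ℝ)) ^ K := pow_le_pow_right₀ h2H (by omega)
  set G : ℝ := (2 * (H : ℝ)) ^ K with hG
  have hG4 : 4 ≤ G := hG4'.trans hmono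
  have hdG : (d : ℝ) ≤ G := hdG'.trans hmono
  have hρG : (1 + 2 * ((d : ℝ) * H)) ^ d ≤ G := hρG'.trans hmono
  have hlG : |(f.leadingCoeff : ℝ)| ≤ G := hlG'.trans hmono
  have hW : ∀ θ ∈ Rt f, ‖(GP.Wt (Rt f) θ)⁻¹‖ ≤ G := fun θ hθ => (hW' θ hθ).trans hmono
  have hE := hE'.trans hmono
  have hmG : (m : ℝ) ^ 2 ≤ G := by
    have := (hK₁ H hH).2
    push_cast at this
    exact this.trans (pow_le_pow_right₀ h2H (by omega))
  have hdR : (3 : ℝ) ≤ d := by exact_mod_cast hd3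
  have hdH : 1 ≤ (d : ℝ) * H := by
    calc (1 : ℝ) = 1 * 1 := by ring
      _ ≤ (d : ℝ) * H := mul_le_mul (by linarith) hH1 (by norm_num) (by linarith)
  have hX₀K : G ^ (8 * (m * (4 * d + 33) + 1)) ≤ X₀ := by
    rw [hG, ← pow_mul]
    exact pow_le_pow_right₀ h2H (by omega)
  have hX₀ρ : 6 * ((d : ℝ) * H) ≤ X₀ := by
    have h1 : 1 + 2 * ((d : ℝ) * H) ≤ G := by
      refine le_trans ?_ hρG
      have := pow_le_pow_right₀ (a := 1 + 2 * ((d : ℝ) * H)) (by linarith) (by omega : 1 ≤ d)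
      rwa [pow_one] at this
    have h2 : G * 2 ^ 5 ≤ X₀ := by
      calc G * 2 ^ 5 ≤ (2 * (H : ℝ)) ^ K * (2 * (H : ℝ)) ^ 5 :=
            mul_le_mul_of_nonneg_left (pow_le_pow_left₀ (by norm_num) h2H2 5) (by positivity)
        _ = (2 * (H : ℝ)) ^ (K + 5) := (pow_add _ _ _).symm
        _ ≤ _ := pow_le_pow_right₀ h2H (by omega)
    linarith
  have hbig : ∀ x ∈ S, ∀ θ ∈ Rt f, ‖θ‖ < |(x : ℝ)| := by
    intro x hx θ hθ
    have h1 := hS x hx
    have h2 := hroot θ hθ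
    linarith
  have hSne : ∀ x ∈ S, (x : ℤ) ≠ 0 := by
    rintro x hx rfl
    have h1 := hS 0 hx
    simp at h1
    linarith
  by_contra hcon
  push Not at hcon
  obtain ⟨x₀, hx₀⟩ : S.Nonempty := card_pos.mp ((Nat.zero_le _).trans_lt hcon)
  have hx₀' : f.eval x₀ ≠ 0 := by
    intro h0
    have h1 : (x₀ : ℂ) ∈ Rt f := by
      rw [mem_Rt hf]
      have : Polynomial.aeval ((x₀ : ℤ) : ℂ) f = ((f.eval x₀ : ℤ) : ℂ) := by
        rw [Polynomial.aeval_def]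
        have := Polynomial.eval₂_at_intCast (Int.castRingHom ℂ) (p := f) x₀
        simpa using this
      rw [this, h0]; simp
    have h2 := hbig x₀ hx₀ _ h1
    rw [Complex.norm_intCast] at h2
    exact lt_irrefl _ h2
  choose! b hb B hB using fun x hx => hcl x₀ hx₀ x hx
  obtain ⟨θs, hθs⟩ : (Rt f).Nonempty := card_pos.mp (by rw [card_Rt hs]; omega)
  have hcard : (Rt f).card = d := by rw [card_Rt hs, hfd]
  have hx₀C : (x₀ : ℂ) ≠ 0 := by exact_mod_cast hSne x₀ hx₀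
  have hfac : ∀ x ∈ S, ∀ θ : ℂ, (x : ℂ) - θ = x * (1 - θ / x) := by
    intro x hx θ
    have : (x : ℂ) ≠ 0 := by exact_mod_cast hSne x hx
    field_simp
  have hone : ∀ x ∈ S, ∀ θ ∈ Rt f, 1 - θ / (x : ℂ) ≠ 0 := by
    intro x hx θ hθ
    apply one_sub_ne
    rw [Complex.norm_intCast]
    exact hbig x hx θ hθ
  have hvne : ∀ x ∈ S, ∀ θ ∈ Rt f, vv m x θ ≠ 0 := by
    intro x hx θ hθ h0
    have h2 := vv_pow hm (x := (x : ℂ)) (θ := θ)
    rw [h0, zero_pow (by omega)] at h2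
    exact pow_ne_zero _ (hone x hx θ hθ) h2.symm
  have hwne : ∀ x ∈ S, ∀ θ ∈ Rt f, ww m x θ ≠ 0 := by
    intro x hx θ hθ h0
    have h2 := ww_pow hm (x := (x : ℂ)) (θ := θ)
    rw [h0, zero_pow (by omega)] at h2
    exact hone x hx θ hθ h2.symm
  set q : ℤ → ℂ → ℂ := fun x θ => Polynomial.aeval θ (B x) / (vv m x₀ θ * ww m x θ) with hq
  have hqm : ∀ x ∈ S, ∀ θ ∈ Rt f, q x θ ^ m = b x * ((x₀ : ℂ) ^ (m - 1) * x) := by
    intro x hx θ hθ
    have h1 := PowerClass.eval hf (hB x hx) hθ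
    simp only [hq]
    rw [div_pow, h1, mul_pow, vv_pow hm, ww_pow hm, div_eq_iff (mul_ne_zero
      (pow_ne_zero _ (hone x₀ hx₀ θ hθ)) (hone x hx θ hθ)), hfac x hx θ, hfac x₀ hx₀ θ, mul_pow]
    ring
  have hq0 : ∀ x ∈ S, ∀ θ ∈ Rt f, q x θ ≠ 0 := by
    intro x hx θ hθ h0
    have h1 := hqm x hx θ hθ
    rw [h0, zero_pow (by omega)] at h1
    have h2 : (x : ℂ) ≠ 0 := by exact_mod_cast hSne x hx
    have h3 : ((b x : ℚ) : ℂ) ≠ 0 := by exact_mod_cast hb x hx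
    exact mul_ne_zero h3 (mul_ne_zero (pow_ne_zero _ hx₀C) h2) h1.symm
  set U := Polynomial.nthRootsFinset m (1 : ℂ) with hU
  set code : ℤ → Bool × ({θ : ℂ // θ ∈ (Rt f).erase θs} → ℂ) := fun x => (decide (0 < x),
    fun θ => q x θ / q x θs) with hcode
  set tt : Finset (Bool × ({θ : ℂ // θ ∈ (Rt f).erase θs} → ℂ)) := (univ : Finset Bool) ×ˢ
      Fintype.piFinset (fun _ : {θ : ℂ // θ ∈ (Rt f).erase θs} => U) with htt
  have htcard : tt.card ≤ 2 * m ^ (d - 1) := by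
    rw [htt, card_product, Fintype.card_piFinset, prod_const, card_univ, Fintype.card_bool,
        card_univ, Fintype.card_coe, card_erase_of_mem hθs, hcard]
    exact Nat.mul_le_mul_left 2 (Nat.pow_le_pow_left (card_roots_unity m) _)
  have hmaps : ∀ x ∈ S, code x ∈ tt := by
    intro x hx
    rw [htt, mem_product]
    refine ⟨mem_univ _, ?_⟩
    rw [Fintype.mem_piFinset]
    intro θ
    have hθ := (mem_erase.mp θ.2).2
    simp only [hcode]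
    rw [hU, Polynomial.mem_nthRootsFinset (by omega), div_pow, hqm x hx _ hθ,
      hqm x hx _ hθs, div_self]
    rw [← hqm x hx _ hθs]
    exact pow_ne_zero _ (hq0 x hx _ hθs)
  obtain ⟨cd, _, hcd⟩ := exists_lt_card_fiber_of_mul_lt_card_of_maps_to (n := 2) hmaps (by
    refine lt_of_le_of_lt ?_ hcon
    calc tt.card * 2 ≤ (2 * m ^ (d - 1)) * 2 := Nat.mul_le_mul_right 2 htcard
      _ = 4 * m ^ (d - 1) := by ring)
  -- the main argument
  have key : ∀ x ∈ S, ∀ y ∈ S, code x = code y → sgr y = sgr x ∧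
      ∀ P : Polynomial ℚ, ∃ q : ℚ,
        (∑ θ ∈ Rt f, vv m x θ * ww m y θ * Polynomial.aeval θ P) ^ m = (q : ℂ) := by
    intro x hx y hy hc
    simp only [hcode, Prod.mk.injEq, decide_eq_decide] at hc
    obtain ⟨hsg, hfun⟩ := hc
    have hsgr : sgr y = sgr x := by
      rw [sgr, sgr]
      by_cases h : 0 < x
      · rw [if_pos h, if_pos (hsg.mp h)]
      · rw [if_neg h, if_neg (fun h' => h (hsg.mpr h'))]
    have hprod : ∀ θ ∈ Rt f, q x θ ^ (m - 1) * q y θ = q x θs ^ (m - 1) * q y θs := by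
      intro θ hθ
      by_cases he : θ = θs
      · rw [he]
      have h1 := congrFun hfun ⟨θ, mem_erase.mpr ⟨he, hθ⟩⟩
      simp only at h1
      have hx1 := hq0 x hx θs hθs
      have hy1 := hq0 y hy θs hθs
      set ζ := q x θ / q x θs with hζ
      have h2 : q x θ = ζ * q x θs := by rw [hζ, div_mul_cancel₀ _ hx1]
      have h3 : q y θ = ζ * q y θs := by rw [h1, div_mul_cancel₀ _ hy1]
      have h4 : ζ ^ m = 1 := by
        rw [hζ, div_pow, hqm x hx _ hθ, hqm x hx _ hθs, div_self]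
        rw [← hqm x hx _ hθs]
        exact pow_ne_zero _ hx1
      have h5 : ζ ^ (m - 1) * ζ = 1 := by
        rw [← pow_succ, show m - 1 + 1 = m by omega, h4]
      rw [h2, h3, mul_pow]
      linear_combination (q x θs ^ (m - 1) * q y θs) * h5
    set c : ℂ := q x θs ^ (m - 1) * q y θs / (x₀ : ℂ) ^ (m - 1) with hcdef
    have hx₀p : (x₀ : ℂ) ^ (m - 1) ≠ 0 := pow_ne_zero _ hx₀C
    have hc2 : c ^ m = ((b x ^ (m - 1) * b y * x ^ (m - 1) * y : ℚ) : ℂ) := by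
      rw [hcdef, div_pow, mul_pow, ← pow_mul, mul_comm (m - 1) m, pow_mul, hqm x hx θs hθs,
        hqm y hy θs hθs, div_eq_iff (pow_ne_zero _ hx₀p)]
      have e1 : ((x₀ : ℂ) ^ (m - 1)) ^ m = ((x₀ : ℂ) ^ (m - 1)) ^ (m - 1) * (x₀ : ℂ) ^ (m - 1) := by
        rw [← pow_succ, show m - 1 + 1 = m by omega]
      rw [e1, mul_pow, mul_pow]
      push_cast
      ring
    have hb0 : b x ^ (m - 1) * b y * x ^ (m - 1) * y ≠ 0 := by
      have h1 : (x : ℚ) ≠ 0 := by exact_mod_cast hSne x hx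
      have h2 : (y : ℚ) ≠ 0 := by exact_mod_cast hSne y hy
      exact mul_ne_zero (mul_ne_zero (mul_ne_zero (pow_ne_zero _ (hb x hx)) (hb y hy))
        (pow_ne_zero _ h1)) h2
    have hBB : ∀ θ ∈ Rt f, Polynomial.aeval θ (B x ^ (m - 1) * B y) =
        c * (((x₀ : ℂ) - θ) ^ (m - 1) * (vv m x θ * ww m y θ)) := by
      intro θ hθ
      have h1 := hprod θ hθ
      have h2 : Polynomial.aeval θ (B x) = q x θ * (vv m x₀ θ * ww m x θ) := by
        simp only [hq]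
        rw [div_mul_cancel₀ _ (mul_ne_zero (hvne x₀ hx₀ θ hθ) (hwne x hx θ hθ))]
      have h3 : Polynomial.aeval θ (B y) = q y θ * (vv m x₀ θ * ww m y θ) := by
        simp only [hq]
        rw [div_mul_cancel₀ _ (mul_ne_zero (hvne x₀ hx₀ θ hθ) (hwne y hy θ hθ))]
      have h4 := ww_pred hm (x := (x : ℂ)) (θ := θ)
      have h5 : vv m x₀ θ ^ (m - 1) * vv m x₀ θ = (1 - θ / (x₀ : ℂ)) ^ (m - 1) := by
        rw [← pow_succ, show m - 1 + 1 = m by omega, vv_pow hm]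
      have h7 : c * (x₀ : ℂ) ^ (m - 1) = q x θs ^ (m - 1) * q y θs := by
        rw [hcdef, div_mul_cancel₀ _ hx₀p]
      rw [map_mul, map_pow, h2, h3, hfac x₀ hx₀ θ, mul_pow (x₀ : ℂ)]
      calc (q x θ * (vv m x₀ θ * ww m x θ)) ^ (m - 1) * (q y θ * (vv m x₀ θ * ww m y θ))
          = (q x θ ^ (m - 1) * q y θ) * (vv m x₀ θ ^ (m - 1) * vv m x₀ θ) *
            (ww m x θ ^ (m - 1) * ww m y θ) := by rw [mul_pow, mul_pow]; ring
        _ = (c * (x₀ : ℂ) ^ (m - 1)) * (1 - θ / (x₀ : ℂ)) ^ (m - 1) *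
            (vv m x θ * ww m y θ) := by rw [h1, h7, h5, h4]
        _ = _ := by ring
    refine ⟨hsgr, ?_⟩
    intro P
    obtain ⟨W, hWp⟩ := Ra_Wt hs hf
    obtain ⟨r, hr⟩ := rat_pow m hf hs (B x ^ (m - 1) * B y * (P * W)) x₀ hx₀' (m - 1)
      (fun θ => vv m x θ * ww m y θ * (Polynomial.aeval θ P * GP.Wt (Rt f) θ)) c
      (b x ^ (m - 1) * b y * x ^ (m - 1) * y) hb0 hc2 (by
        intro θ hθ
        rw [map_mul, hBB θ hθ, map_mul, hWp θ hθ]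
        ring)
    refine ⟨r, ?_⟩
    rw [← hr]
    congr 1
    refine sum_congr rfl fun θ hθ => ?_
    have := GP.Wt_ne (R := Rt f) θ
    field_simp
  have hne : ∀ x ∈ S, ∀ y ∈ S, x ≠ y → code x = code y → |(x : ℝ)| ≠ |(y : ℝ)| := by
    intro x hx y hy hxy hxyc h
    have hsg : (0 < x ↔ 0 < y) := by
      have := hxyc
      simp only [hcode, Prod.mk.injEq, decide_eq_decide] at this
      exact this.1
    have h1 : |x| = |y| := by
      have : ((|x| : ℤ) : ℝ) = ((|y| : ℤ) : ℝ) := by push_cast; exact h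
      exact_mod_cast this
    have hx0 := hSne x hx
    have hy0 := hSne y hy
    rcases abs_eq_abs.mp h1 with h2 | h2
    · exact hxy h2
    · by_cases h3 : 0 < x
      · have := hsg.mp h3; omega
      · have h4 : ¬ 0 < y := fun h => h3 (hsg.mpr h)
        omega
  have fin : ∀ x ∈ S, ∀ y ∈ S, ∀ z ∈ S, code x = code y → code y = code z →
      |(x : ℝ)| < |(y : ℝ)| → |(y : ℝ)| < |(z : ℝ)| → False := by
    intro x hx y hy z hz h1 h2 h3 h4
    obtain ⟨k1, k2⟩ := key x hx y hy h1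
    obtain ⟨k3, k4⟩ := key y hy z hz h2
    obtain ⟨_, k6⟩ := key x hx z hz (h1.trans h2)
    exact triple hm hd3 H hH hf hfd hs hfH hG4 hmG hdG hρG hlG hroot hW hE x y z h3 h4 k1 k3
      (hX₀ρ.trans (hS x hx)) (hX₀K.trans (hS x hx)) k2 k4 k6
  obtain ⟨x, hx, y, hy, z, hz, hxy, hxz, hyz⟩ := two_lt_card.mp hcd
  rw [mem_filter] at hx hy hz
  obtain ⟨hx, cx⟩ := hx
  obtain ⟨hy, cy⟩ := hy
  obtain ⟨hz, cz⟩ := hz
  have cxy : code x = code y := cx.trans cy.symm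
  have cyz : code y = code z := cy.trans cz.symm
  have cxz : code x = code z := cx.trans cz.symm
  rcases lt_or_gt_of_ne (hne x hx y hy hxy cxy) with h1 | h1 <;>
    rcases lt_or_gt_of_ne (hne y hy z hz hyz cyz) with h2 | h2 <;>
    rcases lt_or_gt_of_ne (hne x hx z hz hxz cxz) with h3 | h3
  · exact fin x hx y hy z hz cxy cyz h1 h2
  · linarith
  · exact fin x hx z hz y hy cxz cyz.symm h3 h2
  · exact fin z hz x hx y hy cxz.symm cxy h3 h1
  · exact fin y hy x hx z hz cxy.symm cxz h1 h3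
  · exact fin y hy z hz x hx cyz cxz.symm h2 h3
  · linarith
  · exact fin z hz y hy x hx cyz.symm cxy.symm h2 h1

end Pool.Agent.U133.SE
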