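import Pool.Agent.U133.SE.Pre

set_option autoImplicit false

/-!
# The main theorem
-/

namespace Pool.Agent.U133.SE

open Finset Pool.Agent.U133.HP

open Pool.Agent.U133.GP (Rt mem_Rt card_Rt prod_Rt deriv_Rt sgr sgr_sq sgr_mul)

/-- `x` and `y` are in the same class: `b (x - T) ^ (m - 1) (y - T)` is an `m`-th power modulo
`f(T)` for some non-zero rational number `b` -/
def PowerClass (m : ℕ) (f : Polynomial ℤ) (x y : ℤ) : Prop :=
  ∃ b : ℚ, b ≠ 0 ∧ ∃ B : Polynomial ℚ, f.map (Int.castRingHom ℚ) ∣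
    B ^ m - Polynomial.C b * ((Polynomial.C (x : ℚ) - Polynomial.X) ^ (m - 1) *
      (Polynomial.C (y : ℚ) - Polynomial.X))

lemma PowerClass.eval {m : ℕ} {f : Polynomial ℤ} (hf : f ≠ 0) {x y : ℤ} {b : ℚ}
    {B : Polynomial ℚ} (h : f.map (Int.castRingHom ℚ) ∣
      B ^ m - Polynomial.C b * ((Polynomial.C (x : ℚ) - Polynomial.X) ^ (m - 1) *
      (Polynomial.C (y : ℚ) - Polynomial.X)))
    {θ : ℂ} (hθ : θ ∈ Rt f) :
    Polynomial.aeval θ B ^ m = b * (((x : ℂ) - θ) ^ (m - 1) * ((y : ℂ) - θ)) := by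
  obtain ⟨Q, hQ⟩ := h
  have h0 : Polynomial.aeval θ (f.map (Int.castRingHom ℚ)) = 0 := by
    rw [← (mem_Rt hf).mp hθ, Polynomial.aeval_def, Polynomial.aeval_def, Polynomial.eval₂_map]
    congr 1
  have h1 := congrArg (fun P : Polynomial ℚ => Polynomial.aeval θ P) hQ
  simp only [map_sub, map_mul, map_pow, Polynomial.aeval_C, Polynomial.aeval_X, h0,
    zero_mul] at h1
  rw [sub_eq_zero] at h1
  simpa using h1

lemma card_roots_unity (m : ℕ) : (Polynomial.nthRootsFinset m (1 : ℂ)).card ≤ m := by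
  classical
  rw [Polynomial.nthRootsFinset_def]
  exact (Multiset.toFinset_card_le _).trans (Polynomial.card_nthRoots m 1)

/-- the argument for two integers with the same code -/
theorem pair {m d : ℕ} (hm : 2 ≤ m) (hmd : 3 ≤ (m - 1) * (d - 2)) (H : ℕ) (hH : 1 ≤ H)
    {f : Polynomial ℤ} (hf : f ≠ 0) (hfd : f.natDegree = d)
    (hs : (Polynomial.map (Int.castRingHom ℚ) f).Separable) (hfH : ∀ i, |f.coeff i| ≤ H)
    {G : ℝ} (hG4 : 4 ≤ G) (hmG : (m : ℝ) ^ 2 ≤ G) (hdG : (d : ℝ) ≤ G)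
    (hρG : (1 + 2 * ((d : ℝ) * H)) ^ d ≤ G) (hlG : |(f.leadingCoeff : ℝ)| ≤ G)
    (hroot : ∀ θ ∈ Rt f, ‖θ‖ ≤ (d : ℝ) * H)
    (hW : ∀ θ ∈ Rt f, ‖(GP.Wt (Rt f) θ)⁻¹‖ ≤ G)
    (hE : |((Polynomial.resultant f (Polynomial.derivative f) f.natDegree
      (f.natDegree - 1) : ℤ) : ℝ)| * |(f.leadingCoeff : ℝ)| ^ d ≤ G)
    (x y : ℤ) (hlt : |(x : ℝ)| < |(y : ℝ)|) (hsgr : sgr y = sgr x)
    (haρ : 6 * ((d : ℝ) * H) ≤ |(x : ℝ)|)
    (ha : G ^ (2 * (m * (4 * d + 33) + 1)) ≤ |(x : ℝ)|)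
    (hrat : ∀ P : Polynomial ℚ, ∃ q : ℚ,
      (∑ θ ∈ Rt f, vv m x θ * ww m y θ * Polynomial.aeval θ P) ^ m = (q : ℂ)) : False := by
  have hd3 : 3 ≤ d := by
    by_contra hcon
    push Not at hcon
    rw [show d - 2 = 0 by omega, mul_zero] at hmd
    omega
  have hH1 : (1 : ℝ) ≤ H := by exact_mod_cast hH
  have hdR : (3 : ℝ) ≤ d := by exact_mod_cast hd3
  have hdH : 1 ≤ (d : ℝ) * H := by
    calc (1 : ℝ) = 1 * 1 := by ring
      _ ≤ (d : ℝ) * H := mul_le_mul (by linarith) hH1 (by norm_num) (by linarith)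
  have ha6 : 6 ≤ |(x : ℝ)| := by linarith
  rcases le_or_gt (|(x : ℝ)| ^ 4) |(y : ℝ)| with hbig4 | hsmall4
  · obtain ⟨n, hn, ht1, ht2⟩ := order hm hmd (by linarith : (2 : ℝ) ≤ |(x : ℝ)|) hbig4
    exact contra2 hm hf hs (by omega) hG4 hmG (by rw [hfd]; exact hdG)
      (by linarith : 1 / 2 ≤ (d : ℝ) * H) (by rw [hfd]; exact hρG)
      hlG hroot hW (by rw [hfd] at hE ⊢; exact hE) x y rfl rfl n hn (by linarith)
      hlt.le (by rw [hfd]; exact ht1) ht2 (by rw [hfd]; exact ha) hrat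
  · refine contra1 hm hf hs (by omega) (by rw [hfd]; exact hmd) H hH hfH hG4 hmG hlG
      (by rw [hfd] at hE ⊢; exact hE) x y (sgr x) |(x : ℝ)| |(y : ℝ)| (sgr_sq x)
      (sgr_mul x) (by rw [← hsgr]; exact sgr_mul y) (by linarith) hlt hsmall4.le ?_
      (by rw [hfd]; exact ha) hrat
    rw [hfd, mul_one_div, div_le_one (by linarith)]
    linarith

/-- the main theorem, with the exponent in terms of an exponent for the constants -/
theorem main_of (m d : ℕ) (hm : 2 ≤ m) (hmd : 3 ≤ (m - 1) * (d - 2)) (K : ℕ)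
    (H : ℕ) (f : Polynomial ℤ) (hfd : f.natDegree = d)
    (hs : (Polynomial.map (Int.castRingHom ℚ) f).Separable)
    (hfH : ∀ i, |f.coeff i| ≤ H)
    (hK : 1 ≤ H → f ≠ 0 → (m : ℝ) ^ 2 ≤ (2 * (H : ℝ)) ^ K ∧
      4 ≤ (2 * (H : ℝ)) ^ K ∧ (d : ℝ) ≤ (2 * (H : ℝ)) ^ K ∧
      (1 + 2 * ((d : ℝ) * H)) ^ d ≤ (2 * (H : ℝ)) ^ K ∧
      |(f.leadingCoeff : ℝ)| ≤ (2 * (H : ℝ)) ^ K ∧
      (∀ θ ∈ Rt f, ‖θ‖ ≤ (d : ℝ) * H) ∧
      (∀ θ ∈ Rt f, ‖(GP.Wt (Rt f) θ)⁻¹‖ ≤ (2 * (H : ℝ)) ^ K) ∧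
      |((Polynomial.resultant f (Polynomial.derivative f) f.natDegree (f.natDegree - 1) : ℤ) : ℝ)| *
        |(f.leadingCoeff : ℝ)| ^ d ≤ (2 * (H : ℝ)) ^ K)
    (S : Finset ℤ)
    (hS : ∀ x ∈ S, (2 * (H : ℝ)) ^ (K * (2 * (m * (4 * d + 33) + 1)) + K + 5) ≤ |(x : ℝ)|)
    (hcl : ∀ x ∈ S, ∀ y ∈ S, PowerClass m f x y) : S.card ≤ 2 * m ^ (d - 1) := by
  have hd3 : 3 ≤ d := by
    by_contra hcon
    push Not at hcon
    rw [show d - 2 = 0 by omega, mul_zero] at hmd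
    omega
  classical
  have hf : f ≠ 0 := by rintro rfl; simp at hfd; omega
  have hH : 1 ≤ H := by
    have h1 := hfH f.natDegree
    have h2 := Int.one_le_abs (Polynomial.leadingCoeff_ne_zero.mpr hf)
    have h3 : (1 : ℤ) ≤ H := h2.trans h1
    exact_mod_cast h3
  have hH1 : (1 : ℝ) ≤ H := by exact_mod_cast hH
  have h2H : (1 : ℝ) ≤ 2 * H := by linarith
  have h2H2 : (2 : ℝ) ≤ 2 * H := by linarith
  set X₀ : ℝ := (2 * (H : ℝ)) ^ (K * (2 * (m * (4 * d + 33) + 1)) + K + 5) with hX₀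
  obtain ⟨hmG, hG4, hdG, hρG, hlG, hroot, hW, hE⟩ := hK hH hf
  set G : ℝ := (2 * (H : ℝ)) ^ K with hG
  have hdR : (3 : ℝ) ≤ d := by exact_mod_cast hd3
  have hdH : 1 ≤ (d : ℝ) * H := by
    calc (1 : ℝ) = 1 * 1 := by ring
      _ ≤ (d : ℝ) * H := mul_le_mul (by linarith) hH1 (by norm_num) (by linarith)
  have hX₀K : G ^ (2 * (m * (4 * d + 33) + 1)) ≤ X₀ := by
    rw [hG, ← pow_mul]
    exact pow_le_pow_right₀ h2H (by omega)
  have hX₀ρ : 6 * ((d : ℝ) * H) ≤ X₀ := by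
    have h1 : 1 + 2 * ((d : ℝ) * H) ≤ G := by
      refine le_trans ?_ hρG
      have := pow_le_pow_right₀ (a := 1 + 2 * ((d : ℝ) * H)) (by linarith) (by omega : 1 ≤ d)
      rwa [pow_one] at this
    have h2 : G * 2 ^ 5 ≤ X₀ := by
      calc G * 2 ^ 5 ≤ (2 * (H : ℝ)) ^ K * (2 * (H : ℝ)) ^ 5 :=
            mul_le_mul_of_nonneg_left (pow_le_pow_left₀ (by norm_num) h2H2 5) (by positivity)
        _ = (2 * (H : ℝ)) ^ (K + 5) := (pow_add _ _ _).symm
        _ ≤ _ := pow_le_pow_right₀ h2H (by omega)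
    linarith
  have hbig : ∀ x ∈ S, ∀ θ ∈ Rt f, ‖θ‖ < |(x : ℝ)| := by
    intro x hx θ hθ
    have h1 := hS x hx
    have h2 := hroot θ hθ
    linarith
  have hSne : ∀ x ∈ S, (x : ℤ) ≠ 0 := by
    rintro x hx rfl
    have h1 := hS 0 hx
    simp at h1
    linarith
  by_contra hcon
  push Not at hcon
  obtain ⟨x₀, hx₀⟩ : S.Nonempty := card_pos.mp ((Nat.zero_le _).trans_lt hcon)
  have hx₀' : f.eval x₀ ≠ 0 := by
    intro h0
    have h1 : (x₀ : ℂ) ∈ Rt f := by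
      rw [mem_Rt hf]
      have : Polynomial.aeval ((x₀ : ℤ) : ℂ) f = ((f.eval x₀ : ℤ) : ℂ) := by
        rw [Polynomial.aeval_def]
        have := Polynomial.eval₂_at_intCast (Int.castRingHom ℂ) (p := f) x₀
        simpa using this
      rw [this, h0]; simp
    have h2 := hbig x₀ hx₀ _ h1
    rw [Complex.norm_intCast] at h2
    exact lt_irrefl _ h2
  choose! b hb B hB using fun x hx => hcl x₀ hx₀ x hx
  obtain ⟨θs, hθs⟩ : (Rt f).Nonempty := card_pos.mp (by rw [card_Rt hs]; omega)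
  have hcard : (Rt f).card = d := by rw [card_Rt hs, hfd]
  have hx₀C : (x₀ : ℂ) ≠ 0 := by exact_mod_cast hSne x₀ hx₀
  have hfac : ∀ x ∈ S, ∀ θ : ℂ, (x : ℂ) - θ = x * (1 - θ / x) := by
    intro x hx θ
    have : (x : ℂ) ≠ 0 := by exact_mod_cast hSne x hx
    field_simp
  have hone : ∀ x ∈ S, ∀ θ ∈ Rt f, 1 - θ / (x : ℂ) ≠ 0 := by
    intro x hx θ hθ
    apply one_sub_ne
    rw [Complex.norm_intCast]
    exact hbig x hx θ hθ
  have hvne : ∀ x ∈ S, ∀ θ ∈ Rt f, vv m x θ ≠ 0 := by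
    intro x hx θ hθ h0
    have h2 := vv_pow hm (x := (x : ℂ)) (θ := θ)
    rw [h0, zero_pow (by omega)] at h2
    exact pow_ne_zero _ (hone x hx θ hθ) h2.symm
  have hwne : ∀ x ∈ S, ∀ θ ∈ Rt f, ww m x θ ≠ 0 := by
    intro x hx θ hθ h0
    have h2 := ww_pow hm (x := (x : ℂ)) (θ := θ)
    rw [h0, zero_pow (by omega)] at h2
    exact hone x hx θ hθ h2.symm
  set q : ℤ → ℂ → ℂ := fun x θ => Polynomial.aeval θ (B x) / (vv m x₀ θ * ww m x θ) with hq
  have hqm : ∀ x ∈ S, ∀ θ ∈ Rt f, q x θ ^ m = b x * ((x₀ : ℂ) ^ (m - 1) * x) := by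
    intro x hx θ hθ
    have h1 := PowerClass.eval hf (hB x hx) hθ
    simp only [hq]
    rw [div_pow, h1, mul_pow, vv_pow hm, ww_pow hm, div_eq_iff (mul_ne_zero
      (pow_ne_zero _ (hone x₀ hx₀ θ hθ)) (hone x hx θ hθ)), hfac x hx θ, hfac x₀ hx₀ θ, mul_pow]
    ring
  have hq0 : ∀ x ∈ S, ∀ θ ∈ Rt f, q x θ ≠ 0 := by
    intro x hx θ hθ h0
    have h1 := hqm x hx θ hθ
    rw [h0, zero_pow (by omega)] at h1
    have h2 : (x : ℂ) ≠ 0 := by exact_mod_cast hSne x hx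
    have h3 : ((b x : ℚ) : ℂ) ≠ 0 := by exact_mod_cast hb x hx
    exact mul_ne_zero h3 (mul_ne_zero (pow_ne_zero _ hx₀C) h2) h1.symm
  set U := Polynomial.nthRootsFinset m (1 : ℂ) with hU
  set code : ℤ → Bool × ({θ : ℂ // θ ∈ (Rt f).erase θs} → ℂ) := fun x => (decide (0 < x),
    fun θ => q x θ / q x θs) with hcode
  obtain ⟨x, hx, y, hy, hxy, hxyc⟩ := exists_ne_map_eq_of_card_lt_of_maps_to
    (s := S) (t := (univ : Finset Bool) ×ˢ
      Fintype.piFinset (fun _ : {θ : ℂ // θ ∈ (Rt f).erase θs} => U)) (f := code) (by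
      rw [card_product, Fintype.card_piFinset, prod_const, card_univ, Fintype.card_bool,
        card_univ, Fintype.card_coe, card_erase_of_mem hθs, hcard]
      refine lt_of_le_of_lt ?_ hcon
      exact Nat.mul_le_mul_left 2 (Nat.pow_le_pow_left (card_roots_unity m) _)) (by
      intro x hx
      simp only [hcode, coe_product, Set.mem_prod, mem_coe, mem_univ, true_and,
        Fintype.mem_piFinset]
      intro θ
      have hθ := (mem_erase.mp θ.2).2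
      rw [hU, Polynomial.mem_nthRootsFinset (by omega), div_pow, hqm x hx _ hθ,
        hqm x hx _ hθs, div_self]
      rw [← hqm x hx _ hθs]
      exact pow_ne_zero _ (hq0 x hx _ hθs))
  -- the main argument
  have key : ∀ x ∈ S, ∀ y ∈ S, |(x : ℝ)| < |(y : ℝ)| → code x = code y → False := by
    intro x hx y hy hlt hc
    simp only [hcode, Prod.mk.injEq, decide_eq_decide] at hc
    obtain ⟨hsg, hfun⟩ := hc
    have hsgr : sgr y = sgr x := by
      rw [sgr, sgr]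
      by_cases h : 0 < x
      · rw [if_pos h, if_pos (hsg.mp h)]
      · rw [if_neg h, if_neg (fun h' => h (hsg.mpr h'))]
    have hprod : ∀ θ ∈ Rt f, q x θ ^ (m - 1) * q y θ = q x θs ^ (m - 1) * q y θs := by
      intro θ hθ
      by_cases he : θ = θs
      · rw [he]
      have h1 := congrFun hfun ⟨θ, mem_erase.mpr ⟨he, hθ⟩⟩
      simp only at h1
      have hx1 := hq0 x hx θs hθs
      have hy1 := hq0 y hy θs hθs
      set ζ := q x θ / q x θs with hζ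
      have h2 : q x θ = ζ * q x θs := by rw [hζ, div_mul_cancel₀ _ hx1]
      have h3 : q y θ = ζ * q y θs := by rw [h1, div_mul_cancel₀ _ hy1]
      have h4 : ζ ^ m = 1 := by
        rw [hζ, div_pow, hqm x hx _ hθ, hqm x hx _ hθs, div_self]
        rw [← hqm x hx _ hθs]
        exact pow_ne_zero _ hx1
      have h5 : ζ ^ (m - 1) * ζ = 1 := by
        rw [← pow_succ, show m - 1 + 1 = m by omega, h4]
      rw [h2, h3, mul_pow]
      linear_combination (q x θs ^ (m - 1) * q y θs) * h5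
    set c : ℂ := q x θs ^ (m - 1) * q y θs / (x₀ : ℂ) ^ (m - 1) with hcdef
    have hx₀p : (x₀ : ℂ) ^ (m - 1) ≠ 0 := pow_ne_zero _ hx₀C
    have hc2 : c ^ m = ((b x ^ (m - 1) * b y * x ^ (m - 1) * y : ℚ) : ℂ) := by
      rw [hcdef, div_pow, mul_pow, ← pow_mul, mul_comm (m - 1) m, pow_mul, hqm x hx θs hθs,
        hqm y hy θs hθs, div_eq_iff (pow_ne_zero _ hx₀p)]
      have e1 : ((x₀ : ℂ) ^ (m - 1)) ^ m = ((x₀ : ℂ) ^ (m - 1)) ^ (m - 1) * (x₀ : ℂ) ^ (m - 1) := by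
        rw [← pow_succ, show m - 1 + 1 = m by omega]
      rw [e1, mul_pow, mul_pow]
      push_cast
      ring
    have hb0 : b x ^ (m - 1) * b y * x ^ (m - 1) * y ≠ 0 := by
      have h1 : (x : ℚ) ≠ 0 := by exact_mod_cast hSne x hx
      have h2 : (y : ℚ) ≠ 0 := by exact_mod_cast hSne y hy
      exact mul_ne_zero (mul_ne_zero (mul_ne_zero (pow_ne_zero _ (hb x hx)) (hb y hy))
        (pow_ne_zero _ h1)) h2
    have hBB : ∀ θ ∈ Rt f, Polynomial.aeval θ (B x ^ (m - 1) * B y) =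
        c * (((x₀ : ℂ) - θ) ^ (m - 1) * (vv m x θ * ww m y θ)) := by
      intro θ hθ
      have h1 := hprod θ hθ
      have h2 : Polynomial.aeval θ (B x) = q x θ * (vv m x₀ θ * ww m x θ) := by
        simp only [hq]
        rw [div_mul_cancel₀ _ (mul_ne_zero (hvne x₀ hx₀ θ hθ) (hwne x hx θ hθ))]
      have h3 : Polynomial.aeval θ (B y) = q y θ * (vv m x₀ θ * ww m y θ) := by
        simp only [hq]
        rw [div_mul_cancel₀ _ (mul_ne_zero (hvne x₀ hx₀ θ hθ) (hwne y hy θ hθ))]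
      have h4 := ww_pred hm (x := (x : ℂ)) (θ := θ)
      have h5 : vv m x₀ θ ^ (m - 1) * vv m x₀ θ = (1 - θ / (x₀ : ℂ)) ^ (m - 1) := by
        rw [← pow_succ, show m - 1 + 1 = m by omega, vv_pow hm]
      have h7 : c * (x₀ : ℂ) ^ (m - 1) = q x θs ^ (m - 1) * q y θs := by
        rw [hcdef, div_mul_cancel₀ _ hx₀p]
      rw [map_mul, map_pow, h2, h3, hfac x₀ hx₀ θ, mul_pow (x₀ : ℂ)]
      calc (q x θ * (vv m x₀ θ * ww m x θ)) ^ (m - 1) * (q y θ * (vv m x₀ θ * ww m y θ))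
          = (q x θ ^ (m - 1) * q y θ) * (vv m x₀ θ ^ (m - 1) * vv m x₀ θ) *
            (ww m x θ ^ (m - 1) * ww m y θ) := by rw [mul_pow, mul_pow]; ring
        _ = (c * (x₀ : ℂ) ^ (m - 1)) * (1 - θ / (x₀ : ℂ)) ^ (m - 1) *
            (vv m x θ * ww m y θ) := by rw [h1, h7, h5, h4]
        _ = _ := by ring
    refine pair hm hmd H hH hf hfd hs hfH hG4 hmG hdG hρG hlG hroot hW hE x y hlt hsgr
      (hX₀ρ.trans (hS x hx)) (hX₀K.trans (hS x hx)) ?_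
    intro P
    obtain ⟨W, hWp⟩ := Ra_Wt hs hf
    obtain ⟨r, hr⟩ := rat_pow m hf hs (B x ^ (m - 1) * B y * (P * W)) x₀ hx₀' (m - 1)
      (fun θ => vv m x θ * ww m y θ * (Polynomial.aeval θ P * GP.Wt (Rt f) θ)) c
      (b x ^ (m - 1) * b y * x ^ (m - 1) * y) hb0 hc2 (by
        intro θ hθ
        rw [map_mul, hBB θ hθ, map_mul, hWp θ hθ]
        ring)
    refine ⟨r, ?_⟩
    rw [← hr]
    congr 1
    refine sum_congr rfl fun θ hθ => ?_
    have := GP.Wt_ne (R := Rt f) θ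
    field_simp
  have hne : |(x : ℝ)| ≠ |(y : ℝ)| := by
    intro h
    have hsg : (0 < x ↔ 0 < y) := by
      have := hxyc
      simp only [hcode, Prod.mk.injEq, decide_eq_decide] at this
      exact this.1
    have h1 : |x| = |y| := by
      have : ((|x| : ℤ) : ℝ) = ((|y| : ℤ) : ℝ) := by push_cast; exact h
      exact_mod_cast this
    have hx0 := hSne x hx
    have hy0 := hSne y hy
    rcases abs_eq_abs.mp h1 with h2 | h2
    · exact hxy h2
    · by_cases h3 : 0 < x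
      · have := hsg.mp h3; omega
      · have h4 : ¬ 0 < y := fun h => h3 (hsg.mpr h)
        omega
  rcases lt_or_gt_of_ne hne with h | h
  · exact key x hx y hy h hxyc
  · exact key y hy x hx h hxyc.symm

/-- **The main theorem.** -/
theorem main (m d : ℕ) (hm : 2 ≤ m) (hmd : 3 ≤ (m - 1) * (d - 2)) : ∃ M : ℕ,
    ∀ (H : ℕ) (f : Polynomial ℤ), f.natDegree = d →
    (Polynomial.map (Int.castRingHom ℚ) f).Separable →
    (∀ i, |f.coeff i| ≤ H) → ∀ S : Finset ℤ,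
      (∀ x ∈ S, (2 * (H : ℝ)) ^ M ≤ |(x : ℝ)|) →
      (∀ x ∈ S, ∀ y ∈ S, PowerClass m f x y) → S.card ≤ 2 * m ^ (d - 1) := by
  have hd3 : 3 ≤ d := by
    by_contra hcon
    push Not at hcon
    rw [show d - 2 = 0 by omega, mul_zero] at hmd
    omega
  obtain ⟨K₀, hK₀⟩ := constants d (by omega)
  obtain ⟨K₁, hK₁⟩ := PB.const (m ^ 2)
  refine ⟨(K₀ + K₁) * (2 * (m * (4 * d + 33) + 1)) + (K₀ + K₁) + 5, fun H f hfd hs hfH S hS hcl =>
    main_of m d hm hmd (K₀ + K₁) H f hfd hs hfH (fun hH hf => ?_) S hS hcl⟩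
  have hH1 : (1 : ℝ) ≤ H := by exact_mod_cast hH
  have h2H : (1 : ℝ) ≤ 2 * H := by linarith
  obtain ⟨hG4', hdG', hρG', hlG', hroot, hW', hE'⟩ := hK₀ H f hH hfd hs hf hfH
  have hmono : (2 * (H : ℝ)) ^ K₀ ≤ (2 * (H : ℝ)) ^ (K₀ + K₁) :=
    pow_le_pow_right₀ h2H (by omega)
  refine ⟨?_, hG4'.trans hmono, hdG'.trans hmono, hρG'.trans hmono, hlG'.trans hmono, hroot,
    fun θ hθ => (hW' θ hθ).trans hmono, hE'.trans hmono⟩
  have := (hK₁ H hH).2
  push_cast at this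
  exact this.trans (pow_le_pow_right₀ h2H (by omega))

end Pool.Agent.U133.SE
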