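import Pool.Agent.U133.SE.Two

set_option autoImplicit false

/-!
# The first linear form
-/

namespace Pool.Agent.U133.SE

open Finset Pool.Agent.U133.HP PowerSeries

open Pool.Agent.U133.GP (Rt mem_Rt card_Rt rr rr_lt rr_eq rr_bound Eqn)

/-- the series of `(1 - u X) ^ a` -/
noncomputable def bs (a u : ℝ) : ℝ⟦X⟧ := PowerSeries.mk fun k => Ring.choose a k * (-u) ^ k

lemma coeff_bs (a u : ℝ) (k : ℕ) : coeff k (bs a u) = Ring.choose a k * (-u) ^ k := by
  rw [bs, coeff_mk]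

lemma bs_ode (a u : ℝ) : (1 - C u * X) * d⁄dX ℝ (bs a u) = -C (a * u) * bs a u := by
  ext j
  rw [sub_mul, one_mul, map_sub, mul_assoc, coeff_C_mul, neg_mul, map_neg, coeff_C_mul]
  have h := choose_rec a j
  rcases j with _ | j
  · rw [coeff_zero_X_mul, coeff_derivative, coeff_bs, coeff_bs]
    push_cast at h ⊢
    linear_combination (-u) * h
  · rw [coeff_succ_X_mul, coeff_derivative, coeff_derivative, coeff_bs, coeff_bs]
    push_cast at h ⊢
    linear_combination ((-u) ^ (j + 2)) * h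

/-- the coefficients of `(1 - u X) ^ a (1 - v X) ^ (1 - a)` -/
noncomputable def ek (a u v : ℝ) (k : ℕ) : ℝ := coeff k (bs a u * bs (1 - a) v)

lemma E_ode (a u v : ℝ) : (1 - C u * X) * (1 - C v * X) * d⁄dX ℝ (bs a u * bs (1 - a) v) =
    (C (u * v) * X - C (a * u + (1 - a) * v)) * (bs a u * bs (1 - a) v) := by
  rw [Derivation.leibniz]
  simp only [smul_eq_mul]
  have h1 := bs_ode a u
  have h2 := bs_ode (1 - a) v
  have e1 : C (a * u + (1 - a) * v) = C (a * u) + C ((1 - a) * v) := by rw [map_add]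
  have e2 : (C (u * v) : ℝ⟦X⟧) = C (a * u) * C v + C ((1 - a) * v) * C u := by
    rw [← map_mul, ← map_mul, ← map_add]; congr 1; ring
  rw [e1, e2]
  linear_combination ((1 - C v * X) * bs (1 - a) v) * h1 + ((1 - C u * X) * bs a u) * h2

lemma ek_zero (a u v : ℝ) : ek a u v 0 = 1 := by
  rw [ek, coeff_mul]
  simp [coeff_bs, Ring.choose_zero_right]

lemma ek_one (a u v : ℝ) : ek a u v 1 = -(a * u + (1 - a) * v) := by
  have h := congrArg (coeff 0) (E_ode a u v)
  rw [show (1 - C u * X) * (1 - C v * X) * d⁄dX ℝ (bs a u * bs (1 - a) v) =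
    d⁄dX ℝ (bs a u * bs (1 - a) v) - X * ((C u + C v - C u * C v * X) *
      d⁄dX ℝ (bs a u * bs (1 - a) v)) by ring,
    show (C (u * v) * X - C (a * u + (1 - a) * v)) * (bs a u * bs (1 - a) v) =
    X * (C (u * v) * (bs a u * bs (1 - a) v)) - C (a * u + (1 - a) * v) *
      (bs a u * bs (1 - a) v) by ring] at h
  rw [map_sub, map_sub, coeff_zero_X_mul, coeff_zero_X_mul, coeff_C_mul, coeff_derivative] at h
  have h0 := ek_zero a u v
  rw [ek] at h0 ⊢
  rw [h0] at h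
  push_cast at h
  rw [zero_add] at h
  linarith

lemma ek_succ (a u v : ℝ) (k : ℕ) : ((k : ℝ) + 2) * ek a u v (k + 2) =
    ((u + v) * ((k : ℝ) + 1) - (a * u + (1 - a) * v)) * ek a u v (k + 1) -
      u * v * ((k : ℝ) - 1) * ek a u v k := by
  have h := congrArg (coeff (k + 1)) (E_ode a u v)
  set E := bs a u * bs (1 - a) v with hE
  have hek : ∀ j, coeff j E = ek a u v j := fun j => rfl
  have eC1 : (C (u + v) : ℝ⟦X⟧) = C u + C v := map_add _ _ _
  have eC2 : (C (u * v) : ℝ⟦X⟧) = C u * C v := map_mul _ _ _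
  have eL : (1 - C u * X) * (1 - C v * X) * d⁄dX ℝ E =
      d⁄dX ℝ E - C (u + v) * (X * d⁄dX ℝ E) + C (u * v) * (X * (X * d⁄dX ℝ E)) := by
    rw [eC1, eC2]; ring
  have eR : (C (u * v) * X - C (a * u + (1 - a) * v)) * E =
      C (u * v) * (X * E) - C (a * u + (1 - a) * v) * E := by ring
  rw [eL, eR] at h
  rw [map_add, map_sub, map_sub, coeff_C_mul, coeff_C_mul, coeff_C_mul, coeff_C_mul,
    coeff_succ_X_mul, coeff_succ_X_mul, coeff_succ_X_mul, coeff_derivative, coeff_derivative] at h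
  rw [hek, hek, hek] at h
  have h2 : coeff k (X * d⁄dX ℝ E) = (k : ℝ) * ek a u v k := by
    rcases k with _ | k
    · rw [coeff_zero_X_mul]; simp
    · rw [coeff_succ_X_mul, coeff_derivative, hek]; push_cast; ring
  rw [h2] at h
  push_cast at h
  rw [show k + 1 + 1 = k + 2 by ring] at h
  linarith

lemma ek_two (a u v : ℝ) : -ek a u v 2 = a * (1 - a) * (u - v) ^ 2 / 2 := by
  have h := ek_succ a u v 0
  rw [zero_add, ek_one, ek_zero] at h
  push_cast at h
  linarith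

lemma ek_bounds {a u v : ℝ} (ha0 : 0 < a) (ha1 : a < 1) (hv : 0 < v) (huv : v ≤ u) (k : ℕ) :
    0 ≤ -ek a u v (k + 2) ∧ v * (-ek a u v (k + 2)) ≤ -ek a u v (k + 3) ∧
      -ek a u v (k + 3) ≤ 2 * u * (-ek a u v (k + 2)) := by
  have hu : 0 < u := lt_of_lt_of_le hv huv
  induction k with
  | zero =>
    have h2 := ek_two a u v
    have h3 := ek_succ a u v 1
    push_cast at h3
    have h5 : 0 ≤ -ek a u v 2 := by
      rw [h2]
      have : 0 ≤ a * (1 - a) := mul_nonneg ha0.le (by linarith)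
      positivity
    rw [show 0 + 2 = 2 by norm_num, show 0 + 3 = 3 by norm_num]
    set g2 := -ek a u v 2 with hg2
    set g3 := -ek a u v 3 with hg3
    have h6 : 3 * g3 = ((2 - a) * u + (1 + a) * v) * g2 := by
      rw [hg2, hg3]; linarith
    have h7 : 0 ≤ (2 - a) * (u - v) * g2 :=
      mul_nonneg (mul_nonneg (by linarith) (by linarith)) h5
    have h8 : 0 ≤ (4 + a) * (u - v) * g2 + (3 : ℝ) * v * g2 := by
      have : 0 ≤ (4 + a) * (u - v) * g2 :=
        mul_nonneg (mul_nonneg (by linarith) (by linarith)) h5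
      have : 0 ≤ (3 : ℝ) * v * g2 := by positivity
      linarith
    refine ⟨h5, by linarith, ?_⟩
    have h9 : 0 ≤ (1 + a) * (u - v) * g2 :=
      mul_nonneg (mul_nonneg (by linarith) (by linarith)) h5
    have h10 : 0 ≤ u * g2 := mul_nonneg hu.le h5
    linarith
  | succ k ih =>
    obtain ⟨h1, h2, h3⟩ := ih
    have e1 : k + 1 + 2 = k + 3 := by ring
    have e2 : k + 1 + 3 = k + 4 := by ring
    rw [e1, e2]
    have h4 := ek_succ a u v (k + 2)
    push_cast at h4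
    have e3 : k + 2 + 2 = k + 4 := by ring
    have e4 : k + 2 + 1 = k + 3 := by ring
    rw [e3, e4] at h4
    have hk : (0 : ℝ) ≤ k := Nat.cast_nonneg k
    set g2 := -ek a u v (k + 2) with hg2
    set g3 := -ek a u v (k + 3) with hg3
    set g4 := -ek a u v (k + 4) with hg4
    have h5 : ((k : ℝ) + 4) * g4 = ((u + v) * ((k : ℝ) + 3) - (a * u + (1 - a) * v)) * g3 -
        u * v * ((k : ℝ) + 1) * g2 := by
      rw [hg2, hg3, hg4]; linarith
    have h6 : 0 ≤ g3 := le_trans (mul_nonneg hv.le h1) h2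
    have h7 : u * ((k : ℝ) + 1) * (v * g2) ≤ u * ((k : ℝ) + 1) * g3 :=
      mul_le_mul_of_nonneg_left h2 (by positivity)
    have hk4 : (0 : ℝ) < (k : ℝ) + 4 := by linarith
    have h8 : 0 ≤ (2 - a) * (u - v) * g3 :=
      mul_nonneg (mul_nonneg (by linarith) (by linarith)) h6
    refine ⟨h6, ?_, ?_⟩
    · apply le_of_mul_le_mul_left _ hk4
      rw [h5]
      have e5 : u * v * ((k : ℝ) + 1) * g2 = u * ((k : ℝ) + 1) * (v * g2) := by ring
      rw [e5]
      have e6 : ((u + v) * ((k : ℝ) + 3) - (a * u + (1 - a) * v)) * g3 -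
          u * ((k : ℝ) + 1) * g3 = ((k : ℝ) + 4) * (v * g3) + (2 - a) * (u - v) * g3 := by ring
      linarith
    · apply le_of_mul_le_mul_left _ hk4
      rw [h5]
      have h9 : 0 ≤ u * v * ((k : ℝ) + 1) * g2 := by positivity
      have h10 : 0 ≤ (u - v) * ((k : ℝ) + 3) * g3 :=
        mul_nonneg (mul_nonneg (by linarith) (by linarith)) h6
      have h11 : 0 ≤ (a * u + (1 - a) * v) * g3 := by
        have : 0 ≤ (1 - a) * v := mul_nonneg (by linarith) hv.le
        positivity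
      have h12 : 0 ≤ u * g3 := mul_nonneg hu.le h6
      have e7 : ((k : ℝ) + 4) * (2 * u * g3) - (u + v) * ((k : ℝ) + 3) * g3 =
          (u - v) * ((k : ℝ) + 3) * g3 + 2 * (u * g3) := by ring
      have e8 : ((u + v) * ((k : ℝ) + 3) - (a * u + (1 - a) * v)) * g3 =
          (u + v) * ((k : ℝ) + 3) * g3 - (a * u + (1 - a) * v) * g3 := by ring
      rw [e8]
      linarith

lemma ek_le {a u v : ℝ} (ha0 : 0 < a) (ha1 : a < 1) (hv : 0 < v) (huv : v ≤ u) (k l : ℕ) :
    |ek a u v (k + 2 + l)| ≤ (2 * u) ^ l * |ek a u v (k + 2)| := by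
  have hu : 0 < u := lt_of_lt_of_le hv huv
  induction l with
  | zero => simp
  | succ l ih =>
    have h := ek_bounds ha0 ha1 hv huv (k + l)
    have e1 : k + 2 + (l + 1) = k + l + 3 := by ring
    have e2 : k + 2 + l = k + l + 2 := by ring
    have h0 : ek a u v (k + l + 2) ≤ 0 := by linarith [h.1]
    have h0' : ek a u v (k + l + 3) ≤ 0 := by
      have := mul_nonneg hv.le h.1
      linarith [h.2.1]
    rw [e1, abs_of_nonpos h0', pow_succ]
    rw [e2, abs_of_nonpos h0] at ih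
    calc -ek a u v (k + l + 3) ≤ 2 * u * (-ek a u v (k + l + 2)) := h.2.2
      _ ≤ 2 * u * ((2 * u) ^ l * |ek a u v (k + 2)|) := by gcongr
      _ = _ := by ring

lemma ek_pos {a u v : ℝ} (ha0 : 0 < a) (ha1 : a < 1) (hv : 0 < v) (huv : v < u) (k : ℕ) :
    0 < -ek a u v (k + 2) := by
  induction k with
  | zero =>
    rw [zero_add, ek_two]
    have h1 : 0 < a * (1 - a) := mul_pos ha0 (by linarith)
    have h2 : 0 < (u - v) ^ 2 := by
      have : 0 < u - v := by linarith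
      positivity
    positivity
  | succ k ih =>
    have h := (ek_bounds ha0 ha1 hv huv.le k).2.1
    have := mul_pos hv ih
    rw [show k + 1 + 2 = k + 3 by ring]
    linarith

lemma ek_upper {a u v : ℝ} (ha0 : 0 < a) (ha1 : a < 1) (hv : 0 < v) (huv : v ≤ u) (k : ℕ) :
    |ek a u v (k + 2)| ≤ (2 * u) ^ k * u ^ 2 := by
  have hu : 0 < u := lt_of_lt_of_le hv huv
  have h := ek_le ha0 ha1 hv huv 0 k
  rw [zero_add, add_comm 2 k] at h
  refine h.trans (mul_le_mul_of_nonneg_left ?_ (by positivity))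
  have h3 := (ek_bounds ha0 ha1 hv huv 0).1
  rw [zero_add] at h3
  rw [abs_of_nonpos (by linarith), ek_two]
  have h4 : a * (1 - a) ≤ 1 := by nlinarith
  have h5 : (u - v) ^ 2 ≤ u ^ 2 := by nlinarith
  have h6 : a * (1 - a) * (u - v) ^ 2 ≤ 1 * u ^ 2 :=
    mul_le_mul h4 h5 (by positivity) (by norm_num)
  nlinarith [sq_nonneg u]

/-! ### values -/

lemma hasSum_E {m : ℕ} (hm : 2 ≤ m) (u v : ℝ) (z : ℂ) (hu : ‖(u : ℂ) * z‖ < 1)
    (hv : ‖(v : ℂ) * z‖ < 1) : HasSum (fun k => ((ek (al m : ℝ) u v k : ℝ) : ℂ) * z ^ k)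
      ((1 - u * z) ^ (al m : ℂ) * (1 - v * z) ^ ((m : ℂ)⁻¹)) := by
  have h1 := hasSum_binom (al m : ℂ) (z := -((u : ℂ) * z)) (by rwa [norm_neg])
  have h2 := hasSum_binom ((m : ℂ)⁻¹) (z := -((v : ℂ) * z)) (by rwa [norm_neg])
  have s1 := h1.summable.norm
  have s2 := h2.summable.norm
  have h3 := tsum_mul_tsum_eq_tsum_sum_antidiagonal_of_summable_norm s1 s2
  have s3 := (summable_norm_sum_mul_antidiagonal_of_summable_norm s1 s2).of_norm
  have h4 := s3.hasSum
  rw [← h3, h1.tsum_eq, h2.tsum_eq, ← sub_eq_add_neg, ← sub_eq_add_neg] at h4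
  refine h4.congr_fun ?_
  intro k
  rw [ek, PowerSeries.coeff_mul]
  push_cast
  rw [sum_mul]
  refine sum_congr rfl fun ij hij => ?_
  have hij' : ij.1 + ij.2 = k := mem_antidiagonal.mp hij
  rw [coeff_bs, coeff_bs, ← hij']
  have e2 : (1 : ℂ) - (al m : ℂ) = (m : ℂ)⁻¹ := by
    rw [al]
    push_cast
    ring
  push_cast
  rw [e2, pow_add]
  ring

/-- **The first linear form.** -/
theorem first {m : ℕ} (hm : 2 ≤ m) (R : Finset ℂ) {c : ℕ → ℂ} {H : ℝ} (hR : 3 ≤ R.card)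
    (hH : 1 ≤ H) (hE : Eqn R c H) (σ : ℂ) (hσ : ‖σ‖ = 1) (u v : ℝ) (hv : 0 < v) (huv : v < u)
    (hu : 6 * R.card * H * u ≤ 1) :
    ∑ θ ∈ R, (1 - u * (σ * θ)) ^ (al m : ℂ) * (1 - v * (σ * θ)) ^ ((m : ℂ)⁻¹) / GP.Wt R θ ≠ 0 ∧
      ‖∑ θ ∈ R, (1 - u * (σ * θ)) ^ (al m : ℂ) * (1 - v * (σ * θ)) ^ ((m : ℂ)⁻¹) / GP.Wt R θ‖ ≤
        2 ^ R.card * u ^ (R.card - 1) := by
  have hu0 : 0 < u := hv.trans huv
  have hd : (3 : ℝ) ≤ R.card := by exact_mod_cast hR
  have hdH : (0 : ℝ) < R.card * H := by positivity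
  have ha0 : (0 : ℝ) < (al m : ℝ) := by exact_mod_cast al_pos hm
  have ha1 : ((al m : ℚ) : ℝ) < 1 := by exact_mod_cast al_lt hm
  have hlt : ∀ θ ∈ R, ‖(u : ℂ) * (σ * θ)‖ < 1 := by
    intro θ hθ
    have h1 := GP.root_bound hH hE hθ
    rw [norm_mul, norm_mul, hσ, one_mul, Complex.norm_real, Real.norm_eq_abs, abs_of_pos hu0]
    have := mul_le_mul_of_nonneg_left h1 hu0.le
    nlinarith
  have hltv : ∀ θ ∈ R, ‖(v : ℂ) * (σ * θ)‖ < 1 := by
    intro θ hθ
    refine lt_of_le_of_lt ?_ (hlt θ hθ)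
    simp only [norm_mul, Complex.norm_real, Real.norm_eq_abs, abs_of_pos hu0, abs_of_pos hv]
    exact mul_le_mul_of_nonneg_right huv.le (by positivity)
  obtain ⟨n, hnd⟩ : ∃ n, R.card = n + 3 := ⟨R.card - 3, by omega⟩
  set e : ℕ → ℝ := ek (al m : ℝ) u v with he
  set g : ℕ → ℂ := fun k => (e k : ℂ) * (σ ^ k * rr R k) with hg
  have hsum : HasSum g (∑ θ ∈ R, (1 - u * (σ * θ)) ^ (al m : ℂ) *
      (1 - v * (σ * θ)) ^ ((m : ℂ)⁻¹) / GP.Wt R θ) := by
    have h1 : ∀ θ ∈ R, HasSum (fun k => (e k : ℂ) * (σ * θ) ^ k / GP.Wt R θ)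
        ((1 - u * (σ * θ)) ^ (al m : ℂ) * (1 - v * (σ * θ)) ^ ((m : ℂ)⁻¹) / GP.Wt R θ) :=
      fun θ hθ => (hasSum_E hm u v (σ * θ) (hlt θ hθ) (hltv θ hθ)).div_const _
    refine (hasSum_sum h1).congr_fun ?_
    intro k
    simp only [hg]
    rw [rr, mul_sum, mul_sum]
    refine sum_congr rfl fun θ _ => ?_
    rw [mul_pow]; ring
  have h0 : ∑ k ∈ range (n + 2), g k = 0 := by
    refine sum_eq_zero fun k hk => ?_
    have := mem_range.mp hk
    simp only [hg]
    rw [rr_lt (by omega), mul_zero, mul_zero]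
  have h1 : g (n + 2) = (e (n + 2) : ℂ) * σ ^ (n + 2) := by
    simp only [hg]
    rw [rr_eq (by omega), mul_one]
  have hs2 := (hasSum_nat_add_iff' (n + 3)).mpr hsum
  rw [sum_range_succ, h0, zero_add] at hs2
  set S := ∑ θ ∈ R, (1 - u * (σ * θ)) ^ (al m : ℂ) *
      (1 - v * (σ * θ)) ^ ((m : ℂ)⁻¹) / GP.Wt R θ with hS
  set r : ℝ := |e (n + 2)| with hr
  have hr0 : 0 < r := by
    rw [hr, abs_pos]
    have := ek_pos ha0 ha1 hv huv n
    intro h
    rw [he] at h
    linarith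
  have hx : 2 * u * (R.card * H) ≤ 1 / 3 := by nlinarith
  have hx0 : 0 ≤ 2 * u * (R.card * H) := by positivity
  have hb : ∀ l, ‖g (l + (n + 3))‖ ≤ r * (1 / 3) * (1 / 3) ^ l := by
    intro l
    simp only [hg]
    rw [norm_mul, norm_mul, norm_pow, hσ, one_pow, one_mul, Complex.norm_real, Real.norm_eq_abs]
    have h2 := ek_le ha0 ha1 hv huv.le n (l + 1)
    have h3 := rr_bound (by omega) hH hE (l + 1)
    rw [show n + 2 + (l + 1) = l + (n + 3) by ring] at h2
    rw [show R.card - 1 + (l + 1) = l + (n + 3) by omega] at h3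
    calc |e (l + (n + 3))| * ‖rr R (l + (n + 3))‖
        ≤ ((2 * u) ^ (l + 1) * r) * (R.card * H) ^ (l + 1) :=
          mul_le_mul h2 h3 (norm_nonneg _) (by positivity)
      _ = r * (2 * u * (R.card * H)) ^ (l + 1) := by rw [mul_pow (2 * u) (R.card * H)]; ring
      _ ≤ r * (1 / 3) ^ (l + 1) :=
          mul_le_mul_of_nonneg_left (pow_le_pow_left₀ hx0 hx _) hr0.le
      _ = _ := by rw [pow_succ]; ring
  have hgeo : HasSum (fun l : ℕ => r * (1 / 3) * (1 / 3 : ℝ) ^ l) (r * (1 / 3) * (1 - 1 / 3)⁻¹) :=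
    (hasSum_geometric_of_lt_one (by norm_num) (by norm_num)).mul_left _
  have hrem : ‖S - g (n + 2)‖ ≤ r / 2 := by
    rw [← hs2.tsum_eq]
    refine (tsum_of_norm_bounded hgeo hb).trans ?_
    norm_num
    linarith
  have hgn : ‖g (n + 2)‖ = r := by
    rw [h1, norm_mul, norm_pow, hσ, one_pow, mul_one, Complex.norm_real, Real.norm_eq_abs]
  constructor
  · intro hS0
    rw [hS0, zero_sub, norm_neg, hgn] at hrem
    linarith
  · have h2 : ‖S‖ ≤ ‖S - g (n + 2)‖ + ‖g (n + 2)‖ := by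
      have := norm_add_le (S - g (n + 2)) (g (n + 2))
      rwa [sub_add_cancel] at this
    have h3 : r ≤ (2 * u) ^ n * u ^ 2 := ek_upper ha0 ha1 hv huv.le n
    have h4 : 0 ≤ (2 * u) ^ n * u ^ 2 := by positivity
    have h5 : (2 : ℝ) ^ R.card * u ^ (R.card - 1) = 8 * ((2 * u) ^ n * u ^ 2) := by
      rw [hnd, show n + 3 - 1 = n + 2 by omega, mul_pow]
      ring
    rw [h5]
    linarith

end Pool.Agent.U133.SE
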