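import Pool.Agent.U133.SE.Near

set_option autoImplicit false

/-!
# Preparations
-/

namespace Pool.Agent.U133.SE

open Finset Pool.Agent.U133.HP

open Pool.Agent.U133.GP (Rt mem_Rt card_Rt prod_Rt deriv_Rt Wt)

/-- the rationality of the linear forms -/
lemma rat_pow (m : ℕ) {f : Polynomial ℤ} (hf : f ≠ 0)
    (hs : (Polynomial.map (Int.castRingHom ℚ) f).Separable) (P : Polynomial ℚ) (x₀ : ℤ)
    (hx₀ : f.eval x₀ ≠ 0) (k : ℕ) (g : ℂ → ℂ) (c : ℂ) (q₁ : ℚ) (hq₁ : q₁ ≠ 0)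
    (hc : c ^ m = q₁)
    (h : ∀ θ ∈ Rt f, Polynomial.aeval θ P = c * (((x₀ : ℂ) - θ) ^ k * g θ)) :
    ∃ q : ℚ, (∑ θ ∈ Rt f, g θ / Wt (Rt f) θ) ^ m = (q : ℂ) := by
  set F := f.map (Int.castRingHom ℚ) with hF
  have hF0 : F ≠ 0 := (Polynomial.map_ne_zero_iff (RingHom.injective_int _)).mpr hf
  have hFx : F.eval (x₀ : ℚ) ≠ 0 := by
    have : F.eval (x₀ : ℚ) = ((f.eval x₀ : ℤ) : ℚ) := by
      have := Polynomial.eval_intCast_map (Int.castRingHom ℚ) f x₀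
      rw [hF]
      simpa using this
    rw [this]
    exact_mod_cast hx₀
  have hFθ : ∀ θ ∈ Rt f, Polynomial.aeval θ F = 0 := by
    intro θ hθ
    rw [← (mem_Rt hf).mp hθ, Polynomial.aeval_def, Polynomial.aeval_def, hF,
      Polynomial.eval₂_map]
    congr 1
  set Q := F /ₘ (Polynomial.X - Polynomial.C (x₀ : ℚ)) with hQ
  have hdiv : F = Polynomial.C (F.eval (x₀ : ℚ)) +
      (Polynomial.X - Polynomial.C (x₀ : ℚ)) * Q := by
    rw [← Polynomial.modByMonic_X_sub_C_eq_C_eval, hQ, Polynomial.modByMonic_add_div]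
  set N : Polynomial ℚ := Polynomial.C (F.eval (x₀ : ℚ))⁻¹ * Q with hNdef
  have hN : ∀ θ ∈ Rt f, Polynomial.aeval θ N * ((x₀ : ℂ) - θ) = 1 := by
    intro θ hθ
    have h1 := hFθ θ hθ
    rw [hdiv] at h1
    simp only [map_add, map_mul, map_sub, Polynomial.aeval_C, Polynomial.aeval_X] at h1
    have h2 : ((F.eval (x₀ : ℚ) : ℚ) : ℂ) ≠ 0 := by exact_mod_cast hFx
    simp only [eq_ratCast, Rat.cast_intCast] at h1
    rw [hNdef, map_mul, Polynomial.aeval_C, eq_ratCast, Rat.cast_inv]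
    have h3 : Polynomial.aeval θ Q * ((x₀ : ℂ) - θ) = ((F.eval (x₀ : ℚ) : ℚ) : ℂ) := by
      linear_combination -h1
    rw [mul_assoc, h3, inv_mul_cancel₀ h2]
  set Gp := (P * N ^ k) % F with hG
  have hGθ : ∀ θ ∈ Rt f, Polynomial.aeval θ Gp = c * g θ := by
    intro θ hθ
    have h1 : Gp = P * N ^ k - F * ((P * N ^ k) / F) := by
      rw [hG, EuclideanDomain.mod_eq_sub_mul_div]
    have h2 : Polynomial.aeval θ N ^ k * ((x₀ : ℂ) - θ) ^ k = 1 := by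
      rw [← mul_pow, hN θ hθ, one_pow]
    rw [h1, map_sub, map_mul (Polynomial.aeval θ) P, map_mul (Polynomial.aeval θ) F, hFθ θ hθ,
      zero_mul, sub_zero, h θ hθ, map_pow]
    linear_combination (c * g θ) * h2
  have hcard : (Rt f).card = f.natDegree := card_Rt hs
  have hFd : F.natDegree = f.natDegree :=
    Polynomial.natDegree_map_eq_of_injective (RingHom.injective_int _) f
  have hdeg : (Gp.map (algebraMap ℚ ℂ)).degree < (Rt f).card := by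
    rw [Polynomial.degree_map]
    refine (EuclideanDomain.mod_lt _ hF0).trans_le ?_
    rw [hcard, ← hFd]
    exact Polynomial.degree_le_natDegree
  have hco := GP.coeff_eq (Gp.map (algebraMap ℚ ℂ)) hdeg
  rw [Polynomial.coeff_map] at hco
  have hsum : ∑ θ ∈ Rt f, (Gp.map (algebraMap ℚ ℂ)).eval θ / Wt (Rt f) θ =
      c * ∑ θ ∈ Rt f, g θ / Wt (Rt f) θ := by
    rw [mul_sum]
    refine sum_congr rfl fun θ hθ => ?_
    rw [Polynomial.eval_map, ← Polynomial.aeval_def, hGθ θ hθ, mul_div_assoc]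
  rw [hsum, eq_ratCast] at hco
  refine ⟨(Gp.coeff ((Rt f).card - 1)) ^ m / q₁, ?_⟩
  push_cast
  have hqC : (q₁ : ℂ) ≠ 0 := by exact_mod_cast hq₁
  rw [hco, mul_pow, hc]
  field_simp

lemma order_arith (m d μ : ℕ) (hm : 2 ≤ m) (hmd : 3 ≤ (m - 1) * (d - 2)) (hμ : 4 ≤ μ) :
    ∃ n : ℕ, 1 ≤ n ∧ 2 * (m - 1 + (μ + 1) + m * n) + n ≤ 2 * (m * (d * n)) ∧
      2 * (m - 1 + m * n) + n ≤ 2 * ((m - 1) * μ) := by
  have hd3 : 3 ≤ d := by
    by_contra hcon
    push Not at hcon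
    rw [show d - 2 = 0 by omega, mul_zero] at hmd
    omega
  rcases Nat.lt_or_ge m 3 with h | h
  · obtain rfl : m = 2 := by omega
    have hd5 : 5 ≤ d := by omega
    refine ⟨μ / 3, by omega, ?_, by omega⟩
    have h3 : 5 * (μ / 3) ≤ d * (μ / 3) := Nat.mul_le_mul_right _ hd5
    omega
  rcases Nat.lt_or_ge m 4 with h' | h'
  · obtain rfl : m = 3 := by omega
    have hd4 : 4 ≤ d := by omega
    refine ⟨μ / 3, by omega, ?_, by omega⟩
    have h3 : 4 * (μ / 3) ≤ d * (μ / 3) := Nat.mul_le_mul_right _ hd4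
    omega
  obtain ⟨k, rfl⟩ : ∃ k, m = k + 4 := ⟨m - 4, by omega⟩
  set n := μ / 2 with hn
  have hn2 : 2 ≤ n := by omega
  have hkn : k * 2 ≤ k * n := Nat.mul_le_mul_left k hn2
  refine ⟨n, by omega, ?_, ?_⟩
  · have h3 : (k + 4) * (3 * n) ≤ (k + 4) * (d * n) :=
      Nat.mul_le_mul_left _ (Nat.mul_le_mul_right _ hd3)
    have h4 : (k + 4) * (3 * n) = 3 * (k * n) + 12 * n := by ring
    have h5 : (k + 4) * n = k * n + 4 * n := by ring
    rw [h5]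
    rw [h4] at h3
    omega
  · have h3 : (k + 4 - 1) * (2 * n) ≤ (k + 4 - 1) * μ := Nat.mul_le_mul_left _ (by omega)
    have h4 : (k + 4 - 1) * (2 * n) = 2 * (k * n) + 6 * n := by
      rw [show k + 4 - 1 = k + 3 by omega]; ring
    have h5 : (k + 4) * n = k * n + 4 * n := by ring
    rw [h5]
    rw [h4] at h3
    omega

/-- the choice of the order -/
lemma order {m d : ℕ} (hm : 2 ≤ m) (hmd : 3 ≤ (m - 1) * (d - 2)) {a b : ℝ} (ha : 2 ≤ a)
    (hb : a ^ 4 ≤ b) : ∃ n : ℕ, 1 ≤ n ∧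
    (a ^ (m - 1) * b * (a ^ n / a ^ (d * n)) ^ m) ^ 2 * a ^ n ≤ 1 ∧
    (a ^ (m - 1) * b * (a ^ n / b) ^ m) ^ 2 * a ^ n ≤ 1 := by
  have ha1 : 1 < a := by linarith
  have ha0 : 0 < a := by linarith
  have hb1 : 1 ≤ b := (one_le_pow₀ ha1.le).trans hb
  have hb0 : 0 < b := by linarith
  obtain ⟨μ, hm1, hm2⟩ := exists_nat_pow_near hb1 ha1
  have hm4 : 4 ≤ μ := by
    by_contra hcon
    push Not at hcon
    have h1 : a ^ (μ + 1) ≤ a ^ 4 := pow_le_pow_right₀ ha1.le (by omega)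
    linarith
  obtain ⟨n, hn, h1, h2⟩ := order_arith m d μ hm hmd hm4
  refine ⟨n, hn, ?_, ?_⟩
  · have e : a ^ (m - 1) * b * (a ^ n / a ^ (d * n)) ^ m =
        (a ^ (m - 1) * b * a ^ (m * n)) / a ^ (m * (d * n)) := by
      rw [div_pow, ← pow_mul, ← pow_mul, mul_comm n m, mul_comm (d * n) m]; ring
    rw [e, div_pow, div_mul_eq_mul_div, div_le_one (by positivity)]
    calc (a ^ (m - 1) * b * a ^ (m * n)) ^ 2 * a ^ n
        ≤ (a ^ (m - 1) * a ^ (μ + 1) * a ^ (m * n)) ^ 2 * a ^ n := by gcongr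
      _ = a ^ (2 * (m - 1 + (μ + 1) + m * n) + n) := by
          rw [← pow_add, ← pow_add, ← pow_mul, ← pow_add]; congr 1; ring
      _ ≤ a ^ (2 * (m * (d * n))) := pow_le_pow_right₀ ha1.le h1
      _ = _ := by rw [← pow_mul, mul_comm 2]
  · have e : a ^ (m - 1) * b * (a ^ n / b) ^ m = (a ^ (m - 1) * a ^ (m * n)) / b ^ (m - 1) := by
      have e1 : b ^ m = b ^ (m - 1) * b := by rw [← pow_succ]; congr 1; omega
      rw [div_pow, ← pow_mul, mul_comm n m, e1]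
      field_simp
    rw [e, div_pow, div_mul_eq_mul_div, div_le_one (by positivity)]
    calc (a ^ (m - 1) * a ^ (m * n)) ^ 2 * a ^ n = a ^ (2 * (m - 1 + m * n) + n) := by
          rw [← pow_add, ← pow_mul, ← pow_add]; congr 1; ring
      _ ≤ a ^ (2 * ((m - 1) * μ)) := pow_le_pow_right₀ ha1.le h2
      _ = ((a ^ μ) ^ (m - 1)) ^ 2 := by rw [← pow_mul, ← pow_mul]; congr 1; ring
      _ ≤ (b ^ (m - 1)) ^ 2 := by gcongr

/-- **Two integers at a small distance.** -/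
theorem contra1 {m : ℕ} (hm : 2 ≤ m) {f : Polynomial ℤ} (hf : f ≠ 0)
    (hs : (Polynomial.map (Int.castRingHom ℚ) f).Separable) (hd : 3 ≤ f.natDegree)
    (hmd : 3 ≤ (m - 1) * (f.natDegree - 2)) (H : ℕ) (hH : 1 ≤ H)
    (hfH : ∀ i, |f.coeff i| ≤ H)
    {G : ℝ} (hG4 : 4 ≤ G) (hmG : (m : ℝ) ^ 2 ≤ G)
    (hlG : |(f.leadingCoeff : ℝ)| ≤ G)
    (hE : |((Polynomial.resultant f (Polynomial.derivative f) f.natDegree
      (f.natDegree - 1) : ℤ) : ℝ)| * |(f.leadingCoeff : ℝ)| ^ f.natDegree ≤ G)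
    (x y : ℤ) (σ a b : ℝ) (hσ : σ ^ 2 = 1) (hx : (x : ℝ) = σ * a) (hy : (y : ℝ) = σ * b)
    (ha1 : 1 ≤ a) (hab : a < b) (hb4 : b ≤ a ^ 4) (h6 : 6 * f.natDegree * H * (1 / a) ≤ 1)
    (ha : G ^ (2 * (m * (4 * f.natDegree + 33) + 1)) ≤ a)
    (hrat : ∀ P : Polynomial ℚ, ∃ q : ℚ,
      (∑ θ ∈ Rt f, vv m x θ * ww m y θ * Polynomial.aeval θ P) ^ m = (q : ℂ)) : False := by
  set d := f.natDegree with hdd
  have hcard : (Rt f).card = d := card_Rt hs
  have hG1 : 1 ≤ G := by linarith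
  have hG0 : 0 < G := by linarith
  have ha0 : 0 < a := by linarith
  have hb0 : 0 < b := by linarith
  have hH1 : (1 : ℝ) ≤ H := by exact_mod_cast hH
  have hER := GP.eqn_Rt hs hf H hfH
  have hσa : |σ| = 1 := (pow_eq_one_iff_of_nonneg (abs_nonneg σ) two_ne_zero).mp
    (by rw [sq_abs, hσ])
  have hσn : ‖(σ : ℂ)‖ = 1 := by rw [Complex.norm_real, Real.norm_eq_abs, hσa]
  have hxa : |(x : ℝ)| = a := by rw [hx, abs_mul, hσa, one_mul, abs_of_pos ha0]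
  have hyb : |(y : ℝ)| = b := by rw [hy, abs_mul, hσa, one_mul, abs_of_pos hb0]
  have hxn : ‖(x : ℂ)‖ = a := by rw [Complex.norm_intCast]; exact hxa
  have hyn : ‖(y : ℂ)‖ = b := by rw [Complex.norm_intCast]; exact hyb
  have hx0 : (x : ℂ) ≠ 0 := by
    rw [← norm_pos_iff, hxn]; exact ha0
  have hy0 : (y : ℂ) ≠ 0 := by
    rw [← norm_pos_iff, hyn]; exact hb0
  have hdR : (3 : ℝ) ≤ d := by exact_mod_cast hd
  have hxne : ∀ θ ∈ Rt f, (x : ℂ) ≠ θ := by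
    intro θ hθ e
    have h1 := GP.root_bound hH1 hER hθ
    rw [← e, hxn, hcard] at h1
    rw [mul_one_div, div_le_one ha0] at h6
    have : 0 < (d : ℝ) * H := by positivity
    linarith
  have hσC : (σ : ℂ) ^ 2 = 1 := by exact_mod_cast hσ
  have haC : (a : ℂ) ≠ 0 := by exact_mod_cast ha0.ne'
  have hbC : (b : ℂ) ≠ 0 := by exact_mod_cast hb0.ne'
  have hσ0 : (σ : ℂ) ≠ 0 := by
    intro h; rw [h] at hσC; norm_num at hσC
  have hxC : (x : ℂ) = σ * a := by exact_mod_cast hx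
  have hyC : (y : ℂ) = σ * b := by exact_mod_cast hy
  have e1 : ∀ θ : ℂ, θ / x = ((1 / a : ℝ) : ℂ) * (σ * θ) := by
    intro θ
    rw [hxC]
    push_cast
    field_simp
    rw [hσC, mul_one]
  have e2 : ∀ θ : ℂ, θ / y = ((1 / b : ℝ) : ℂ) * (σ * θ) := by
    intro θ
    rw [hyC]
    push_cast
    field_simp
    rw [hσC, mul_one]
  have hv : 0 < 1 / b := by positivity
  have huv : 1 / b < 1 / a := one_div_lt_one_div_of_lt ha0 hab
  obtain ⟨hT0, hTle⟩ := first hm (Rt f) (by rw [hcard]; exact hd) hH1 hER (σ : ℂ) hσn (1 / a)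
    (1 / b) hv huv (by rw [hcard]; exact h6)
  have hTeq : ∑ θ ∈ Rt f, vv m x θ * ww m y θ * Ph m (Rt f) 0 x 0 θ =
      ∑ θ ∈ Rt f, (1 - ((1 / a : ℝ) : ℂ) * (σ * θ)) ^ (al m : ℂ) *
        (1 - ((1 / b : ℝ) : ℂ) * (σ * θ)) ^ ((m : ℂ)⁻¹) / Wt (Rt f) θ := by
    refine sum_congr rfl fun θ _ => ?_
    have hPh : Ph m (Rt f) 0 x 0 θ = (Wt (Rt f) θ)⁻¹ := by
      rw [Ph, pow_zero, map_one (tay θ), one_mul, zero_add, pow_one,
        PowerSeries.coeff_zero_eq_constantCoeff_apply, map_mul, PowerSeries.constantCoeff_inv,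
        qs_zero, ← PowerSeries.coeff_zero_eq_constantCoeff_apply, coeff_Ps, cc_zero]
      simp
    rw [hPh, vv, ww, e1, e2]
    exact (div_eq_mul_inv _ _).symm
  rw [← hTeq] at hT0 hTle
  rw [hcard] at hTle
  apply hT0
  refine form_zero hm hf hs (by omega) hG1 hmG hlG hE x y hx0 hy0 0 0 (by omega) hxne hrat ?_
  rw [hxa, hyb]
  set T := ∑ θ ∈ Rt f, vv m x θ * ww m y θ * Ph m (Rt f) 0 x 0 θ with hT
  have hmd4 : m + 4 ≤ m * (d - 1) := by
    obtain ⟨k, rfl⟩ : ∃ k, m = k + 1 := ⟨m - 1, by omega⟩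
    obtain ⟨e, he⟩ : ∃ e, d = e + 2 := ⟨d - 2, by omega⟩
    rw [he] at hmd ⊢
    rw [show k + 1 - 1 = k by omega, show e + 2 - 2 = e by omega] at hmd
    rw [show e + 2 - 1 = e + 1 by omega]
    have h1 : 1 ≤ e := by omega
    nlinarith
  have ht : ‖T‖ * a ^ (d - 1) ≤ 2 ^ d := by
    calc ‖T‖ * a ^ (d - 1) ≤ (2 ^ d * (1 / a) ^ (d - 1)) * a ^ (d - 1) :=
          mul_le_mul_of_nonneg_right hTle (by positivity)
      _ = 2 ^ d * ((1 / a) * a) ^ (d - 1) := by rw [mul_pow (1 / a) a]; ring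
      _ = _ := by rw [one_div, inv_mul_cancel₀ ha0.ne', one_pow, mul_one]
  set Y := (G ^ ((d + 6) * (0 + 1))) ^ m * (a ^ (m - 1) * b) * ‖T‖ ^ m with hY
  have hY0 : 0 ≤ Y := by positivity
  have h1 : Y * a ^ (m * (d - 1)) ≤ G ^ (m * (2 * d + 6)) * a ^ (m + 3) := by
    calc Y * a ^ (m * (d - 1)) = (G ^ ((d + 6) * (0 + 1))) ^ m * (a ^ (m - 1) * b) *
          (‖T‖ * a ^ (d - 1)) ^ m := by
          rw [hY, mul_pow ‖T‖, ← pow_mul a (d - 1) m, mul_comm (d - 1) m]; ring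
      _ ≤ (G ^ ((d + 6) * (0 + 1))) ^ m * (a ^ (m - 1) * a ^ 4) * (2 ^ d) ^ m := by gcongr
      _ ≤ (G ^ ((d + 6) * (0 + 1))) ^ m * (a ^ (m - 1) * a ^ 4) * (G ^ d) ^ m := by
          have : (2 : ℝ) ≤ G := by linarith
          gcongr
      _ = G ^ (m * (2 * d + 6)) * a ^ (m + 3) := by
          rw [← pow_add a, show m - 1 + 4 = m + 3 by omega, ← pow_mul, ← pow_mul]
          rw [show m * (2 * d + 6) = (d + 6) * (0 + 1) * m + d * m by ring, pow_add]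
          ring
  have h2 : Y * a ≤ G ^ (m * (2 * d + 6)) := by
    have h3 : a * a ^ (m + 3) ≤ a ^ (m * (d - 1)) := by
      rw [← pow_succ']
      exact pow_le_pow_right₀ ha1 (by omega)
    have h4 : Y * a * a ^ (m + 3) ≤ G ^ (m * (2 * d + 6)) * a ^ (m + 3) := by
      refine le_trans ?_ h1
      rw [mul_assoc]
      exact mul_le_mul_of_nonneg_left h3 hY0
    exact le_of_mul_le_mul_right h4 (by positivity)
  have h5 : G ^ (m * (2 * d + 6)) < a := by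
    refine lt_of_lt_of_le ?_ ha
    refine pow_lt_pow_right₀ (by linarith) ?_
    nlinarith
  by_contra hcon
  push Not at hcon
  have h6' : a ≤ Y * a := le_mul_of_one_le_left ha0.le hcon
  linarith

end Pool.Agent.U133.SE
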