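import Pool.Agent.U133.SE.Size
import Pool.Agent.U133.HP.Cst
import Pool.Agent.U133.HP.Two

set_option autoImplicit false

/-!
# Rationality of the coefficients
-/

namespace Pool.Agent.U133.SE

open Finset Pool.Agent.U133.HP

open Pool.Agent.U133.GP (Rt mem_Rt card_Rt prod_Rt deriv_Rt)

/-- **Rationality.** -/
theorem Ra_Ph {f : Polynomial ℤ} (m : ℕ) (hs : (Polynomial.map (Int.castRingHom ℚ) f).Separable) (hf : f ≠ 0) (n : ℕ) (x : ℤ)
    (hx : ∀ θ ∈ Rt f, (x : ℂ) ≠ θ) (i : ℕ) : Ra f (Ph m (Rt f) n x i) := by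
  have h1 : RaS f n (fun θ => tay θ ((Polynomial.X : Polynomial ℂ) ^ i)) := by
    intro k _
    refine (Ra_poly (f := f) (Polynomial.C ((i.choose k : ℚ)) * Polynomial.X ^ (i - k))).congr
      fun θ _ => ?_
    rw [coeff_tay_pow]
    simp
  have h2 : RaS f n (fun θ => Ps m n ((x : ℂ) - θ)) := by
    intro k hk
    refine (Ra_poly (f := f) (Polynomial.C (cc m n k * (-1) ^ k) *
      (Polynomial.C (x : ℚ) - Polynomial.X) ^ (n - k))).congr fun θ hθ => ?_
    rw [coeff_Ps]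
    have hw : (x : ℂ) - θ ≠ 0 := sub_ne_zero.mpr (hx θ hθ)
    have h3 : ((x : ℂ) - θ) ^ n * ((x : ℂ) - θ)⁻¹ ^ k = ((x : ℂ) - θ) ^ (n - k) := by
      have : ((x : ℂ) - θ) ^ n = ((x : ℂ) - θ) ^ (n - k) * ((x : ℂ) - θ) ^ k := by
        rw [← pow_add]; congr 1; omega
      rw [this, mul_assoc, ← mul_pow, mul_inv_cancel₀ hw, one_pow, mul_one]
    rw [mul_assoc _ (((x : ℂ) - θ) ^ n), h3, map_mul, map_pow, map_sub, Polynomial.aeval_C,
      Polynomial.aeval_C, Polynomial.aeval_X]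
    simp
  have h3 : RaS f n (fun θ => (qs (Rt f) θ)⁻¹) := fun k _ => Ra_inv hs hf k
  exact ((h1.mul h2).mul (h3.pow (n + 1))) n le_rfl

end Pool.Agent.U133.SE
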