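import Pool.Agent.U133.SE.Anal
import Pool.Agent.U133.HP.Size

set_option autoImplicit false

/-!
# Sizes and integrality of the coefficients
-/

namespace Pool.Agent.U133.SE

open Finset Pool.Agent.U133.HP

lemma Ps_sn {m : ℕ} (hm : 2 ≤ m) (n : ℕ) {w : ℂ} (hw : 1 ≤ ‖w‖) {r : ℝ} (hr : 0 ≤ r) (hr2 : r ≤ 1 / 2) :
    sn r n (Ps m n w) ≤ 2 ^ (n + 1) * ‖w‖ ^ n := by
  calc sn r n (Ps m n w) ≤ ∑ k ∈ range (n + 1), 2 ^ n * ‖w‖ ^ n * (1 / 2) ^ k := by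
        refine sum_le_sum fun k _ => ?_
        rw [coeff_Ps, norm_mul, norm_mul, norm_mul, norm_pow, norm_neg, norm_one, one_pow, mul_one,
          norm_pow, norm_pow, norm_inv]
        have h3 : ‖((cc m n k : ℚ) : ℂ)‖ ≤ 2 ^ n := by
          have h4 := cc_le hm n k
          have h5 : ‖((cc m n k : ℚ) : ℂ)‖ = ((|cc m n k| : ℚ) : ℝ) := by
            rw [← Complex.ofReal_ratCast, Complex.norm_real, Real.norm_eq_abs]
            push_cast; rfl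
          rw [h5]
          exact_mod_cast h4
        have h6 : ‖w‖⁻¹ ^ k ≤ 1 := pow_le_one₀ (by positivity) (inv_le_one_of_one_le₀ hw)
        calc ‖((cc m n k : ℚ) : ℂ)‖ * ‖w‖ ^ n * ‖w‖⁻¹ ^ k * r ^ k
            ≤ 2 ^ n * ‖w‖ ^ n * 1 * (1 / 2) ^ k := by gcongr
          _ = _ := by ring
    _ = 2 ^ n * ‖w‖ ^ n * ∑ k ∈ range (n + 1), (1 / 2) ^ k := by rw [mul_sum]
    _ ≤ 2 ^ n * ‖w‖ ^ n * 2 := mul_le_mul_of_nonneg_left (half_sum n) (by positivity)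
    _ = _ := by ring

/-- **The size of the coefficients.** -/
theorem Ph_size {m : ℕ} (hm : 2 ≤ m) (R : Finset ℂ) (n : ℕ) (x : ℂ) (i : ℕ) {ρ G : ℝ} (h : ∀ θ ∈ R, ‖θ‖ ≤ ρ)
    (hG : 2 ≤ G) (hρG : (1 + 2 * ρ) ^ R.card ≤ G) (hi : i ≤ R.card)
    (hW : ∀ θ ∈ R, ‖(GP.Wt R θ)⁻¹‖ ≤ G) {θ : ℂ} (hθ : θ ∈ R) (hx : ρ + 1 ≤ ‖x‖) :
    ‖Ph m R n x i θ‖ ≤ G ^ (8 * (n + 1)) * ‖x‖ ^ n := by
  have hρ : 0 ≤ ρ := (norm_nonneg θ).trans (h θ hθ)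
  have hG0 : 0 < G := by linarith
  have hG1 : 1 ≤ G := by linarith
  set r : ℝ := 1 / (4 * G ^ 2) with hr
  have hr0 : 0 < r := by positivity
  have hr2 : r ≤ 1 / 2 := by
    rw [hr]
    apply one_div_le_one_div_of_le (by norm_num)
    nlinarith
  have h1 : ∀ k, ‖PowerSeries.coeff k (qs R θ)‖ ≤ G := fun k => (qs_size R h hθ k).trans hρG
  have h2 : ‖(PowerSeries.constantCoeff (qs R θ))⁻¹‖ ≤ G := by rw [qs_zero]; exact hW θ hθ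
  have h3 := inv_sn (qs_ne R θ) hG1 h2 h1 n
  have hw1 : 1 ≤ ‖x - θ‖ := by
    have := norm_sub_norm_le x θ
    have := h θ hθ
    linarith
  have hw2 : ‖x - θ‖ ≤ 2 * ‖x‖ := by
    have := norm_sub_le x θ
    have := h θ hθ
    linarith
  have h4 := Ps_sn hm n hw1 hr0.le hr2
  have h5 : sn r n (tay θ ((Polynomial.X : Polynomial ℂ) ^ i)) ≤ G := by
    rw [map_pow (tay θ), tay_X]
    refine (sn_pow hr0.le n _ i).trans ?_
    have h6 := sn_lin hr0.le n θ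
    have h7 := h θ hθ
    calc sn r n ((PowerSeries.X : PowerSeries ℂ) + (PowerSeries.C : ℂ →+* PowerSeries ℂ) θ) ^ i ≤ (1 + 2 * ρ) ^ i :=
          pow_le_pow_left₀ (sn_nonneg hr0.le n _) (by linarith) i
      _ ≤ (1 + 2 * ρ) ^ R.card := pow_le_pow_right₀ (by linarith) hi
      _ ≤ G := hρG
  have h6 : sn r n ((qs R θ)⁻¹ ^ (n + 1)) ≤ (2 * G) ^ (n + 1) :=
    (sn_pow hr0.le n _ _).trans (pow_le_pow_left₀ (sn_nonneg hr0.le n _) h3 _)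
  have h7 : ‖Ph m R n x i θ‖ * r ^ n ≤ G * (2 ^ (n + 1) * ‖x - θ‖ ^ n) * (2 * G) ^ (n + 1) := by
    refine (coeff_le_sn hr0.le n n le_rfl _).trans ?_
    refine (sn_mul hr0.le n _ _).trans ?_
    refine mul_le_mul ?_ h6 (sn_nonneg hr0.le n _) (by positivity)
    refine (sn_mul hr0.le n _ _).trans ?_
    exact mul_le_mul h5 h4 (sn_nonneg hr0.le n _) hG0.le
  have h8 : ‖Ph m R n x i θ‖ = (‖Ph m R n x i θ‖ * r ^ n) * (4 * G ^ 2) ^ n := by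
    rw [mul_assoc, ← mul_pow, hr, one_div, inv_mul_cancel₀ (by positivity), one_pow, mul_one]
  rw [h8]
  have h2G : 2 ^ (n + 1) ≤ G ^ (n + 1) := pow_le_pow_left₀ (by norm_num) hG _
  calc (‖Ph m R n x i θ‖ * r ^ n) * (4 * G ^ 2) ^ n
      ≤ (G * (2 ^ (n + 1) * ‖x - θ‖ ^ n) * (2 * G) ^ (n + 1)) * (4 * G ^ 2) ^ n :=
        mul_le_mul_of_nonneg_right h7 (by positivity)
    _ ≤ (G * (G ^ (n + 1) * (G * ‖x‖) ^ n) * (G ^ 2) ^ (n + 1)) * (G ^ 4) ^ n := by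
        have e1 : 2 * G ≤ G ^ 2 := by nlinarith
        have e2 : 4 * G ^ 2 ≤ G ^ 4 := by nlinarith [sq_nonneg (G ^ 2)]
        have e3 : ‖x - θ‖ ≤ G * ‖x‖ := hw2.trans (mul_le_mul_of_nonneg_right hG (norm_nonneg _))
        gcongr
    _ = G ^ (1 + (n + 1) + n + 2 * (n + 1) + 4 * n) * ‖x‖ ^ n := by
        rw [mul_pow, ← pow_mul, ← pow_mul]
        ring
    _ ≤ G ^ (8 * (n + 1)) * ‖x‖ ^ n := by
        refine mul_le_mul_of_nonneg_right ?_ (by positivity)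
        exact pow_le_pow_right₀ hG1 (by omega)

lemma Ic_Ps {m : ℕ} (hm : 2 ≤ m) (n : ℕ) {l w : ℂ} (hw0 : w ≠ 0) (hl : IsIntegral ℤ l) (hw : IsIntegral ℤ (l * w)) :
    Ic n (((m : ℂ) ^ 2) ^ n * l ^ n) (Ps m n w) := by
  intro k hk
  obtain ⟨z, hz⟩ := cc_int (by omega : 1 ≤ m) n k
  have hz' : (z : ℂ) = ((m : ℂ) ^ 2) ^ k * (cc m n k : ℂ) := by
    have := congrArg (fun q : ℚ => (q : ℂ)) hz
    push_cast at this
    exact this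
  rw [coeff_Ps]
  have e : ((m : ℂ) ^ 2) ^ n * l ^ n * ((cc m n k : ℂ) * (-1) ^ k * w ^ n * w⁻¹ ^ k) =
      (((((m : ℤ) ^ 2) ^ (n - k) * z * (-1) ^ k : ℤ)) : ℂ) * (l ^ k * (l * w) ^ (n - k)) := by
    have h1 : ((m : ℂ) ^ 2) ^ n = ((m : ℂ) ^ 2) ^ (n - k) * ((m : ℂ) ^ 2) ^ k := by rw [← pow_add]; congr 1; omega
    have h2 : l ^ n = l ^ k * l ^ (n - k) := by rw [← pow_add]; congr 1; omega
    have h3 : w ^ n * w⁻¹ ^ k = w ^ (n - k) := by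
      have : w ^ n = w ^ (n - k) * w ^ k := by rw [← pow_add]; congr 1; omega
      rw [this, mul_assoc, ← mul_pow, mul_inv_cancel₀ hw0, one_pow, mul_one]
    push_cast
    rw [hz', mul_pow, ← h3, h1, h2]
    ring
  rw [e]
  exact (int_cast_integral _).mul ((hl.pow _).mul (hw.pow _))

/-- **The denominator of the coefficients.** -/
theorem Ph_int {m : ℕ} (hm : 2 ≤ m) (R : Finset ℂ) (n : ℕ) (x : ℂ) (i : ℕ) (hi : i ≤ R.card) {l E : ℂ}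
    (hl : IsIntegral ℤ l) (hE : IsIntegral ℤ E) {θ : ℂ} (hxθ : x ≠ θ)
    (hx : IsIntegral ℤ x) (hlθ : IsIntegral ℤ (l * θ))
    (hW : IsIntegral ℤ (E * (GP.Wt R θ)⁻¹))
    (hq : ∀ k, IsIntegral ℤ (E * PowerSeries.coeff k (qs R θ))) :
    IsIntegral ℤ (l ^ R.card * (((m : ℂ) ^ 2) ^ n * l ^ n) * E ^ (3 * n + 1) * Ph m R n x i θ) := by
  have h1 := Ic_tay n hl hlθ hi
  have h2 := Ic_Ps hm n (sub_ne_zero.mpr hxθ) hl (by
    rw [mul_sub]; exact (hl.mul hx).sub hlθ)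
  have h3 : Iw E 1 (qs R θ)⁻¹ := Iw_inv (qs_ne R θ) hE (by rw [qs_zero]; exact hW) hq
  exact ((h1.mul h2).mul (Iw.Ic hE (h3.pow (n + 1)))) n le_rfl

end Pool.Agent.U133.SE
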