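import Pool.Agent.U133.SE.Ratl

set_option autoImplicit false

/-!
# The contradiction for two integers of a class
-/

namespace Pool.Agent.U133.SE

open Finset Pool.Agent.U133.HP

open Pool.Agent.U133.GP (Rt mem_Rt card_Rt prod_Rt deriv_Rt)

lemma int_zero' {Z : ℂ} {m : ℕ} (hm : 1 ≤ m) (hI : IsIntegral ℤ Z)
    (hq : ∃ q : ℚ, Z ^ m = (q : ℂ)) (h : ‖Z‖ ^ m < 1) : Z = 0 := by
  obtain ⟨w, hw⟩ := hq
  have hwI : IsIntegral ℤ w := by
    have h1 : IsIntegral ℤ (algebraMap ℚ ℂ w) := by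
      rw [eq_ratCast, ← hw]; exact hI.pow m
    exact (isIntegral_algebraMap_iff (algebraMap ℚ ℂ).injective).mp h1
  obtain ⟨z, hz⟩ := IsIntegrallyClosed.isIntegral_iff.mp hwI
  have hz' : (z : ℚ) = w := by simpa using hz
  have hzC : Z ^ m = (z : ℂ) := by
    rw [hw, ← hz']; push_cast; rfl
  have h2 : |(z : ℝ)| < 1 := by
    have h3 := congrArg norm hzC
    rw [norm_pow, Complex.norm_intCast] at h3
    rw [← h3]; exact h
  have hz0 : z = 0 := by
    have h1 : |z| < 1 := by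
      have : ((|z| : ℤ) : ℝ) < ((1 : ℤ) : ℝ) := by push_cast; exact h2
      exact_mod_cast this
    exact Int.abs_lt_one_iff.mp h1
  rw [hz0, Int.cast_zero] at hzC
  exact pow_eq_zero_iff (by omega : m ≠ 0) |>.mp hzC

/-! ### the branches -/

/-- the branch of `(1 - θ / x) ^ (1 / m)` near `1` -/
noncomputable def ww (m : ℕ) (x θ : ℂ) : ℂ := (1 - θ / x) ^ ((m : ℂ)⁻¹)

lemma ww_pow {m : ℕ} (hm : 2 ≤ m) {x θ : ℂ} : ww m x θ ^ m = 1 - θ / x := by
  rw [ww, Complex.cpow_nat_inv_pow _ (by omega : m ≠ 0)]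

lemma ww_pred {m : ℕ} (hm : 2 ≤ m) {x θ : ℂ} : ww m x θ ^ (m - 1) = vv m x θ := by
  have h0 : (m : ℂ) ≠ 0 := by exact_mod_cast (by omega : m ≠ 0)
  rw [ww, vv, ← Complex.cpow_nat_mul]
  congr 1
  rw [al, Nat.cast_sub (by omega)]
  push_cast
  field_simp

lemma binom_near {β : ℚ} (h0 : 0 ≤ β) (h1 : β ≤ 1) {z : ℂ} (hz : ‖z‖ ≤ 1 / 2) :
    ‖(1 + z) ^ (β : ℂ) - 1‖ ≤ 2 * ‖z‖ := by
  have hs := hasSum_binom (β : ℂ) (by linarith : ‖z‖ < 1)
  have hs1 := (hasSum_nat_add_iff' 1).mpr hs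
  rw [sum_range_one, Ring.choose_zero_right, pow_zero, mul_one] at hs1
  rw [← hs1.tsum_eq]
  have hg : HasSum (fun k : ℕ => ‖z‖ * ((1 : ℝ) / 2) ^ k) (‖z‖ * 2) :=
    hasSum_geometric_two.mul_left _
  refine (tsum_of_norm_bounded hg fun k => ?_).trans (by rw [mul_comm])
  have h2 : ‖Ring.choose (β : ℂ) (k + 1)‖ ≤ 1 := by
    have h3 := Ring.map_choose (algebraMap ℚ ℂ) β (k + 1)
    simp only [eq_ratCast] at h3
    have h4 := frac_le h0 h1 (k + 1)
    rw [← h3]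
    have h5 : ‖((Ring.choose β (k + 1) : ℚ) : ℂ)‖ = ((|Ring.choose β (k + 1)| : ℚ) : ℝ) := by
      rw [← Complex.ofReal_ratCast, Complex.norm_real, Real.norm_eq_abs]
      push_cast; rfl
    rw [h5]
    exact_mod_cast h4
  rw [norm_mul, norm_pow, pow_succ]
  calc ‖Ring.choose (β : ℂ) (k + 1)‖ * (‖z‖ ^ k * ‖z‖) ≤ 1 * ((1 / 2) ^ k * ‖z‖) := by
        gcongr
    _ = _ := by ring

lemma half_of {x θ : ℂ} (h : 2 * ‖θ‖ ≤ ‖x‖) (hx : x ≠ 0) : ‖-(θ / x)‖ ≤ 1 / 2 := by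
  have hx0 : 0 < ‖x‖ := norm_pos_iff.mpr hx
  rw [norm_neg, norm_div, div_le_iff₀ hx0]
  linarith

lemma vv_le {m : ℕ} (hm : 2 ≤ m) {x θ : ℂ} (h : 2 * ‖θ‖ ≤ ‖x‖) (hx : x ≠ 0) :
    ‖vv m x θ‖ ≤ 2 := by
  have h1 := half_of h hx
  have h2 := binom_near (al_pos hm).le (al_lt hm).le h1
  rw [← sub_eq_add_neg] at h2
  have h3 : ‖vv m x θ‖ ≤ ‖vv m x θ - 1‖ + 1 := by
    have := norm_add_le (vv m x θ - 1) 1
    rwa [sub_add_cancel, norm_one] at this
  rw [vv] at h3 ⊢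
  linarith

lemma ww_sub {m : ℕ} (hm : 2 ≤ m) {x θ : ℂ} (h : 2 * ‖θ‖ ≤ ‖x‖) (hx : x ≠ 0) :
    ‖ww m x θ - 1‖ ≤ 2 * (‖θ‖ / ‖x‖) := by
  have h1 := half_of h hx
  have hm0 : (0 : ℚ) < m := by exact_mod_cast (by omega : 0 < m)
  have hm1 : (1 : ℚ) ≤ m := by exact_mod_cast (by omega : 1 ≤ m)
  have h2 := binom_near (β := (m : ℚ)⁻¹) (by positivity) (inv_le_one_of_one_le₀ hm1) h1
  rw [← sub_eq_add_neg, norm_neg, norm_div] at h2
  push_cast at h2
  exact h2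

/-- **Small forms vanish.** -/
theorem form_zero {m : ℕ} (hm : 2 ≤ m) {f : Polynomial ℤ} (hf : f ≠ 0)
    (hs : (Polynomial.map (Int.castRingHom ℚ) f).Separable) (hd : 1 ≤ f.natDegree)
    {G : ℝ} (hG1 : 1 ≤ G) (hmG : (m : ℝ) ^ 2 ≤ G) (hlG : |(f.leadingCoeff : ℝ)| ≤ G)
    (hE : |((Polynomial.resultant f (Polynomial.derivative f) f.natDegree
      (f.natDegree - 1) : ℤ) : ℝ)| * |(f.leadingCoeff : ℝ)| ^ f.natDegree ≤ G)
    (x y : ℤ) (hx0 : (x : ℂ) ≠ 0) (hy0 : (y : ℂ) ≠ 0) (n i : ℕ) (hi : i < (Rt f).card)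
    (hxne : ∀ θ ∈ Rt f, (x : ℂ) ≠ θ)
    (hrat : ∀ P : Polynomial ℚ, ∃ q : ℚ,
      (∑ θ ∈ Rt f, vv m x θ * ww m y θ * Polynomial.aeval θ P) ^ m = (q : ℂ))
    (hsmall : (G ^ ((f.natDegree + 6) * (n + 1))) ^ m * (|(x : ℝ)| ^ (m - 1) * |(y : ℝ)|) *
      ‖∑ θ ∈ Rt f, vv m x θ * ww m y θ * Ph m (Rt f) n x i θ‖ ^ m < 1) :
    ∑ θ ∈ Rt f, vv m x θ * ww m y θ * Ph m (Rt f) n x i θ = 0 := by
  set d := f.natDegree with hdd
  have hcard : (Rt f).card = d := card_Rt hs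
  have hG0 : 0 < G := by linarith
  set l : ℂ := (f.leadingCoeff : ℂ) with hl
  have hln : ‖l‖ ≤ G := by rw [hl, Complex.norm_intCast]; exact hlG
  have hEn : ‖Ed f‖ ≤ G := by
    rw [Ed, norm_mul, norm_pow, Complex.norm_intCast, Complex.norm_intCast]; exact hE
  obtain ⟨s, hs2⟩ := IsAlgClosed.exists_pow_nat_eq ((x : ℂ) ^ (m - 1) * y) (n := m) (by omega)
  have hsn : ‖s‖ ^ m = |(x : ℝ)| ^ (m - 1) * |(y : ℝ)| := by
    rw [← norm_pow, hs2, norm_mul, norm_pow, Complex.norm_intCast, Complex.norm_intCast]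
  have hs0 : s ≠ 0 := by
    intro h
    rw [h, zero_pow (by omega)] at hs2
    exact mul_ne_zero (pow_ne_zero _ hx0) hy0 hs2.symm
  have hl0 : l ≠ 0 := by
    rw [hl]; exact_mod_cast (Polynomial.leadingCoeff_ne_zero.mpr hf)
  have hm0 : ((m : ℂ) ^ 2) ^ n ≠ 0 := by
    have : (m : ℂ) ≠ 0 := by exact_mod_cast (by omega : m ≠ 0)
    exact pow_ne_zero _ (pow_ne_zero _ this)
  set T := ∑ θ ∈ Rt f, vv m x θ * ww m y θ * Ph m (Rt f) n x i θ with hT
  set c₀ : ℂ := l ^ (Rt f).card * (((m : ℂ) ^ 2) ^ n * l ^ n) * Ed f ^ (3 * n + 1) with hc₀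
  set Z : ℂ := c₀ * (l * s) * T with hZ
  have hZI : IsIntegral ℤ Z := by
    have e : Z = ∑ θ ∈ Rt f, (c₀ * Ph m (Rt f) n x i θ) * (l * (s * (vv m x θ * ww m y θ))) := by
      rw [hZ, hT, mul_sum]
      refine sum_congr rfl fun θ _ => ?_
      ring
    rw [e]
    refine IsIntegral.sum _ fun θ hθ => ?_
    refine (Ph_int hm (Rt f) n x i hi.le (int_cast_integral _) (Ed_int f) (hxne θ hθ)
      (int_cast_integral _) (l_root hf hθ) (Ed_W hs hf hd hθ) (Ed_qs hs hf hd hθ)).mul ?_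
    apply IsIntegral.of_pow (n := m) (by omega)
    have e2 : (l * (s * (vv m x θ * ww m y θ))) ^ m =
        (l * x - l * θ) ^ (m - 1) * (l * y - l * θ) := by
      have e3 : (l : ℂ) ^ m = l ^ (m - 1) * l := by
        rw [← pow_succ]; congr 1; omega
      have e4 : l * x - l * θ = l * (x * (1 - θ / x)) := by field_simp
      have e5 : l * y - l * θ = l * (y * (1 - θ / y)) := by field_simp
      rw [mul_pow, mul_pow, mul_pow, hs2, vv_pow hm, ww_pow hm, e3, e4, e5, mul_pow l, mul_pow]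
      ring
    rw [e2]
    exact ((((int_cast_integral _).mul (int_cast_integral _)).sub (l_root hf hθ)).pow _).mul
      (((int_cast_integral _).mul (int_cast_integral _)).sub (l_root hf hθ))
  have hZq : ∃ q : ℚ, Z ^ m = (q : ℂ) := by
    obtain ⟨P, hP⟩ := Ra_Ph m hs hf n x hxne i
    obtain ⟨q, hq⟩ := hrat P
    have hT2 : T ^ m = (q : ℂ) := by
      rw [← hq, hT]
      congr 1
      exact sum_congr rfl fun θ hθ => by rw [hP θ hθ]
    refine ⟨((f.leadingCoeff : ℚ) ^ (Rt f).card * (((m : ℚ) ^ 2) ^ n * (f.leadingCoeff : ℚ) ^ n) *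
      (((Polynomial.resultant f (Polynomial.derivative f) f.natDegree
        (f.natDegree - 1) : ℤ) : ℚ) * (f.leadingCoeff : ℚ) ^ f.natDegree) ^ (3 * n + 1)) ^ m *
      ((f.leadingCoeff : ℚ) ^ m * (x ^ (m - 1) * y)) * q, ?_⟩
    rw [hZ, mul_pow, mul_pow, hT2, mul_pow l, hs2, hc₀, Ed, hl]
    push_cast
    ring
  have hcn : ‖c₀ * l‖ ≤ G ^ ((d + 6) * (n + 1)) := by
    rw [hc₀, hcard]
    have e : ‖l ^ d * (((m : ℂ) ^ 2) ^ n * l ^ n) * Ed f ^ (3 * n + 1) * l‖ =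
        ‖l‖ ^ d * (((m : ℝ) ^ 2) ^ n * ‖l‖ ^ n) * ‖Ed f‖ ^ (3 * n + 1) * ‖l‖ := by
      simp only [norm_mul, norm_pow, Complex.norm_natCast]
    rw [e]
    calc ‖l‖ ^ d * (((m : ℝ) ^ 2) ^ n * ‖l‖ ^ n) * ‖Ed f‖ ^ (3 * n + 1) * ‖l‖
        ≤ G ^ d * (G ^ n * G ^ n) * G ^ (3 * n + 1) * G := by gcongr
      _ = G ^ (d + (n + n) + (3 * n + 1) + 1) := by ring
      _ ≤ _ := pow_le_pow_right₀ hG1 (by nlinarith)
  have hZs : ‖Z‖ ^ m < 1 := by
    have e : ‖Z‖ ^ m = ‖c₀ * l‖ ^ m * (|(x : ℝ)| ^ (m - 1) * |(y : ℝ)|) * ‖T‖ ^ m := by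
      rw [hZ, ← mul_assoc, norm_mul, norm_mul, mul_pow, mul_pow, hsn]
    rw [e]
    refine lt_of_le_of_lt ?_ hsmall
    refine mul_le_mul_of_nonneg_right ?_ (by positivity)
    refine mul_le_mul_of_nonneg_right ?_ (by positivity)
    exact pow_le_pow_left₀ (norm_nonneg _) hcn m
  have hZ0 := int_zero' (by omega : 1 ≤ m) hZI hZq hZs
  rw [hZ] at hZ0
  have hc0 : c₀ ≠ 0 := by
    rw [hc₀]
    exact mul_ne_zero (mul_ne_zero (pow_ne_zero _ hl0) (mul_ne_zero hm0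
      (pow_ne_zero _ hl0))) (pow_ne_zero _ (Ed_ne hs hf hd))
  rcases mul_eq_zero.mp hZ0 with h | h
  · exact absurd h (mul_ne_zero hc0 (mul_ne_zero hl0 hs0))
  · exact h

/-- two integers at a large distance -/
theorem contra_core {m : ℕ} (hm : 2 ≤ m) {f : Polynomial ℤ} (hf : f ≠ 0)
    (hs : (Polynomial.map (Int.castRingHom ℚ) f).Separable) (hd : 1 ≤ f.natDegree)
    {G ρ : ℝ} (hG4 : 4 ≤ G) (hmG : (m : ℝ) ^ 2 ≤ G) (hdG : (f.natDegree : ℝ) ≤ G)
    (hρ : 1 / 2 ≤ ρ)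
    (hρG : (1 + 2 * ρ) ^ f.natDegree ≤ G) (hlG : |(f.leadingCoeff : ℝ)| ≤ G)
    (hroot : ∀ θ ∈ Rt f, ‖θ‖ ≤ ρ) (hW : ∀ θ ∈ Rt f, ‖(GP.Wt (Rt f) θ)⁻¹‖ ≤ G)
    (hE : |((Polynomial.resultant f (Polynomial.derivative f) f.natDegree
      (f.natDegree - 1) : ℤ) : ℝ)| * |(f.leadingCoeff : ℝ)| ^ f.natDegree ≤ G)
    (x y : ℤ) {a b : ℝ} (hxa : |(x : ℝ)| = a) (hyb : |(y : ℝ)| = b) (n : ℕ) (hn : 1 ≤ n)
    (haρ : 4 * ρ ≤ a) (hab : a ≤ b)
    (ht1 : (a ^ (m - 1) * b * (a ^ n / a ^ (f.natDegree * n)) ^ m) *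
      G ^ ((m * (4 * f.natDegree + 33) + 1) * n) ≤ 1)
    (ht2 : (a ^ (m - 1) * b * (a ^ n / b) ^ m) *
      G ^ ((m * (4 * f.natDegree + 33) + 1) * n) ≤ 1)
    (hrat : ∀ P : Polynomial ℚ, ∃ q : ℚ,
      (∑ θ ∈ Rt f, vv m x θ * ww m y θ * Polynomial.aeval θ P) ^ m = (q : ℂ)) : False := by
  set d := f.natDegree with hdd
  have hcard : (Rt f).card = d := card_Rt hs
  have hG1 : 1 ≤ G := by linarith
  have hG0 : 0 < G := by linarith
  have ha0 : 0 < a := by linarith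
  have ha1 : 1 ≤ a := by linarith
  have hb0 : 0 < b := by linarith
  have hxn : ‖(x : ℂ)‖ = a := by rw [Complex.norm_intCast]; exact hxa
  have hyn : ‖(y : ℂ)‖ = b := by rw [Complex.norm_intCast]; exact hyb
  have hltx : ∀ θ ∈ Rt f, ‖θ‖ < ‖(x : ℂ)‖ := fun θ h => by
    rw [hxn]; exact (hroot θ h).trans_lt (by linarith)
  have hlty : ∀ θ ∈ Rt f, ‖θ‖ < ‖(y : ℂ)‖ := fun θ h => by
    rw [hyn]; exact (hroot θ h).trans_lt (by linarith)
  have hxne : ∀ θ ∈ Rt f, (x : ℂ) ≠ θ := fun θ h e => by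
    have := hltx θ h
    rw [← e] at this
    exact lt_irrefl _ this
  have hx0 : (x : ℂ) ≠ 0 := by
    rw [← norm_pos_iff, hxn]; exact ha0
  have hy0 : (y : ℂ) ≠ 0 := by
    rw [← norm_pos_iff, hyn]; exact hb0
  -- all the linear forms vanish
  have hall : ∀ i < (Rt f).card,
      La m (Rt f) n x (fun θ => vv m x θ * ww m y θ) ((Polynomial.X : Polynomial ℂ) ^ i) = 0 := by
    intro i hi
    rw [La_pow_eq]
    refine form_zero hm hf hs hd hG1 hmG hlG hE x y hx0 hy0 n i hi hxne hrat ?_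
    set T := ∑ θ ∈ Rt f, vv m x θ * ww m y θ * Ph m (Rt f) n x i θ with hT
    have hTn : ‖T‖ ≤ G ^ ((d + 10) * (n + 1)) * (a ^ n / a ^ (d * n) + a ^ n / b) := by
      have h1 := rem_bound hm (Rt f) (by omega) n x hρ hroot (by rw [hxn]; exact haρ) i hi
      rw [hcard, hxn] at h1
      have e : T = (∑ θ ∈ Rt f, vv m x θ * Ph m (Rt f) n x i θ) +
          ∑ θ ∈ Rt f, vv m x θ * (ww m y θ - 1) * Ph m (Rt f) n x i θ := by
        rw [hT, ← sum_add_distrib]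
        exact sum_congr rfl fun θ _ => by ring
      have h2 : ‖∑ θ ∈ Rt f, vv m x θ * Ph m (Rt f) n x i θ‖ ≤
          G ^ ((d + 10) * (n + 1)) * (a ^ n / a ^ (d * n)) := by
        rw [← mul_div_assoc, le_div_iff₀ (by positivity)]
        refine h1.trans ?_
        refine mul_le_mul_of_nonneg_right ?_ (by positivity)
        calc (2 : ℝ) ^ (n + d * (n + 1) + 1) ≤ G ^ (n + d * (n + 1) + 1) :=
              pow_le_pow_left₀ (by norm_num) (by linarith) _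
          _ ≤ _ := pow_le_pow_right₀ hG1 (by nlinarith)
      have h3 : ‖∑ θ ∈ Rt f, vv m x θ * (ww m y θ - 1) * Ph m (Rt f) n x i θ‖ ≤
          G ^ ((d + 10) * (n + 1)) * (a ^ n / b) := by
        have h2ρ : 2 * ρ ≤ G := by
          have h4 : 1 + 2 * ρ ≤ (1 + 2 * ρ) ^ d := by
            have := pow_le_pow_right₀ (a := 1 + 2 * ρ) (by linarith) hd
            rwa [pow_one] at this
          linarith
        have h5 : ∀ θ ∈ Rt f, ‖vv m x θ * (ww m y θ - 1) * Ph m (Rt f) n x i θ‖ ≤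
            G ^ (8 * (n + 1) + 2) * (a ^ n / b) := by
          intro θ hθ
          have h6 := vv_le hm (x := (x : ℂ)) (θ := θ) (by
            rw [hxn]; linarith [hroot θ hθ]) hx0
          have h7 := ww_sub hm (x := (y : ℂ)) (θ := θ) (by
            rw [hyn]; linarith [hroot θ hθ]) hy0
          have h8 := Ph_size hm (Rt f) n x i hroot (by linarith : (2 : ℝ) ≤ G)
            (by rw [hcard]; exact hρG) hi.le hW hθ (by rw [hxn]; linarith)
          rw [hxn] at h8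
          rw [hyn] at h7
          have h9 : ‖ww m y θ - 1‖ ≤ 2 * (ρ / b) :=
            h7.trans (mul_le_mul_of_nonneg_left
              (div_le_div_of_nonneg_right (hroot θ hθ) hb0.le) (by norm_num))
          rw [norm_mul, norm_mul]
          calc ‖vv m x θ‖ * ‖ww m y θ - 1‖ * ‖Ph m (Rt f) n x i θ‖
              ≤ 2 * (2 * (ρ / b)) * (G ^ (8 * (n + 1)) * a ^ n) := by
                refine mul_le_mul (mul_le_mul h6 h9 (norm_nonneg _) (by norm_num)) h8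
                  (norm_nonneg _) (by positivity)
            _ = 2 * ((2 * ρ) * (G ^ (8 * (n + 1)) * (a ^ n / b))) := by ring
            _ ≤ G * (G * (G ^ (8 * (n + 1)) * (a ^ n / b))) := by
                refine mul_le_mul (by linarith) ?_ (by positivity) (by positivity)
                exact mul_le_mul_of_nonneg_right h2ρ (by positivity)
            _ = _ := by rw [pow_add]; ring
        refine (norm_sum_le_of_le _ h5).trans ?_
        rw [sum_const, hcard, nsmul_eq_mul]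
        calc (d : ℝ) * (G ^ (8 * (n + 1) + 2) * (a ^ n / b))
            ≤ G * (G ^ (8 * (n + 1) + 2) * (a ^ n / b)) :=
              mul_le_mul_of_nonneg_right hdG (by positivity)
          _ = G ^ (8 * (n + 1) + 3) * (a ^ n / b) := by
              rw [pow_succ G (8 * (n + 1) + 2)]; ring
          _ ≤ _ := by
              refine mul_le_mul_of_nonneg_right ?_ (by positivity)
              exact pow_le_pow_right₀ hG1 (by nlinarith)
      rw [e, mul_add]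
      exact (norm_add_le _ _).trans (add_le_add h2 h3)
    set t₁ := a ^ (m - 1) * b * (a ^ n / a ^ (d * n)) ^ m with ht₁
    set t₂ := a ^ (m - 1) * b * (a ^ n / b) ^ m with ht₂
    rw [hxa, hyb]
    set A := (d + 6) * (n + 1) with hA
    set B := (d + 10) * (n + 1) with hB
    have h2 : ‖T‖ ^ m ≤ (G ^ B * (a ^ n / a ^ (d * n) + a ^ n / b)) ^ m :=
      pow_le_pow_left₀ (norm_nonneg _) hTn m
    have h3 : (a ^ (m - 1) * b) * (a ^ n / a ^ (d * n) + a ^ n / b) ^ m ≤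
        2 ^ m * (t₁ + t₂) := by
      have h4 := add_pow_le (by positivity : 0 ≤ a ^ n / a ^ (d * n))
        (by positivity : 0 ≤ a ^ n / b) m
      have h5 : (2 : ℝ) ^ (m - 1) ≤ 2 ^ m := pow_le_pow_right₀ (by norm_num) (by omega)
      calc (a ^ (m - 1) * b) * (a ^ n / a ^ (d * n) + a ^ n / b) ^ m
          ≤ (a ^ (m - 1) * b) * (2 ^ (m - 1) * ((a ^ n / a ^ (d * n)) ^ m + (a ^ n / b) ^ m)) :=
            mul_le_mul_of_nonneg_left h4 (by positivity)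
        _ ≤ (a ^ (m - 1) * b) * (2 ^ m * ((a ^ n / a ^ (d * n)) ^ m + (a ^ n / b) ^ m)) := by
            refine mul_le_mul_of_nonneg_left ?_ (by positivity)
            exact mul_le_mul_of_nonneg_right h5 (by positivity)
        _ = _ := by rw [ht₁, ht₂]; ring
    have hexp : m * (A + B) + m + 1 ≤ (m * (4 * d + 33) + 1) * n := by
      rw [hA, hB]
      obtain ⟨k, rfl⟩ : ∃ k, n = k + 1 := ⟨n - 1, by omega⟩
      have e : (m * (4 * d + 33) + 1) * (k + 1) =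
          m * ((d + 6) * (k + 1 + 1) + (d + 10) * (k + 1 + 1)) + m + 1 +
            (2 * m * d * k + 17 * m * k + k) := by ring
      rw [e]
      exact Nat.le_add_right _ _
    have h4 : G ^ (m * (A + B)) * 2 ^ m * 4 ≤ G ^ ((m * (4 * d + 33) + 1) * n) := by
      calc G ^ (m * (A + B)) * 2 ^ m * 4 ≤ G ^ (m * (A + B)) * G ^ m * G := by
            have : (2 : ℝ) ≤ G := by linarith
            gcongr
        _ = G ^ (m * (A + B) + m + 1) := by rw [pow_add, pow_add, pow_one]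
        _ ≤ _ := pow_le_pow_right₀ hG1 hexp
    set U := G ^ ((m * (4 * d + 33) + 1) * n) with hU
    have hU0 : 0 < U := by positivity
    have h5 : (t₁ + t₂) * U ≤ 2 := by rw [add_mul]; linarith [ht1, ht2]
    calc (G ^ A) ^ m * (a ^ (m - 1) * b) * ‖T‖ ^ m
        ≤ (G ^ A) ^ m * (a ^ (m - 1) * b) *
            (G ^ B * (a ^ n / a ^ (d * n) + a ^ n / b)) ^ m :=
          mul_le_mul_of_nonneg_left h2 (by positivity)
      _ = G ^ (m * (A + B)) * ((a ^ (m - 1) * b) * (a ^ n / a ^ (d * n) + a ^ n / b) ^ m) := by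
          rw [mul_pow (G ^ B), ← pow_mul, ← pow_mul, mul_add, pow_add, mul_comm A m, mul_comm B m]
          ring
      _ ≤ G ^ (m * (A + B)) * (2 ^ m * (t₁ + t₂)) :=
          mul_le_mul_of_nonneg_left h3 (by positivity)
      _ < 1 := by
          have ht0 : 0 ≤ t₁ + t₂ := by positivity
          have h6 : G ^ (m * (A + B)) * 2 ^ m * 4 * (t₁ + t₂) ≤ 2 := by
            refine le_trans ?_ h5
            rw [mul_comm (t₁ + t₂)]
            exact mul_le_mul_of_nonneg_right h4 ht0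
          have h7 : G ^ (m * (A + B)) * (2 ^ m * (t₁ + t₂)) =
              (G ^ (m * (A + B)) * 2 ^ m * 4 * (t₁ + t₂)) / 4 := by ring
          rw [h7]
          linarith
  have hz := zero_estimate hm (Rt f) (by omega) n x hxne _ hall
  obtain ⟨θ, hθ⟩ : (Rt f).Nonempty := card_pos.mp (by omega)
  have h1 := hz θ hθ
  have hv : vv m x θ ≠ 0 := by
    intro h0
    have h2 := vv_pow hm (x := (x : ℂ)) (θ := θ)
    rw [h0, zero_pow (by omega)] at h2
    exact pow_ne_zero _ (one_sub_ne (hltx θ hθ)) h2.symm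
  have hw : ww m y θ ≠ 0 := by
    intro h0
    have h2 := ww_pow hm (x := (y : ℂ)) (θ := θ)
    rw [h0, zero_pow (by omega)] at h2
    exact one_sub_ne (hlty θ hθ) h2.symm
  exact mul_ne_zero hv hw h1


/-- **Two integers at a large distance.** -/
theorem contra2 {m : ℕ} (hm : 2 ≤ m) {f : Polynomial ℤ} (hf : f ≠ 0)
    (hs : (Polynomial.map (Int.castRingHom ℚ) f).Separable) (hd : 1 ≤ f.natDegree)
    {G ρ : ℝ} (hG4 : 4 ≤ G) (hmG : (m : ℝ) ^ 2 ≤ G) (hdG : (f.natDegree : ℝ) ≤ G)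
    (hρ : 1 / 2 ≤ ρ)
    (hρG : (1 + 2 * ρ) ^ f.natDegree ≤ G) (hlG : |(f.leadingCoeff : ℝ)| ≤ G)
    (hroot : ∀ θ ∈ Rt f, ‖θ‖ ≤ ρ) (hW : ∀ θ ∈ Rt f, ‖(GP.Wt (Rt f) θ)⁻¹‖ ≤ G)
    (hE : |((Polynomial.resultant f (Polynomial.derivative f) f.natDegree
      (f.natDegree - 1) : ℤ) : ℝ)| * |(f.leadingCoeff : ℝ)| ^ f.natDegree ≤ G)
    (x y : ℤ) {a b : ℝ} (hxa : |(x : ℝ)| = a) (hyb : |(y : ℝ)| = b) (n : ℕ) (hn : 1 ≤ n)
    (haρ : 4 * ρ ≤ a) (hab : a ≤ b)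
    (ht1 : (a ^ (m - 1) * b * (a ^ n / a ^ (f.natDegree * n)) ^ m) ^ 2 * a ^ n ≤ 1)
    (ht2 : (a ^ (m - 1) * b * (a ^ n / b) ^ m) ^ 2 * a ^ n ≤ 1)
    (ha : G ^ (2 * (m * (4 * f.natDegree + 33) + 1)) ≤ a)
    (hrat : ∀ P : Polynomial ℚ, ∃ q : ℚ,
      (∑ θ ∈ Rt f, vv m x θ * ww m y θ * Polynomial.aeval θ P) ^ m = (q : ℂ)) : False := by
  have hG1 : 1 ≤ G := by linarith
  have ha0 : 0 < a := by linarith
  have hb0 : 0 < b := by linarith
  exact contra_core hm hf hs hd hG4 hmG hdG hρ hρG hlG hroot hW hE x y hxa hyb n hn haρ hab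
    (t_small (K := m * (4 * f.natDegree + 33) + 1) hG1 (by positivity) ht1 ha)
    (t_small (K := m * (4 * f.natDegree + 33) + 1) hG1 (by positivity) ht2 ha) hrat

end Pool.Agent.U133.SE
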